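import Pool.Agent.Helper242.KK.WinAsym

set_option autoImplicit false

/-!
# Consequences of the window bound, for every `μ > 0`
-/

namespace Pool.Agent.Y971.KK

open Complex MeasureTheory Filter Topology Metric Pool.Agent.Helper242.KK

/-- a good point near every point -/
theorem exists_good_universal' {μ C X : ℝ} (hμ : 0 < μ) {f : ℝ → ℂ} {D : ℝ → ℝ → ℂ}
    (hC : 0 < C) (hX : 1 ≤ X) (hD0 : ∀ x : ℝ, 1 / 4 ≤ ‖D 0 x‖)
    (hD : ∀ x₀ b ρ m : ℝ, X ≤ x₀ → 0 ≤ b → b ≤ Real.log x₀ → 0 ≤ ρ → 0 ≤ m →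
      (∀ x : ℝ, |x - x₀| ≤ ρ → ‖f x‖ * Real.exp (Real.pi / 4 * |x|) ≤ m) →
      ‖D b x₀‖ ≤ C * x₀ ^ 4 * Real.exp (2 * μ * (1 + 1 / 20) * (Real.log x₀ / 2 - b) ^ 2) *
        (m + Real.exp (-(1 - 1 / 20) ^ 2 * ρ ^ 2 / (8 * μ)))) :
    ∃ T₁ : ℝ, ∀ T x₀ : ℝ, T₁ ≤ T → T ≤ x₀ → x₀ ≤ 3 * T →
      ∃ x : ℝ, |x - x₀| ≤ 11 / 5 * μ * Real.log T ∧
        Real.exp (-(11 / 20) * μ * Real.log T ^ 2) < ‖f x‖ * Real.exp (Real.pi / 4 * |x|) := by
  refine ⟨max X (Real.exp (3000 + 2000 / μ + 648 * C)), fun T x₀ hT hx0 hx1 => ?_⟩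
  by_contra hc
  push Not at hc
  have hTpos : 0 < T := (Real.exp_pos _).trans_le ((le_max_right _ _).trans hT)
  have hl := (Real.le_log_iff_exp_le hTpos).2 ((le_max_right _ _).trans hT)
  have hX' : X ≤ x₀ := ((le_max_left _ _).trans hT).trans hx0
  have hx4 := aux_xpow hTpos hx0 hx1
  obtain ⟨hlg1, hlg2⟩ := aux_log hTpos hx0 hx1
  set l := Real.log T with hldef
  have h2μ : 0 < 2000 / μ := by positivity
  have hl0 : 3000 ≤ l := by linarith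
  have hlμ : 2000 ≤ μ * l := by
    have h1 : 2000 / μ ≤ l := by linarith
    rw [div_le_iff₀ hμ] at h1
    linarith
  have h := hD x₀ 0 (11 / 5 * μ * l) (Real.exp (-(11 / 20) * μ * l ^ 2)) hX' le_rfl
    (by linarith) (by positivity) (Real.exp_pos _).le hc
  have hq := hD0 x₀
  have e2 : Real.exp (2 * μ * (1 + 1 / 20) * (Real.log x₀ / 2 - 0) ^ 2) ≤
      Real.exp (21 / 40 * μ * (l + 2) ^ 2) := by
    apply Real.exp_le_exp.2
    have h1 : (Real.log x₀) ^ 2 ≤ (l + 2) ^ 2 := pow_le_pow_left₀ (by linarith) hlg2 2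
    have h2 := mul_le_mul_of_nonneg_left h1 (show 0 ≤ 21 / 40 * μ by positivity)
    calc 2 * μ * (1 + 1 / 20) * (Real.log x₀ / 2 - 0) ^ 2 = 21 / 40 * μ * (Real.log x₀) ^ 2 := by
          ring
      _ ≤ _ := h2
  have e3 : Real.exp (-(11 / 20) * μ * l ^ 2) +
      Real.exp (-(1 - 1 / 20) ^ 2 * (11 / 5 * μ * l) ^ 2 / (8 * μ)) ≤
      2 * Real.exp (-(546 / 1000) * μ * l ^ 2) := by
    have hml : 0 ≤ μ * l ^ 2 := by positivity
    have h1 : Real.exp (-(11 / 20) * μ * l ^ 2) ≤ Real.exp (-(546 / 1000) * μ * l ^ 2) := by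
      apply Real.exp_le_exp.2
      nlinarith only [hml]
    have h2 : Real.exp (-(1 - 1 / 20) ^ 2 * (11 / 5 * μ * l) ^ 2 / (8 * μ)) ≤
        Real.exp (-(546 / 1000) * μ * l ^ 2) := by
      apply Real.exp_le_exp.2
      have h3 : -(1 - 1 / 20) ^ 2 * (11 / 5 * μ * l) ^ 2 / (8 * μ) =
          -(43681 / 80000) * (μ * l ^ 2) := by
        field_simp
        norm_num
      rw [h3]
      nlinarith only [hml]
    linarith
  have hfin : ‖D 0 x₀‖ ≤ C * (81 * Real.exp (4 * l)) * Real.exp (21 / 40 * μ * (l + 2) ^ 2) *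
      (2 * Real.exp (-(546 / 1000) * μ * l ^ 2)) := by
    refine h.trans ?_
    gcongr
  have h5 : C * (81 * Real.exp (4 * l)) * Real.exp (21 / 40 * μ * (l + 2) ^ 2) *
      (2 * Real.exp (-(546 / 1000) * μ * l ^ 2)) =
      162 * C * Real.exp (4 * l + 21 / 40 * μ * (l + 2) ^ 2 + -(546 / 1000) * μ * l ^ 2) := by
    rw [Real.exp_add, Real.exp_add]
    ring
  rw [h5] at hfin
  have h6 : 4 * l + 21 / 40 * μ * (l + 2) ^ 2 + -(546 / 1000) * μ * l ^ 2 ≤ -(20 * l) := by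
    have h7 : 21 / 40 * (l + 2) ^ 2 - 546 / 1000 * l ^ 2 ≤ -(2 / 100) * l ^ 2 := by
      nlinarith only [hl0]
    have h8 := mul_le_mul_of_nonneg_left h7 hμ.le
    have h9 : 2000 * l ≤ μ * l * l := mul_le_mul_of_nonneg_right hlμ (by linarith)
    have h11 : 21 / 40 * μ * (l + 2) ^ 2 + -(546 / 1000) * μ * l ^ 2 =
        μ * (21 / 40 * (l + 2) ^ 2 - 546 / 1000 * l ^ 2) := by ring
    have h12 : μ * (-(2 / 100) * l ^ 2) = -(1 / 50) * (μ * l * l) := by ring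
    linarith
  have h7 := Real.exp_le_exp.2 h6
  have h8 : ‖D 0 x₀‖ ≤ 162 * C * Real.exp (-(20 * l)) :=
    hfin.trans (mul_le_mul_of_nonneg_left h7 (by positivity))
  have h9 : 20 * l + 1 ≤ Real.exp (20 * l) := Real.add_one_le_exp _
  have h10 : 648 * C < Real.exp (20 * l) := by linarith
  rw [Real.exp_neg] at h8
  have h11 : 162 * C * (Real.exp (20 * l))⁻¹ < 1 / 4 := by
    rw [← div_eq_mul_inv, div_lt_iff₀ (Real.exp_pos _)]
    linarith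
  linarith

/-- smallness of the function near a point gives smallness of the Dirichlet series at many
frequencies -/
theorem small_of_bad' {μ q C X K₀ : ℝ} (hμ : 0 < μ) (hq : 0 < q) (hq1 : q ≤ 1 / 40)
    (hK₀ : 0 ≤ K₀) {f : ℝ → ℂ}
    {D : ℝ → ℝ → ℂ} (hC : 0 < C) (hX : 1 ≤ X)
    (hD : ∀ x₀ b ρ m : ℝ, X ≤ x₀ → 0 ≤ b → b ≤ Real.log x₀ → 0 ≤ ρ → 0 ≤ m →
      (∀ x : ℝ, |x - x₀| ≤ ρ → ‖f x‖ * Real.exp (Real.pi / 4 * |x|) ≤ m) →
      ‖D b x₀‖ ≤ C * x₀ ^ 4 * Real.exp (2 * μ * (1 + 1 / 20) * (Real.log x₀ / 2 - b) ^ 2) *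
        (m + Real.exp (-(1 - 1 / 20) ^ 2 * ρ ^ 2 / (8 * μ)))) :
    ∃ T₁ : ℝ, ∀ T x₀ : ℝ, T₁ ≤ T → T ≤ x₀ → x₀ ≤ 3 * T →
      (∀ x : ℝ, |x - x₀| ≤ 5 * q * μ * Real.log T →
        ‖f x‖ * Real.exp (Real.pi / 4 * |x|) ≤ Real.exp (-3 * q ^ 2 * μ * Real.log T ^ 2)) →
      ∀ δ : ℝ, 0 ≤ δ → δ ≤ K₀ → ‖D ((1 / 2 - q) * Real.log T - δ) x₀‖ ≤ (T ^ 3)⁻¹ := by
  obtain ⟨Y, hY⟩ : ∃ Y, Y = (5 * μ * q * (1 + K₀) + 3 * μ * (1 + K₀) ^ 2 + 14) /
    (1 / 2 * (μ * q ^ 2)) := ⟨_, rfl⟩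
  have hY0 : 0 < Y := by rw [hY]; positivity
  refine ⟨max X (Real.exp (1 + Y + 3 * K₀ + 24 * C)), fun T x₀ hT hx0 hx1 hc δ hδ0 hδ1 => ?_⟩
  have hTpos : 0 < T := (Real.exp_pos _).trans_le ((le_max_right _ _).trans hT)
  have hl := (Real.le_log_iff_exp_le hTpos).2 ((le_max_right _ _).trans hT)
  have hX' : X ≤ x₀ := ((le_max_left _ _).trans hT).trans hx0
  have hx4 := aux_xpow hTpos hx0 hx1
  obtain ⟨hlg1, hlg2⟩ := aux_log hTpos hx0 hx1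
  have hT3 : (T ^ 3)⁻¹ = Real.exp (-(3 * Real.log T)) := by
    have : 3 * Real.log T = ((3 : ℕ) : ℝ) * Real.log T := by norm_num
    rw [this, Real.exp_neg, Real.exp_nat_mul, Real.exp_log hTpos]
  rw [hT3]
  set l := Real.log T with hldef
  have hlpos : 1 ≤ l := by linarith
  have hlY : Y ≤ l := by linarith
  rw [hY, div_le_iff₀ (by positivity)] at hlY
  have hb0 : 0 ≤ (1 / 2 - q) * l - δ := by
    have h1 : 19 / 40 * l ≤ (1 / 2 - q) * l :=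
      mul_le_mul_of_nonneg_right (by linarith) (by linarith)
    linarith
  have hb1 : (1 / 2 - q) * l - δ ≤ Real.log x₀ := by
    have h1 : (1 / 2 - q) * l ≤ 1 * l := mul_le_mul_of_nonneg_right (by linarith) (by linarith)
    linarith
  have h := hD x₀ ((1 / 2 - q) * l - δ) (5 * q * μ * l) (Real.exp (-3 * q ^ 2 * μ * l ^ 2)) hX'
    hb0 hb1 (by positivity) (Real.exp_pos _).le hc
  have hql0 : 0 ≤ q * l := by positivity
  have e2 : Real.exp (2 * μ * (1 + 1 / 20) * (Real.log x₀ / 2 - ((1 / 2 - q) * l - δ)) ^ 2) ≤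
      Real.exp (21 / 10 * μ * (q * l + (1 + K₀)) ^ 2) := by
    apply Real.exp_le_exp.2
    have h1 : (Real.log x₀ / 2 - ((1 / 2 - q) * l - δ)) ^ 2 ≤ (q * l + (1 + K₀)) ^ 2 :=
      pow_le_pow_left₀ (by linarith) (by linarith) 2
    have h2 := mul_le_mul_of_nonneg_left h1 (show 0 ≤ 21 / 10 * μ by positivity)
    calc 2 * μ * (1 + 1 / 20) * (Real.log x₀ / 2 - ((1 / 2 - q) * l - δ)) ^ 2 =
          21 / 10 * μ * (Real.log x₀ / 2 - ((1 / 2 - q) * l - δ)) ^ 2 := by ring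
      _ ≤ _ := h2
  have e3 : Real.exp (-3 * q ^ 2 * μ * l ^ 2) +
      Real.exp (-(1 - 1 / 20) ^ 2 * (5 * q * μ * l) ^ 2 / (8 * μ)) ≤
      2 * Real.exp (-(282 / 100) * μ * (q * l) ^ 2) := by
    have hml : 0 ≤ μ * (q * l) ^ 2 := by positivity
    have h1 : Real.exp (-3 * q ^ 2 * μ * l ^ 2) ≤ Real.exp (-(282 / 100) * μ * (q * l) ^ 2) := by
      apply Real.exp_le_exp.2
      nlinarith only [hml]
    have h2 : Real.exp (-(1 - 1 / 20) ^ 2 * (5 * q * μ * l) ^ 2 / (8 * μ)) ≤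
        Real.exp (-(282 / 100) * μ * (q * l) ^ 2) := by
      apply Real.exp_le_exp.2
      have h3 : -(1 - 1 / 20) ^ 2 * (5 * q * μ * l) ^ 2 / (8 * μ) =
          -(361 / 128) * (μ * (q * l) ^ 2) := by
        field_simp
        norm_num
      rw [h3]
      nlinarith only [hml]
    linarith
  have hfin : ‖D ((1 / 2 - q) * l - δ) x₀‖ ≤ C * (81 * Real.exp (4 * l)) *
      Real.exp (21 / 10 * μ * (q * l + (1 + K₀)) ^ 2) *
      (2 * Real.exp (-(282 / 100) * μ * (q * l) ^ 2)) := by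
    refine h.trans ?_
    gcongr
  have h5 : C * (81 * Real.exp (4 * l)) * Real.exp (21 / 10 * μ * (q * l + (1 + K₀)) ^ 2) *
      (2 * Real.exp (-(282 / 100) * μ * (q * l) ^ 2)) =
      162 * C * Real.exp (4 * l + 21 / 10 * μ * (q * l + (1 + K₀)) ^ 2 +
        -(282 / 100) * μ * (q * l) ^ 2) := by
    rw [Real.exp_add, Real.exp_add]
    ring
  rw [h5] at hfin
  have h6 : 4 * l + 21 / 10 * μ * (q * l + (1 + K₀)) ^ 2 + -(282 / 100) * μ * (q * l) ^ 2 ≤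
      -(10 * l) := by
    have g1 := mul_le_mul_of_nonneg_right hlY (show 0 ≤ l by linarith)
    have g2 : 3 * μ * (1 + K₀) ^ 2 ≤ 3 * μ * (1 + K₀) ^ 2 * l :=
      le_mul_of_one_le_right (by positivity) hlpos
    have g3 : 0 ≤ μ * q ^ 2 * l ^ 2 := by positivity
    have g4 : 0 ≤ μ * q * (1 + K₀) * l := by positivity
    have g5 : 0 ≤ μ * (1 + K₀) ^ 2 := by positivity
    have g6 : 21 / 10 * μ * (q * l + (1 + K₀)) ^ 2 = 21 / 10 * (μ * q ^ 2 * l ^ 2) +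
      21 / 5 * (μ * q * (1 + K₀) * l) + 21 / 10 * (μ * (1 + K₀) ^ 2) := by ring
    have g7 : -(282 / 100) * μ * (q * l) ^ 2 = -(282 / 100) * (μ * q ^ 2 * l ^ 2) := by ring
    have g8 : l * (1 / 2 * (μ * q ^ 2)) * l = 1 / 2 * (μ * q ^ 2 * l ^ 2) := by ring
    have g9 : (5 * μ * q * (1 + K₀) + 3 * μ * (1 + K₀) ^ 2 + 14) * l =
      5 * (μ * q * (1 + K₀) * l) + 3 * μ * (1 + K₀) ^ 2 * l + 14 * l := by ring
    rw [g8, g9] at g1
    rw [g6, g7]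
    linarith
  have h7 := Real.exp_le_exp.2 h6
  have h8 : ‖D ((1 / 2 - q) * l - δ) x₀‖ ≤ 162 * C * Real.exp (-(10 * l)) :=
    hfin.trans (mul_le_mul_of_nonneg_left h7 (by positivity))
  refine h8.trans ?_
  have h9 : 7 * l + 1 ≤ Real.exp (7 * l) := Real.add_one_le_exp _
  have hl3 : 24 * C ≤ l := by linarith
  have h10 : 162 * C ≤ Real.exp (7 * l) := by linarith
  have h11 : Real.exp (-(3 * l)) = Real.exp (7 * l) * Real.exp (-(10 * l)) := by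
    rw [← Real.exp_add]
    congr 1
    ring
  rw [h11]
  exact mul_le_mul_of_nonneg_right h10 (Real.exp_pos _).le

end Pool.Agent.Y971.KK
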