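import Pool.Agent.Y971.KK.Rough
import Pool.Agent.Helper242.KK.DblS

set_option autoImplicit false

/-!
# The off-diagonal sums over the integers prime to a modulus
-/

namespace Pool.Agent.Y971.KK

open Finset Pool.Agent.Helper242.KK

theorem inv_log_two_sq {h : ℝ} (hh : 0 < h) : (1 / (h * Real.log 2)) ^ 2 ≤ 3 / h ^ 2 := by
  have h1 : (0.69 : ℝ) < Real.log 2 := by
    have := Real.log_two_gt_d9
    linarith
  have h0 : 0 < Real.log 2 := by linarith
  rw [div_pow, one_pow, mul_pow]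
  rw [div_le_div_iff₀ (by positivity) (by positivity)]
  have h2 : 1 ≤ 3 * Real.log 2 ^ 2 := by nlinarith
  have h3 : 0 ≤ h ^ 2 := by positivity
  nlinarith

/-- the discrete derivative which controls the off-diagonal terms -/
noncomputable def dd (h : ℝ) (b a : ℕ) : ℝ :=
  (((b : ℝ) - a) / (b / h + ((b : ℝ) - a))) - (((b : ℝ) - (a + 1)) / (b / h + ((b : ℝ) - (a + 1))))

theorem dd_eq {h : ℝ} (hh : 0 < h) {b a : ℕ} (hab : a < b) :
    dd h b a = ((b : ℝ) / h) / (((b : ℝ) / h + ((b : ℝ) - a)) * ((b : ℝ) / h + ((b : ℝ) - a - 1))) := by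
  have hb0 : (0 : ℝ) < b := by exact_mod_cast (by omega : 0 < b)
  have hab1 : (a : ℝ) + 1 ≤ b := by exact_mod_cast hab
  have hc : 0 < (b : ℝ) / h := by positivity
  have e1 : (b : ℝ) / h + ((b : ℝ) - a) ≠ 0 := by
    have : 0 < (b : ℝ) / h + ((b : ℝ) - a) := by linarith
    exact this.ne'
  have e2 : (b : ℝ) / h + ((b : ℝ) - a - 1) ≠ 0 := by
    have : 0 < (b : ℝ) / h + ((b : ℝ) - a - 1) := by linarith
    exact this.ne'
  unfold dd
  rw [show (b : ℝ) - (a + 1) = (b : ℝ) - a - 1 by ring]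
  rw [div_sub_div _ _ e1 e2]
  congr 1
  ring

theorem dd_sum {h : ℝ} (hh : 0 < h) {b : ℕ} (hb : 1 ≤ b) : ∑ a ∈ Ico 1 b, dd h b a ≤ 1 := by
  have h2 := isl_tel (fun a : ℕ => -(((b : ℝ) - a) / (b / h + ((b : ℝ) - a)))) b hb
  have hb0 : (0 : ℝ) < b := by exact_mod_cast hb
  have e1 : ∑ a ∈ Ico 1 b, dd h b a = ((b : ℝ) - 1) / (b / h + ((b : ℝ) - 1)) := by
    calc _ = _ := by
          refine sum_congr rfl fun a _ => ?_
          unfold dd
          rw [show ((((b : ℝ) - a) / (b / h + ((b : ℝ) - a))) -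
            (((b : ℝ) - (a + 1)) / (b / h + ((b : ℝ) - (a + 1))))) =
            -(((b : ℝ) - ((a + 1 : ℕ) : ℝ)) / (b / h + ((b : ℝ) - ((a + 1 : ℕ) : ℝ)))) -
            -(((b : ℝ) - a) / (b / h + ((b : ℝ) - a))) by push_cast; ring]
      _ = _ := h2
      _ = _ := by simp
  rw [e1]
  have hb1 : (1 : ℝ) ≤ b := by exact_mod_cast hb
  have : 0 < (b : ℝ) / h := by positivity
  apply div_le_one_of_le₀
  · linarith
  · linarith

theorem sb_term {h : ℝ} (hh : 1 ≤ h) (a b : ℕ) (ha : 1 ≤ a) (hab : a < b) :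
    sb h a b ^ 2 / a ≤ (8 / h) * dd h b a + 3 / h ^ 2 * (1 / a) := by
  have h1 := isl_term hh a b ha hab
  have h2 := inv_log_two_sq (show 0 < h by linarith)
  have h3 : (1 / (h * Real.log 2)) ^ 2 * (1 / (a : ℝ)) ≤ 3 / h ^ 2 * (1 / a) :=
    mul_le_mul_of_nonneg_right h2 (by positivity)
  unfold dd
  linarith

theorem harm_le {b : ℕ} (hb : 1 ≤ b) : ∑ a ∈ Ico 1 b, 1 / (a : ℝ) ≤ 1 + Real.log b := by
  refine le_trans ?_ (isl_icc b hb)
  refine sum_le_sum_of_subset_of_nonneg ?_ fun a _ _ => by positivity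
  intro a ha
  rw [mem_Ico] at ha
  rw [mem_Ioc]
  omega

/-- the inner sum without restriction -/
theorem inner_gen {h : ℝ} (hh : 1 ≤ h) {b : ℕ} (hb : 1 ≤ b) :
    ∑ a ∈ Ico 1 b, sb h a b ^ 2 / a ≤ 8 / h + 3 / h ^ 2 * (1 + Real.log b) := by
  have hh0 : 0 < h := by linarith
  have h1 : ∑ a ∈ Ico 1 b, sb h a b ^ 2 / a ≤ ∑ a ∈ Ico 1 b,
      ((8 / h) * dd h b a + 3 / h ^ 2 * (1 / a)) := by
    refine sum_le_sum fun a ha => ?_
    rw [mem_Ico] at ha
    exact sb_term hh a b ha.1 ha.2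
  rw [sum_add_distrib, ← mul_sum, ← mul_sum] at h1
  have h2 := mul_le_mul_of_nonneg_left (dd_sum hh0 hb) (show 0 ≤ 8 / h by positivity)
  have h3 := mul_le_mul_of_nonneg_left (harm_le hb) (show 0 ≤ 3 / h ^ 2 by positivity)
  linarith

/-- the harmonic sums over the integers prime to `P` -/
theorem harm_rough {P : ℕ} (hP : 1 ≤ P) {N : ℕ} (hN : 1 ≤ N) :
    ∑ a ∈ Icc 1 N, chi P a * (1 / a) ≤ kap P * (1 + Real.log N) + 4 * P := by
  have h1 := rough_sum hP (g := fun n : ℕ => 1 / (n : ℝ)) (τ := 0) (M := 1)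
    (fun n _ => by positivity)
    (fun m n hm hmn hn => by
      exfalso
      have : (1 : ℝ) ≤ n := by exact_mod_cast hm.trans hmn
      linarith)
    (fun m n hm _ hmn => by
      apply one_div_le_one_div_of_le
      · exact_mod_cast hm
      · exact_mod_cast hmn)
    (fun n hn => by
      rw [div_le_one (by exact_mod_cast hn)]
      exact_mod_cast hn) N
  have h2 := (abs_le.1 h1).2
  have h3 : ∑ a ∈ Icc 1 N, 1 / (a : ℝ) ≤ 1 + Real.log N := by
    have e : Icc 1 N = Ioc 0 N := by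
      ext x; rw [mem_Icc, mem_Ioc]; omega
    rw [e]
    exact isl_icc N hN
  have h4 := mul_le_mul_of_nonneg_left h3 (kap_nonneg P)
  linarith

/-- the inner sum over the integers prime to `P` -/
theorem inner_rough {h : ℝ} (hh : 1 ≤ h) {P : ℕ} (hP : 1 ≤ P) {b : ℕ} (hb : 1 ≤ b)
    (hbh : 4 * P * h ≤ kap P * b) :
    ∑ a ∈ Ico 1 b, chi P a * (sb h a b ^ 2 / a) ≤
      16 * kap P / h + 3 / h ^ 2 * (kap P * (1 + Real.log b) + 4 * P) := by
  have hh0 : 0 < h := by linarith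
  have hb0 : (0 : ℝ) < b := by exact_mod_cast hb
  have hP0 : (0 : ℝ) < P := by exact_mod_cast hP
  have hc : 0 < (b : ℝ) / h := by positivity
  have h1 : ∑ a ∈ Ico 1 b, chi P a * (sb h a b ^ 2 / a) ≤ ∑ a ∈ Ico 1 b,
      ((8 / h) * (chi P a * dd h b a) + 3 / h ^ 2 * (chi P a * (1 / a))) := by
    refine sum_le_sum fun a ha => ?_
    rw [mem_Ico] at ha
    have := mul_le_mul_of_nonneg_left (sb_term hh a b ha.1 ha.2) (chi_nonneg P a)
    linarith
  rw [sum_add_distrib, ← mul_sum, ← mul_sum] at h1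
  have e0 : Icc 1 (b - 1) = Ico 1 b := by
    ext x; rw [mem_Icc, mem_Ico]; omega
  have ddpos : ∀ a : ℕ, a < b → 0 ≤ dd h b a := by
    intro a ha
    rw [dd_eq hh0 ha]
    have hab1 : (a : ℝ) + 1 ≤ b := by exact_mod_cast ha
    have e1 : 0 < (b : ℝ) / h + ((b : ℝ) - a) := by linarith
    have e2 : 0 < (b : ℝ) / h + ((b : ℝ) - a - 1) := by linarith
    positivity
  have h2 := rough_sum hP (g := fun a : ℕ => if a < b then dd h b a else 0)
    (τ := (b : ℝ) - 1) (M := h / b)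
    (fun n _ => by
      split_ifs with hn
      · exact ddpos n hn
      · exact le_rfl)
    (fun m n hm hmn hn => by
      have hnb : n < b := by
        have : (n : ℝ) < b := by linarith
        exact_mod_cast this
      have hmb : m < b := by omega
      rw [if_pos hnb, if_pos hmb, dd_eq hh0 hnb, dd_eq hh0 hmb]
      have hn1 : (n : ℝ) + 1 ≤ b := by exact_mod_cast hnb
      have hmn' : (m : ℝ) ≤ n := by exact_mod_cast hmn
      have e1 : 0 < (b : ℝ) / h + ((b : ℝ) - n) := by linarith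
      have e2 : 0 < (b : ℝ) / h + ((b : ℝ) - n - 1) := by linarith
      apply div_le_div_of_nonneg_left hc.le (by positivity)
      apply mul_le_mul (by linarith) (by linarith) e2.le (by linarith))
    (fun m n hm hmτ hmn => by
      by_cases hnb : n < b
      · have : n ≤ m := by
          have h3 : (n : ℝ) + 1 ≤ b := by exact_mod_cast hnb
          have h4 : (n : ℝ) ≤ m := by linarith
          exact_mod_cast h4
        have : n = m := by omega
        rw [this]
      · rw [if_neg hnb]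
        split_ifs with hmb
        · exact ddpos m hmb
        · exact le_rfl)
    (fun n hn => by
      split_ifs with hnb
      · rw [dd_eq hh0 hnb]
        have hn1 : (n : ℝ) + 1 ≤ b := by exact_mod_cast hnb
        have e1 : (b : ℝ) / h ≤ (b : ℝ) / h + ((b : ℝ) - n) := by linarith
        have e2 : (b : ℝ) / h ≤ (b : ℝ) / h + ((b : ℝ) - n - 1) := by linarith
        calc (b : ℝ) / h / (((b : ℝ) / h + ((b : ℝ) - n)) * ((b : ℝ) / h + ((b : ℝ) - n - 1)))
            ≤ (b : ℝ) / h / (((b : ℝ) / h) * ((b : ℝ) / h)) := by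
              apply div_le_div_of_nonneg_left hc.le (by positivity)
              exact mul_le_mul e1 e2 hc.le (by linarith)
          _ = h / b := by field_simp
      · positivity) (b - 1)
  rw [e0] at h2
  have h3 : ∑ n ∈ Ico 1 b, chi P n * (if n < b then dd h b n else 0) =
      ∑ n ∈ Ico 1 b, chi P n * dd h b n :=
    sum_congr rfl fun n hn => by rw [if_pos (mem_Ico.1 hn).2]
  have h4 : ∑ n ∈ Ico 1 b, (if n < b then dd h b n else 0) = ∑ n ∈ Ico 1 b, dd h b n :=
    sum_congr rfl fun n hn => by rw [if_pos (mem_Ico.1 hn).2]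
  rw [h3, h4] at h2
  have h5 := (abs_le.1 h2).2
  have h6 := mul_le_mul_of_nonneg_left (dd_sum hh0 hb) (kap_nonneg P)
  have h7 : 4 * P * (h / b) ≤ kap P := by
    rw [← mul_div_assoc, div_le_iff₀ hb0]
    exact hbh
  have h8 : ∑ n ∈ Ico 1 b, chi P n * dd h b n ≤ 2 * kap P := by linarith
  have h9 := mul_le_mul_of_nonneg_left h8 (show 0 ≤ 8 / h by positivity)
  have h10 : ∑ a ∈ Ico 1 b, chi P a * (1 / a) ≤ kap P * (1 + Real.log b) + 4 * P := by
    refine le_trans ?_ (harm_rough hP hb)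
    refine sum_le_sum_of_subset_of_nonneg ?_ fun a _ _ =>
      mul_nonneg (chi_nonneg _ _) (by positivity)
    intro a ha
    rw [mem_Ico] at ha
    rw [mem_Icc]
    omega
  have h11 := mul_le_mul_of_nonneg_left h10 (show 0 ≤ 3 / h ^ 2 by positivity)
  have h12 : 8 / h * (2 * kap P) = 16 * kap P / h := by ring
  linarith

theorem sym_sum (w : ℕ → ℕ → ℝ) (hw : ∀ a b, w a b = w b a) (N : ℕ) :
    ∑ a ∈ Icc 1 N, ∑ b ∈ (Icc 1 N).erase a, w a b = 2 * ∑ b ∈ Ioc 0 N, ∑ a ∈ Ico 1 b, w a b := by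
  have hI : Icc 1 N = Ioc 0 N := by
    ext x
    rw [mem_Icc, mem_Ioc]
    omega
  have e1 : ∑ a ∈ Icc 1 N, ∑ b ∈ (Icc 1 N).erase a, w a b =
      ∑ a ∈ Icc 1 N, (∑ b ∈ Ico 1 a, w a b + ∑ b ∈ Ioc a N, w a b) := by
    refine sum_congr rfl fun a ha => ?_
    rw [mem_Icc] at ha
    rw [← sum_union]
    · refine sum_congr ?_ fun _ _ => rfl
      ext x
      rw [mem_erase, mem_Icc, mem_union, mem_Ico, mem_Ioc]
      omega
    · rw [disjoint_left]
      intro x hx hx2
      rw [mem_Ico] at hx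
      rw [mem_Ioc] at hx2
      omega
  rw [e1, sum_add_distrib]
  have e2 : ∑ a ∈ Icc 1 N, ∑ b ∈ Ico 1 a, w a b = ∑ b ∈ Ioc 0 N, ∑ a ∈ Ico 1 b, w a b := by
    rw [hI]
    exact sum_congr rfl fun a _ => sum_congr rfl fun b _ => hw a b
  have e3 : ∑ a ∈ Icc 1 N, ∑ b ∈ Ioc a N, w a b = ∑ b ∈ Ioc 0 N, ∑ a ∈ Ico 1 b, w a b := by
    refine sum_comm' ?_
    intro x y
    simp only [mem_Icc, mem_Ioc, mem_Ico]
    omega
  rw [e2, e3]
  ring

/-- the off-diagonal double sum -/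
theorem rough_double {S : ℕ → ℝ} {N A B P : ℕ} {h V K : ℝ} (hh : 1 ≤ h) (hP : 1 ≤ P)
    (hB : 1 ≤ B) (hBA : B ≤ A) (hAN : A ≤ N) (hV : 0 ≤ V) (hK : 0 ≤ K)
    (hBh : 4 * P * h ≤ kap P * B)
    (hS0 : ∀ a ∈ Icc 1 N, 0 ≤ S a)
    (hS1 : ∀ a ∈ Icc 1 A, S a * a ≤ chi P a * (4 * V))
    (hS2 : ∀ a ∈ Icc 1 N, S a * a ≤ K * V) :
    ∑ a ∈ Icc 1 N, ∑ b ∈ (Icc 1 N).erase a, sb h a b ^ 2 * (S a * S b) ≤
      32 * V ^ 2 * ((8 / h + 3 / h ^ 2 * (1 + Real.log B)) * (1 + Real.log B)) +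
      32 * V ^ 2 * ((16 * kap P / h + 3 / h ^ 2 * (kap P * (1 + Real.log A) + 4 * P)) *
        (kap P * (1 + Real.log A) + 4 * P)) +
      2 * K ^ 2 * V ^ 2 * ((8 / h + 3 / h ^ 2 * (1 + Real.log N)) * (Real.log N - Real.log A)) := by
  have hh0 : 0 < h := by linarith
  have hA : 1 ≤ A := hB.trans hBA
  have hN : 1 ≤ N := hA.trans hAN
  rw [sym_sum (fun a b => sb h a b ^ 2 * (S a * S b)) (fun a b => by rw [isl_sb_comm]; ring) N]
  have hP0 : (0 : ℝ) ≤ P := Nat.cast_nonneg P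
  have hκ0 := kap_nonneg P
  -- general step
  have hstep : ∀ (K' : ℝ) (b : ℕ), 0 ≤ K' → 1 ≤ b → b ≤ N →
      (∀ a, 1 ≤ a → a ≤ b → S a * a ≤ K' * V) →
      ∑ a ∈ Ico 1 b, sb h a b ^ 2 * (S a * S b) ≤
        K' ^ 2 * V ^ 2 * (8 / h + 3 / h ^ 2 * (1 + Real.log b)) * (1 / b) := by
    intro K' b hK0 hb1 hbN hS
    have hb0 : (0 : ℝ) < b := by exact_mod_cast hb1
    have hSb : S b ≤ K' * V / b := by
      rw [le_div_iff₀ hb0]
      exact hS b hb1 le_rfl
    have hSb0 : 0 ≤ S b := hS0 b (mem_Icc.2 ⟨hb1, hbN⟩)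
    have h1 : ∑ a ∈ Ico 1 b, sb h a b ^ 2 * (S a * S b) ≤
        ∑ a ∈ Ico 1 b, (K' * V * (K' * V / b)) * (sb h a b ^ 2 / a) := by
      refine sum_le_sum fun a ha => ?_
      rw [mem_Ico] at ha
      have ha0 : (0 : ℝ) < a := by exact_mod_cast ha.1
      have hSa : S a ≤ K' * V / a := by
        rw [le_div_iff₀ ha0]
        exact hS a ha.1 ha.2.le
      have hKVa : 0 ≤ K' * V / a := by positivity
      calc sb h a b ^ 2 * (S a * S b) ≤ sb h a b ^ 2 * ((K' * V / a) * (K' * V / b)) := by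
            apply mul_le_mul_of_nonneg_left _ (by positivity)
            exact mul_le_mul hSa hSb hSb0 hKVa
        _ = _ := by
            field_simp
    rw [← mul_sum] at h1
    have h3 := mul_le_mul_of_nonneg_left (inner_gen hh hb1)
      (show 0 ≤ K' * V * (K' * V / b) by positivity)
    have h4 : (K' * V * (K' * V / b)) * (8 / h + 3 / h ^ 2 * (1 + Real.log b)) =
        K' ^ 2 * V ^ 2 * (8 / h + 3 / h ^ 2 * (1 + Real.log b)) * (1 / b) := by
      field_simp
    linarith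
  have hS1' : ∀ a, 1 ≤ a → a ≤ A → S a * a ≤ 4 * V := by
    intro a ha1 ha2
    refine (hS1 a (mem_Icc.2 ⟨ha1, ha2⟩)).trans ?_
    have := mul_le_mul_of_nonneg_right (chi_le_one P a) (show 0 ≤ 4 * V by positivity)
    linarith
  rw [← sum_Ioc_consecutive _ (Nat.zero_le A) hAN, ← sum_Ioc_consecutive _ (Nat.zero_le B) hBA]
  have lmono : ∀ b c : ℕ, 1 ≤ b → b ≤ c → Real.log b ≤ Real.log c := by
    intro b c hb hbc
    exact Real.log_le_log (by exact_mod_cast hb) (by exact_mod_cast hbc)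
  have hlB : 0 ≤ Real.log B := Real.log_nonneg (by exact_mod_cast hB)
  have hlA : 0 ≤ Real.log A := Real.log_nonneg (by exact_mod_cast hA)
  have hlN : 0 ≤ Real.log N := Real.log_nonneg (by exact_mod_cast hN)
  have p1 : ∑ b ∈ Ioc 0 B, ∑ a ∈ Ico 1 b, sb h a b ^ 2 * (S a * S b) ≤
      16 * V ^ 2 * ((8 / h + 3 / h ^ 2 * (1 + Real.log B)) * (1 + Real.log B)) := by
    have h1 : ∑ b ∈ Ioc 0 B, ∑ a ∈ Ico 1 b, sb h a b ^ 2 * (S a * S b) ≤
        ∑ b ∈ Ioc 0 B, 16 * V ^ 2 * (8 / h + 3 / h ^ 2 * (1 + Real.log B)) * (1 / (b : ℝ)) := by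
      refine sum_le_sum fun b hb => ?_
      rw [mem_Ioc] at hb
      refine (hstep 4 b (by norm_num) (by omega) (by omega) fun a ha1 ha2 =>
        hS1' a ha1 (by omega)).trans ?_
      apply mul_le_mul_of_nonneg_right _ (by positivity)
      rw [show (4 : ℝ) ^ 2 = 16 by norm_num]
      apply mul_le_mul_of_nonneg_left _ (by positivity)
      have := lmono b B (by omega) hb.2
      have : 3 / h ^ 2 * (1 + Real.log b) ≤ 3 / h ^ 2 * (1 + Real.log B) :=
        mul_le_mul_of_nonneg_left (by linarith) (by positivity)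
      linarith
    rw [← mul_sum] at h1
    refine h1.trans ?_
    rw [← mul_assoc]
    exact mul_le_mul_of_nonneg_left (isl_icc B hB) (by positivity)
  have p2 : ∑ b ∈ Ioc B A, ∑ a ∈ Ico 1 b, sb h a b ^ 2 * (S a * S b) ≤
      16 * V ^ 2 * ((16 * kap P / h + 3 / h ^ 2 * (kap P * (1 + Real.log A) + 4 * P)) *
        (kap P * (1 + Real.log A) + 4 * P)) := by
    have h1 : ∑ b ∈ Ioc B A, ∑ a ∈ Ico 1 b, sb h a b ^ 2 * (S a * S b) ≤
        ∑ b ∈ Ioc B A, 16 * V ^ 2 *
          (16 * kap P / h + 3 / h ^ 2 * (kap P * (1 + Real.log A) + 4 * P)) *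
          (chi P b * (1 / (b : ℝ))) := by
      refine sum_le_sum fun b hb => ?_
      rw [mem_Ioc] at hb
      have hb1 : 1 ≤ b := by omega
      have hb0 : (0 : ℝ) < b := by exact_mod_cast hb1
      have hSb : S b ≤ chi P b * (4 * V) / b := by
        rw [le_div_iff₀ hb0]
        exact hS1 b (mem_Icc.2 ⟨hb1, hb.2⟩)
      have hSb0 : 0 ≤ S b := hS0 b (mem_Icc.2 ⟨hb1, by omega⟩)
      have h2 : ∑ a ∈ Ico 1 b, sb h a b ^ 2 * (S a * S b) ≤
          ∑ a ∈ Ico 1 b, (16 * V ^ 2 * (chi P b * (1 / b))) * (chi P a * (sb h a b ^ 2 / a)) := by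
        refine sum_le_sum fun a ha => ?_
        rw [mem_Ico] at ha
        have ha0 : (0 : ℝ) < a := by exact_mod_cast ha.1
        have hSa : S a ≤ chi P a * (4 * V) / a := by
          rw [le_div_iff₀ ha0]
          exact hS1 a (mem_Icc.2 ⟨ha.1, by omega⟩)
        have hca := chi_nonneg P a
        calc sb h a b ^ 2 * (S a * S b) ≤
              sb h a b ^ 2 * ((chi P a * (4 * V) / a) * (chi P b * (4 * V) / b)) := by
              apply mul_le_mul_of_nonneg_left _ (by positivity)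
              exact mul_le_mul hSa hSb hSb0 (by positivity)
          _ = _ := by
              field_simp
              ring
      rw [← mul_sum] at h2
      have hBb : (B : ℝ) ≤ b := by exact_mod_cast hb.1.le
      have h3 := inner_rough hh hP hb1 (hBh.trans (mul_le_mul_of_nonneg_left hBb hκ0))
      have h4 : 16 * kap P / h + 3 / h ^ 2 * (kap P * (1 + Real.log b) + 4 * P) ≤
          16 * kap P / h + 3 / h ^ 2 * (kap P * (1 + Real.log A) + 4 * P) := by
        have h5 := lmono b A hb1 hb.2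
        have h6 : kap P * (1 + Real.log b) ≤ kap P * (1 + Real.log A) :=
          mul_le_mul_of_nonneg_left (by linarith) hκ0
        have h7 : 3 / h ^ 2 * (kap P * (1 + Real.log b) + 4 * P) ≤
            3 / h ^ 2 * (kap P * (1 + Real.log A) + 4 * P) :=
          mul_le_mul_of_nonneg_left (by linarith) (by positivity)
        linarith
      have hcb := chi_nonneg P b
      have h5 := mul_le_mul_of_nonneg_left (h3.trans h4)
        (show 0 ≤ 16 * V ^ 2 * (chi P b * (1 / (b : ℝ))) by positivity)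
      calc _ ≤ _ := h2
        _ ≤ _ := h5
        _ = _ := by ring
    rw [← mul_sum] at h1
    refine h1.trans ?_
    rw [← mul_assoc]
    apply mul_le_mul_of_nonneg_left _ (by positivity)
    refine le_trans ?_ (harm_rough hP hA)
    refine sum_le_sum_of_subset_of_nonneg ?_ fun a _ _ =>
      mul_nonneg (chi_nonneg _ _) (by positivity)
    intro a ha
    rw [mem_Ioc] at ha
    rw [mem_Icc]
    omega
  have p3 : ∑ b ∈ Ioc A N, ∑ a ∈ Ico 1 b, sb h a b ^ 2 * (S a * S b) ≤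
      K ^ 2 * V ^ 2 * ((8 / h + 3 / h ^ 2 * (1 + Real.log N)) * (Real.log N - Real.log A)) := by
    have h1 : ∑ b ∈ Ioc A N, ∑ a ∈ Ico 1 b, sb h a b ^ 2 * (S a * S b) ≤
        ∑ b ∈ Ioc A N, K ^ 2 * V ^ 2 * (8 / h + 3 / h ^ 2 * (1 + Real.log N)) * (1 / (b : ℝ)) := by
      refine sum_le_sum fun b hb => ?_
      rw [mem_Ioc] at hb
      refine (hstep K b hK (by omega) (by omega) fun a ha1 ha2 =>
        hS2 a (mem_Icc.2 ⟨ha1, by omega⟩)).trans ?_
      apply mul_le_mul_of_nonneg_right _ (by positivity)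
      apply mul_le_mul_of_nonneg_left _ (by positivity)
      have := lmono b N (by omega) hb.2
      have : 3 / h ^ 2 * (1 + Real.log b) ≤ 3 / h ^ 2 * (1 + Real.log N) :=
        mul_le_mul_of_nonneg_left (by linarith) (by positivity)
      linarith
    rw [← mul_sum] at h1
    refine h1.trans ?_
    rw [← mul_assoc]
    exact mul_le_mul_of_nonneg_left (isl_ioc A N hA hAN) (by positivity)
  linarith

end Pool.Agent.Y971.KK
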