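import Pool.Agent.Y971.KK.RSer
import Pool.Agent.Y971.KK.RInner

set_option autoImplicit false

/-!
# The measure of the points near which the sieved Dirichlet series is small
-/

namespace Pool.Agent.Y971.KK

open Complex MeasureTheory Filter Topology Pool.Agent.Helper242.KK

/-- the three properties of the weights -/
def WB (P : ℕ) (μ K b₀ : ℝ) : Prop := ∀ b : ℝ, b₀ ≤ b → ∀ N : ℕ, 2 * Real.exp b ≤ N →
    Real.exp (-3 * b) ≤ K * ∑ n ∈ Finset.Icc 1 N, rv P μ b n ^ 2 ∧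
    (∀ a ∈ Finset.Icc 1 N, Smul (rv P μ b) N a * a ≤ K * ∑ n ∈ Finset.Icc 1 N, rv P μ b n ^ 2) ∧
    (∀ a ∈ Finset.Icc 1 N, K * a ≤ Real.exp b →
      Smul (rv P μ b) N a * a ≤ 4 * ∑ n ∈ Finset.Icc 1 N, rv P μ b n ^ 2)

theorem stat_core {μ : ℝ} (hμ : 0 < μ) {P : ℕ} (hP : 1 ≤ P) {K b₀ : ℝ} (hK1 : 1 ≤ K)
    (hW : WB P μ K b₀) {T l b h σ : ℝ} {N A B : ℕ} (hTl : T = Real.exp l) (hl : 1 ≤ l)
    (hb : b₀ ≤ b) (hbl : b ≤ l / 2) (hσ : 2 * μ * σ ^ 2 = 8 * l) (hσ0 : 0 ≤ σ)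
    (hN2 : Real.exp (b + σ) ≤ N + 1)
    (hN3 : 2 * Real.exp b ≤ N) (hh : 1 ≤ h) (hB : 1 ≤ B) (hBA : B ≤ A) (hAN : A ≤ N)
    (hAe : K * A ≤ Real.exp b) (hBh : 4 * P * h ≤ kap P * B) (hKl : 16 * K ≤ Real.exp l) :
    (volume {x : ℝ | x ∈ Set.Icc T (2 * T) ∧ ∀ r : ℝ, |r| ≤ h →
        ‖Rs P μ b (x + r)‖ ≤ (T ^ 2)⁻¹}).toReal ≤
      2 * Real.exp 4 * Real.sqrt Real.pi * T *
      (32 * ((8 / h + 3 / h ^ 2 * (1 + Real.log B)) * (1 + Real.log B)) +
      32 * ((16 * kap P / h + 3 / h ^ 2 * (kap P * (1 + Real.log A) + 4 * P)) *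
        (kap P * (1 + Real.log A) + 4 * P)) +
      2 * K ^ 2 * ((8 / h + 3 / h ^ 2 * (1 + Real.log N)) * (Real.log N - Real.log A)) +
      16 * K ^ 2 * Real.exp (3 * l) * Real.exp (-T ^ 2 / (4 * (N : ℝ) ^ 4))) := by
  have hT0 : 0 < T := by rw [hTl]; exact Real.exp_pos _
  have hh0 : 0 < h := by linarith
  obtain ⟨hV1, hS2, hS1⟩ := hW b hb N hN3
  set V : ℝ := ∑ n ∈ Finset.Icc 1 N, rv P μ b n ^ 2 with hV
  have hVc : ∑ n ∈ Finset.Icc 1 N, rc P μ b n ^ 2 = V := by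
    rw [hV]; exact Finset.sum_congr rfl (fun n _ => sq_rc P μ b n)
  have hK0 : 0 < K := by linarith
  have hVpos : 0 < V := by
    have h0 := Real.exp_pos (-3 * b)
    exact pos_of_mul_pos_right (lt_of_lt_of_le h0 hV1) hK0.le
  have hVlow : Real.exp (-(3 / 2) * l) ≤ K * V := by
    refine le_trans (Real.exp_le_exp.2 ?_) hV1
    linarith
  -- subset
  have hsub : {x : ℝ | x ∈ Set.Icc T (2 * T) ∧ ∀ r : ℝ, |r| ≤ h →
        ‖Rs P μ b (x + r)‖ ≤ (T ^ 2)⁻¹} ⊆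
      {x : ℝ | x ∈ Set.Icc T (2 * T) ∧ ∀ r : ℝ, |r| ≤ h →
        ‖Psum (rc P μ b) N (x + r)‖ ^ 2 ≤ (∑ n ∈ Finset.Icc 1 N, rc P μ b n ^ 2) / 4} := by
    rintro x ⟨hx, hr⟩
    refine ⟨hx, fun r hrh => ?_⟩
    have h1 := hr r hrh
    have h2 := Rs_tail hμ.le P b (x + r) hσ0 N hN2
    rw [hσ] at h2
    rw [hVc]
    have h3 : ‖Psum (rc P μ b) N (x + r)‖ ≤ (T ^ 2)⁻¹ + 2 * Real.exp (-(8 * l)) := by
      calc ‖Psum (rc P μ b) N (x + r)‖ =
            ‖Rs P μ b (x + r) - (Rs P μ b (x + r) - Psum (rc P μ b) N (x + r))‖ := by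
            congr 1; ring
        _ ≤ ‖Rs P μ b (x + r)‖ + ‖Rs P μ b (x + r) - Psum (rc P μ b) N (x + r)‖ := norm_sub_le _ _
        _ ≤ _ := add_le_add h1 h2
    have h4 : (T ^ 2)⁻¹ = Real.exp (-2 * l) := by
      rw [hTl, ← Real.exp_nat_mul, ← Real.exp_neg]
      congr 1; push_cast; ring
    have h5 : 2 * Real.exp (-(8 * l)) ≤ Real.exp (-2 * l) := by
      have : Real.exp (-2 * l) = Real.exp (-(8 * l)) * Real.exp (6 * l) := by
        rw [← Real.exp_add]; congr 1; ring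
      rw [this]
      have h6 := Real.add_one_le_exp (6 * l)
      have h7 := Real.exp_pos (-(8 * l))
      have h8 : 2 ≤ Real.exp (6 * l) := by linarith
      nlinarith only [h7, h8]
    have h6 : ‖Psum (rc P μ b) N (x + r)‖ ≤ 2 * Real.exp (-2 * l) := by
      rw [h4] at h3; linarith
    have h7 : ‖Psum (rc P μ b) N (x + r)‖ ^ 2 ≤ (2 * Real.exp (-2 * l)) ^ 2 :=
      pow_le_pow_left₀ (norm_nonneg _) h6 2
    refine h7.trans ?_
    have h8 : (2 * Real.exp (-2 * l)) ^ 2 =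
        4 * (Real.exp (-(3 / 2) * l) * Real.exp (-(5 / 2) * l)) := by
      rw [← Real.exp_add, mul_pow, ← Real.exp_nat_mul]
      norm_num
      ring_nf
    rw [h8]
    have h9 : Real.exp (-(5 / 2) * l) ≤ Real.exp (-l) := Real.exp_le_exp.2 (by linarith)
    have h10 : 16 * K * Real.exp (-l) ≤ 1 := by
      rw [Real.exp_neg, ← div_eq_mul_inv, div_le_one (Real.exp_pos _)]
      exact hKl
    have h11 := Real.exp_pos (-(5 / 2) * l)
    have h12 : Real.exp (-(3 / 2) * l) * Real.exp (-(5 / 2) * l) ≤ K * V * Real.exp (-l) := by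
      apply mul_le_mul hVlow h9 h11.le
      positivity
    have h13 : 16 * (K * V * Real.exp (-l)) ≤ V := by
      have : 16 * (K * V * Real.exp (-l)) = V * (16 * K * Real.exp (-l)) := by ring
      rw [this]
      have := mul_le_mul_of_nonneg_left h10 hVpos.le
      linarith
    linarith
  have hfin : (volume {x : ℝ | x ∈ Set.Icc T (2 * T) ∧ ∀ r : ℝ, |r| ≤ h →
        ‖Psum (rc P μ b) N (x + r)‖ ^ 2 ≤ (∑ n ∈ Finset.Icc 1 N, rc P μ b n ^ 2) / 4}) ≠ ⊤ := by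
    refine ne_top_of_le_ne_top ?_ (measure_mono (fun x hx => hx.1) : _ ≤ volume (Set.Icc T (2 * T)))
    rw [Real.volume_Icc]
    exact ENNReal.ofReal_ne_top
  have hmono := ENNReal.toReal_mono hfin (measure_mono hsub)
  refine hmono.trans ?_
  have hbad := bad_measure (rc P μ b) N hh0 hT0 (by rw [hVc]; exact hVpos)
  rw [hVc] at hbad
  rw [hVc]
  set mm : ℝ := (volume {x : ℝ | x ∈ Set.Icc T (2 * T) ∧ ∀ r : ℝ, |r| ≤ h →
        ‖Psum (rc P μ b) N (x + r)‖ ^ 2 ≤ V / 4}).toReal with hmm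
  -- the off-diagonal sum
  have hquad := quad_sum_le (rv P μ b) (fun n => rv_nonneg P μ b n) N hh0
  have hQ0 := rough_double (S := Smul (rv P μ b) N) (N := N) (A := A) (B := B) (P := P) (h := h)
    (V := V) (K := K) hh hP hB hBA hAN hVpos.le hK0.le hBh
    (fun a _ => by unfold Smul; exact Finset.sum_nonneg (fun j _ => sq_nonneg _))
    (fun a ha => by
      rw [Finset.mem_Icc] at ha
      by_cases hc : Nat.Coprime a P
      · have e : chi P a = 1 := by unfold chi; rw [if_pos hc]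
        rw [e, one_mul]
        apply hS1 a (Finset.mem_Icc.2 ⟨ha.1, ha.2.trans hAN⟩)
        have h1 : (a : ℝ) ≤ A := by exact_mod_cast ha.2
        exact (mul_le_mul_of_nonneg_left h1 hK0.le).trans hAe
      · have e : chi P a = 0 := by unfold chi; rw [if_neg hc]
        rw [Smul_rv, e]
        simp)
    hS2
  have hQ1 : ∑ p ∈ quad N, |rc P μ b p.1.1| * |rc P μ b p.1.2| *
        (|rc P μ b p.2.1| * |rc P μ b p.2.2|) * sb h p.1.1 p.1.2 ^ 2 ≤
      V ^ 2 * (32 * ((8 / h + 3 / h ^ 2 * (1 + Real.log B)) * (1 + Real.log B)) +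
      32 * ((16 * kap P / h + 3 / h ^ 2 * (kap P * (1 + Real.log A) + 4 * P)) *
        (kap P * (1 + Real.log A) + 4 * P)) +
      2 * K ^ 2 * ((8 / h + 3 / h ^ 2 * (1 + Real.log N)) * (Real.log N - Real.log A))) := by
    have e1 : ∑ p ∈ quad N, |rc P μ b p.1.1| * |rc P μ b p.1.2| *
        (|rc P μ b p.2.1| * |rc P μ b p.2.2|) * sb h p.1.1 p.1.2 ^ 2 =
        ∑ p ∈ quad N, rv P μ b p.1.1 * rv P μ b p.1.2 * (rv P μ b p.2.1 * rv P μ b p.2.2) *
          sb h p.1.1 p.1.2 ^ 2 := by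
      apply Finset.sum_congr rfl
      intro p _
      simp only [abs_rc]
    rw [e1]
    refine (hquad.trans hQ0).trans (le_of_eq ?_)
    ring
  have hE1 : (∑ n ∈ Finset.Icc 1 N, |rc P μ b n|) ^ 4 * Real.exp (-T ^ 2 / (4 * (N : ℝ) ^ 4)) ≤
      V ^ 2 * (16 * K ^ 2 * Real.exp (3 * l) * Real.exp (-T ^ 2 / (4 * (N : ℝ) ^ 4))) := by
    have h1 := sum_abs_rc hμ.le P b N
    have h0 : 0 ≤ ∑ n ∈ Finset.Icc 1 N, |rc P μ b n| := Finset.sum_nonneg (fun n _ => abs_nonneg _)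
    have h2 : (∑ n ∈ Finset.Icc 1 N, |rc P μ b n|) ^ 4 ≤ 16 := by
      calc _ ≤ (2 : ℝ) ^ 4 := pow_le_pow_left₀ h0 h1 4
        _ = 16 := by norm_num
    have h3 : 1 ≤ K ^ 2 * V ^ 2 * Real.exp (3 * l) := by
      have h4 : Real.exp (-3 * l) ≤ K ^ 2 * V ^ 2 := by
        have : Real.exp (-3 * l) = Real.exp (-(3 / 2) * l) ^ 2 := by
          rw [← Real.exp_nat_mul]; congr 1; push_cast; ring
        rw [this, ← mul_pow]
        exact pow_le_pow_left₀ (Real.exp_pos _).le hVlow 2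
      have h5 := mul_le_mul_of_nonneg_right h4 (Real.exp_pos (3 * l)).le
      rw [← Real.exp_add, show -3 * l + 3 * l = 0 by ring, Real.exp_zero] at h5
      exact h5
    have h6 := Real.exp_pos (-T ^ 2 / (4 * (N : ℝ) ^ 4))
    calc _ ≤ 16 * Real.exp (-T ^ 2 / (4 * (N : ℝ) ^ 4)) := mul_le_mul_of_nonneg_right h2 h6.le
      _ ≤ (16 * Real.exp (-T ^ 2 / (4 * (N : ℝ) ^ 4))) * (K ^ 2 * V ^ 2 * Real.exp (3 * l)) :=
          le_mul_of_one_le_right (by positivity) h3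
      _ = _ := by ring
  have hfinal : mm * V ^ 2 ≤ (2 * Real.exp 4 * Real.sqrt Real.pi * T *
      (32 * ((8 / h + 3 / h ^ 2 * (1 + Real.log B)) * (1 + Real.log B)) +
      32 * ((16 * kap P / h + 3 / h ^ 2 * (kap P * (1 + Real.log A) + 4 * P)) *
        (kap P * (1 + Real.log A) + 4 * P)) +
      2 * K ^ 2 * ((8 / h + 3 / h ^ 2 * (1 + Real.log N)) * (Real.log N - Real.log A)) +
      16 * K ^ 2 * Real.exp (3 * l) * Real.exp (-T ^ 2 / (4 * (N : ℝ) ^ 4)))) * V ^ 2 := by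
    refine hbad.trans ?_
    have h1 := mul_le_mul_of_nonneg_left (add_le_add hQ1 hE1)
      (show 0 ≤ 2 * Real.exp 4 * Real.sqrt Real.pi * T by positivity)
    refine h1.trans (le_of_eq ?_)
    ring
  exact le_of_mul_le_mul_right hfinal (by positivity)

end Pool.Agent.Y971.KK
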