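import Pool.Agent.Helper242.KK.Main

set_option autoImplicit false

/-!
# Finitely many zeros in the vertical strips
-/

namespace Pool.Agent.Y971.KK

open Complex MeasureTheory Filter Topology Metric Pool.Agent.Helper242.KK

lemma fin_exp_beats {c : ℝ} (hc : 0 < c) (K a : ℝ) : ∃ M : ℝ, ∀ m : ℝ, M ≤ m →
    K + a * m ≤ c * Real.exp (2 * m) := by
  refine ⟨max 1 ((|K| + |a|) / c), fun m hm => ?_⟩
  have h1 : 1 ≤ m := (le_max_left _ _).trans hm
  have h2 : (|K| + |a|) / c ≤ m := (le_max_right _ _).trans hm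
  rw [div_le_iff₀ hc] at h2
  have h3 := Real.quadratic_le_exp_of_nonneg (show 0 ≤ 2 * m by linarith)
  have h4 : m * m ≤ Real.exp (2 * m) := by nlinarith
  have h5 : c * (m * m) ≤ c * Real.exp (2 * m) := mul_le_mul_of_nonneg_left h4 hc.le
  have h6 : K ≤ |K| * m := by
    have := le_abs_self K
    nlinarith [abs_nonneg K]
  have h7 : a * m ≤ |a| * m := mul_le_mul_of_nonneg_right (le_abs_self a) (by linarith)
  nlinarith

lemma fin_c1 {δ : ℝ} (hδ : 0 < δ) : 0 < 1 - Real.exp (-δ) - δ * Real.exp (-2 * δ) := by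
  have h1 : 1 + δ < Real.exp δ := by linarith [Real.add_one_lt_exp hδ.ne']
  have h2 : Real.exp δ * Real.exp (-δ) = 1 := by rw [← Real.exp_add]; simp
  have h3 : Real.exp (-2 * δ) = Real.exp (-δ) * Real.exp (-δ) := by
    rw [← Real.exp_add]; ring_nf
  have h4 : 0 < Real.exp (-δ) := Real.exp_pos _
  have h5 : Real.exp (-δ) < 1 := by rw [Real.exp_lt_one_iff]; linarith
  rw [h3]
  have h6 : (1 + δ) * Real.exp (-δ) < 1 := by
    calc (1 + δ) * Real.exp (-δ) < Real.exp δ * Real.exp (-δ) := by gcongr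
      _ = 1 := h2
  have h7 : δ * (Real.exp (-δ) * Real.exp (-δ)) < δ * Real.exp (-δ) := by
    apply mul_lt_mul_of_pos_left _ hδ
    nlinarith
  linarith

lemma fin_c2 {δ : ℝ} (hδ : 0 < δ) : 0 < δ - Real.exp (-δ) + Real.exp (-2 * δ) := by
  have h3 : Real.exp (-2 * δ) = Real.exp (-δ) * Real.exp (-δ) := by
    rw [← Real.exp_add]; ring_nf
  have h4 : 0 < Real.exp (-δ) := Real.exp_pos _
  have h5 : Real.exp (-δ) < 1 := by rw [Real.exp_lt_one_iff]; linarith
  have h6 : 1 - δ ≤ Real.exp (-δ) := by linarith [Real.add_one_le_exp (-δ)]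
  rw [h3]
  have h7 : 0 < 1 - Real.exp (-δ) := by linarith
  have h8 : Real.exp (-δ) * (1 - Real.exp (-δ)) < 1 - Real.exp (-δ) := by nlinarith
  nlinarith

/-- comparison to the right of the maximum -/
lemma fin_right {μ δ ε : ℝ} (hμ : 0 ≤ μ) (hδ : 0 < δ) (hε : 0 < ε) : ∃ M : ℝ, ∀ m : ℝ, M ≤ m →
    ∀ t : ℝ, m + δ ≤ t → wk μ t * Real.exp (2 * Real.pi * Real.exp (2 * m) * t) ≤
      ε * (wk μ (t - δ / 2) * Real.exp (2 * Real.pi * Real.exp (2 * m) * (t - δ / 2))) := by
  obtain ⟨A, hA, hup⟩ := Ph_upper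
  have hpi := Real.pi_pos
  obtain ⟨M, hM⟩ := fin_exp_beats (mul_pos hpi (fin_c1 hδ)) (Real.log (A / ε)) 5
  refine ⟨max M 0, fun m hm t ht => ?_⟩
  have hm0 : 0 ≤ m := (le_max_right _ _).trans hm
  have hm1 : M ≤ m := (le_max_left _ _).trans hm
  have ht0 : 0 ≤ t := by linarith
  have ht1 : 0 ≤ t - δ / 2 := by linarith
  have h1 := hM t (by linarith)
  have h2 : wk μ t ≤ A * Real.exp (5 * t - Real.pi * Real.exp (2 * t)) * Real.exp (-μ * t ^ 2) := by
    unfold wk
    refine mul_le_mul_of_nonneg_right ?_ (Real.exp_pos _).le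
    have := hup t
    rw [abs_of_nonneg ht0] at this
    exact (le_abs_self _).trans this
  have h3 := wk_lower (μ := μ) ht1
  have hAe : A = ε * Real.exp (Real.log (A / ε)) := by
    rw [Real.exp_log (by positivity)]; field_simp
  calc wk μ t * Real.exp (2 * Real.pi * Real.exp (2 * m) * t)
      ≤ (A * Real.exp (5 * t - Real.pi * Real.exp (2 * t)) * Real.exp (-μ * t ^ 2)) *
        Real.exp (2 * Real.pi * Real.exp (2 * m) * t) := by gcongr
    _ = ε * Real.exp (Real.log (A / ε) + (5 * t - Real.pi * Real.exp (2 * t)) + (-μ * t ^ 2) +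
        2 * Real.pi * Real.exp (2 * m) * t) := by
        rw [Real.exp_add, Real.exp_add, Real.exp_add]
        conv_lhs => rw [hAe]
        ring
    _ ≤ ε * Real.exp ((-Real.pi * Real.exp (2 * (t - δ / 2)) - μ * (t - δ / 2) ^ 2) +
        2 * Real.pi * Real.exp (2 * m) * (t - δ / 2)) := by
        refine mul_le_mul_of_nonneg_left (Real.exp_le_exp.2 ?_) hε.le
        have e1 : Real.exp (2 * (t - δ / 2)) = Real.exp (2 * t) * Real.exp (-δ) := by
          rw [← Real.exp_add]; ring_nf
        have e2 : Real.exp (2 * m) ≤ Real.exp (2 * t) * Real.exp (-2 * δ) := by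
          rw [← Real.exp_add]
          exact Real.exp_le_exp.2 (by linarith)
        have e3 : Real.pi * δ * Real.exp (2 * m) ≤
            Real.pi * δ * (Real.exp (2 * t) * Real.exp (-2 * δ)) :=
          mul_le_mul_of_nonneg_left e2 (by positivity)
        have e4 : 0 ≤ μ * (t ^ 2 - (t - δ / 2) ^ 2) := by
          apply mul_nonneg hμ
          nlinarith
        rw [e1]
        nlinarith
    _ = ε * (Real.exp (-Real.pi * Real.exp (2 * (t - δ / 2)) - μ * (t - δ / 2) ^ 2) *
        Real.exp (2 * Real.pi * Real.exp (2 * m) * (t - δ / 2))) := by rw [Real.exp_add]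
    _ ≤ _ := by gcongr

/-- comparison to the left of the maximum -/
lemma fin_left {μ δ ε : ℝ} (hμ : 0 ≤ μ) (hδ : 0 < δ) (hε : 0 < ε) : ∃ M : ℝ, ∀ m : ℝ, M ≤ m →
    ∀ t : ℝ, 0 ≤ t → t ≤ m - δ → wk μ t * Real.exp (2 * Real.pi * Real.exp (2 * m) * t) ≤
      ε * (wk μ (t + δ / 2) * Real.exp (2 * Real.pi * Real.exp (2 * m) * (t + δ / 2))) := by
  obtain ⟨A, hA, hup⟩ := Ph_upper
  have hpi := Real.pi_pos
  obtain ⟨M, hM⟩ := fin_exp_beats (mul_pos hpi (fin_c2 hδ)) (Real.log (A / ε)) (5 + μ * δ)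
  refine ⟨max M 0, fun m hm t ht0 ht => ?_⟩
  have hm0 : 0 ≤ m := (le_max_right _ _).trans hm
  have hm1 : M ≤ m := (le_max_left _ _).trans hm
  have ht1 : 0 ≤ t + δ / 2 := by linarith
  have h1 := hM m hm1
  have h2 : wk μ t ≤ A * Real.exp (5 * t - Real.pi * Real.exp (2 * t)) * Real.exp (-μ * t ^ 2) := by
    unfold wk
    refine mul_le_mul_of_nonneg_right ?_ (Real.exp_pos _).le
    have := hup t
    rw [abs_of_nonneg ht0] at this
    exact (le_abs_self _).trans this
  have h3 := wk_lower (μ := μ) ht1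
  have hAe : A = ε * Real.exp (Real.log (A / ε)) := by
    rw [Real.exp_log (by positivity)]; field_simp
  calc wk μ t * Real.exp (2 * Real.pi * Real.exp (2 * m) * t)
      ≤ (A * Real.exp (5 * t - Real.pi * Real.exp (2 * t)) * Real.exp (-μ * t ^ 2)) *
        Real.exp (2 * Real.pi * Real.exp (2 * m) * t) := by gcongr
    _ = ε * Real.exp (Real.log (A / ε) + (5 * t - Real.pi * Real.exp (2 * t)) + (-μ * t ^ 2) +
        2 * Real.pi * Real.exp (2 * m) * t) := by
        rw [Real.exp_add, Real.exp_add, Real.exp_add]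
        conv_lhs => rw [hAe]
        ring
    _ ≤ ε * Real.exp ((-Real.pi * Real.exp (2 * (t + δ / 2)) - μ * (t + δ / 2) ^ 2) +
        2 * Real.pi * Real.exp (2 * m) * (t + δ / 2)) := by
        refine mul_le_mul_of_nonneg_left (Real.exp_le_exp.2 ?_) hε.le
        have e1 : Real.exp (2 * (t + δ / 2)) = Real.exp (2 * t) * Real.exp δ := by
          rw [← Real.exp_add]; ring_nf
        have e2 : Real.exp (2 * t) ≤ Real.exp (2 * m) * Real.exp (-2 * δ) := by
          rw [← Real.exp_add]
          exact Real.exp_le_exp.2 (by linarith)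
        have e5 : 0 < Real.exp δ - 1 := by linarith [Real.add_one_lt_exp hδ.ne']
        have e3 : Real.pi * (Real.exp δ - 1) * Real.exp (2 * t) ≤
            Real.pi * (Real.exp δ - 1) * (Real.exp (2 * m) * Real.exp (-2 * δ)) :=
          mul_le_mul_of_nonneg_left e2 (by positivity)
        have e6 : Real.exp δ * Real.exp (-2 * δ) = Real.exp (-δ) := by
          rw [← Real.exp_add]; ring_nf
        have e7 : Real.pi * (Real.exp δ - 1) * (Real.exp (2 * m) * Real.exp (-2 * δ)) =
            Real.pi * Real.exp (2 * m) * (Real.exp (-δ) - Real.exp (-2 * δ)) := by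
          rw [← e6]; ring
        have e4 : μ * ((t + δ / 2) ^ 2 - t ^ 2) ≤ μ * (m * δ) := by
          apply mul_le_mul_of_nonneg_left _ hμ
          nlinarith
        rw [e7] at e3
        rw [e1]
        nlinarith
    _ = ε * (Real.exp (-Real.pi * Real.exp (2 * (t + δ / 2)) - μ * (t + δ / 2) ^ 2) *
        Real.exp (2 * Real.pi * Real.exp (2 * m) * (t + δ / 2))) := by rw [Real.exp_add]
    _ ≤ _ := by gcongr

lemma fin_integrable {μ : ℝ} (hμ : 0 ≤ μ) (y : ℝ) :
    Integrable (fun t : ℝ => wk μ t * Real.exp (y * t)) := by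
  obtain ⟨A, hA, hup⟩ := wk_upper hμ
  refine Integrable.mono' (FT_aux_int A |y|)
    ((continuous_wk μ).mul (by fun_prop)).aestronglyMeasurable (Eventually.of_forall fun t => ?_)
  rw [norm_mul, Real.norm_eq_abs, Real.norm_of_nonneg (Real.exp_pos _).le]
  refine le_trans ?_ (FT_aux_bd hup |y| t)
  refine mul_le_mul_of_nonneg_left (Real.exp_le_exp.2 ?_) (abs_nonneg _)
  rw [← abs_mul]
  exact le_abs_self _

/-- the integral of the tilted kernel is large -/
lemma fin_large {μ : ℝ} (hμ : 0 ≤ μ) (B : ℝ) : ∃ Y : ℝ, ∀ y : ℝ, Y ≤ y →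
    B < ∫ t : ℝ, wk μ t * Real.exp (y * t) := by
  have hpos : 0 < ∫ t in Set.Ioc (1 : ℝ) 2, wk μ t := by
    rw [← intervalIntegral.integral_of_le (by norm_num)]
    exact intervalIntegral.intervalIntegral_pos_of_pos_on
      ((continuous_wk μ).intervalIntegrable _ _) (fun t _ => wk_pos μ t) (by norm_num)
  set c := ∫ t in Set.Ioc (1 : ℝ) 2, wk μ t with hc
  refine ⟨max 0 (B / c), fun y hy => ?_⟩
  have hy0 : 0 ≤ y := (le_max_left _ _).trans hy
  have hy1 : B / c ≤ y := (le_max_right _ _).trans hy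
  rw [div_le_iff₀ hpos] at hy1
  have hint := fin_integrable hμ y
  have h1 : ∫ t in Set.Ioc (1 : ℝ) 2, wk μ t * Real.exp y ≤
      ∫ t in Set.Ioc (1 : ℝ) 2, wk μ t * Real.exp (y * t) := by
    refine setIntegral_mono_on ?_ hint.integrableOn measurableSet_Ioc fun t ht => ?_
    · exact (((continuous_wk μ).mul continuous_const).integrableOn_Icc (a := 1) (b := 2)).mono_set
        Set.Ioc_subset_Icc_self
    · refine mul_le_mul_of_nonneg_left (Real.exp_le_exp.2 ?_) (wk_pos μ t).le
      nlinarith [ht.1]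
  have h2 : ∫ t in Set.Ioc (1 : ℝ) 2, wk μ t * Real.exp (y * t) ≤
      ∫ t : ℝ, wk μ t * Real.exp (y * t) :=
    setIntegral_le_integral hint (Eventually.of_forall fun t =>
      mul_nonneg (wk_pos μ t).le (Real.exp_pos _).le)
  rw [integral_mul_const, ← hc] at h1
  have h3 : y < Real.exp y := by linarith [Real.add_one_le_exp y]
  have h4 : y * c < c * Real.exp y := by nlinarith
  linarith

/-- no zeros high up in the strip -/
lemma fin_ne_zero {μ : ℝ} (hμ : 0 ≤ μ) (T : ℝ) : ∃ Y : ℝ, 0 ≤ Y ∧ ∀ x y : ℝ, |x| ≤ T → Y ≤ y →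
    XiM μ (x - y * I) ≠ 0 := by
  have hpi := Real.pi_pos
  set δ : ℝ := 1 / (|T| + 1) with hδ
  have hδ0 : 0 < δ := by positivity
  obtain ⟨M₁, h1⟩ := fin_right (ε := 1 / 12) hμ hδ0 (by norm_num)
  obtain ⟨M₂, h2⟩ := fin_left (ε := 1 / 12) hμ hδ0 (by norm_num)
  set B : ℝ := ∫ t : ℝ, wk μ t with hB
  have hBint : Integrable (wk μ) := by
    have := fin_integrable hμ 0
    simpa using this
  obtain ⟨Y₃, h3⟩ := fin_large hμ (6 * B)
  refine ⟨max (max Y₃ 1) (2 * Real.pi * Real.exp (2 * max M₁ M₂)), ?_, ?_⟩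
  · exact le_trans zero_le_one ((le_max_right _ _).trans (le_max_left _ _))
  intro x y hx hy
  have hy3 : Y₃ ≤ y := (le_max_left _ _).trans ((le_max_left _ _).trans hy)
  have hy1 : 1 ≤ y := (le_max_right _ _).trans ((le_max_left _ _).trans hy)
  have hyM : 2 * Real.pi * Real.exp (2 * max M₁ M₂) ≤ y := (le_max_right _ _).trans hy
  obtain ⟨m, hm⟩ : ∃ m : ℝ, m = Real.log (y / (2 * Real.pi)) / 2 := ⟨_, rfl⟩
  have hym : y = 2 * Real.pi * Real.exp (2 * m) := by
    rw [hm, mul_div_cancel₀ _ (by norm_num : (2:ℝ) ≠ 0), Real.exp_log (by positivity)]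
    field_simp
  have hmM : max M₁ M₂ ≤ m := by
    rw [hym] at hyM
    have := le_of_mul_le_mul_left hyM (by positivity)
    have := Real.exp_le_exp.1 this
    linarith
  have h1' := h1 m ((le_max_left _ _).trans hmM)
  have h2' := h2 m ((le_max_right _ _).trans hmM)
  rw [← hym] at h1' h2'
  set W : ℝ → ℝ := fun t => wk μ t * Real.exp (y * t) with hW
  have hWpos : ∀ t, 0 < W t := fun t => mul_pos (wk_pos μ t) (Real.exp_pos _)
  have hWint : Integrable W := fin_integrable hμ y
  have hxδ : |x| * δ ≤ 1 := by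
    rw [hδ, mul_one_div, div_le_one (by positivity)]
    exact hx.trans ((le_abs_self T).trans (by linarith))
  -- the pointwise inequality
  have hpt : ∀ t : ℝ, 1 / 2 * W t - 3 / 2 * (1 / 12 * (W (t - δ / 2) + W (t + δ / 2)) + wk μ t) ≤
      W t * Real.cos (x * (t - m)) := by
    intro t
    have a1 := hWpos t
    have a2 := hWpos (t - δ / 2)
    have a3 := hWpos (t + δ / 2)
    have a4 := wk_pos μ t
    rcases le_or_gt |t - m| δ with h | h
    · have b1 : |x * (t - m)| ≤ 1 := by
        rw [abs_mul]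
        calc |x| * |t - m| ≤ |x| * δ := by gcongr
          _ ≤ 1 := hxδ
      have b2 : 1 / 2 ≤ Real.cos (x * (t - m)) := by
        have c1 := Real.one_sub_sq_div_two_le_cos (x := x * (t - m))
        have c2 : (x * (t - m)) ^ 2 ≤ 1 := by
          rw [← sq_abs]
          nlinarith [abs_nonneg (x * (t - m))]
        linarith
      nlinarith
    · have b3 : W t ≤ 1 / 12 * (W (t - δ / 2) + W (t + δ / 2)) + wk μ t := by
        rcases lt_abs.1 h with h | h
        · have := h1' t (by linarith)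
          simp only [hW] at *
          linarith
        · rcases le_total 0 t with h0 | h0
          · have := h2' t h0 (by linarith)
            simp only [hW] at *
            linarith
          · have : W t ≤ wk μ t := by
              simp only [hW]
              have : Real.exp (y * t) ≤ 1 := by
                rw [Real.exp_le_one_iff]
                nlinarith
              nlinarith
            linarith
      have b4 := Real.neg_one_le_cos (x * (t - m))
      nlinarith
  have hI1 : ∫ t : ℝ, W (t - δ / 2) = ∫ t : ℝ, W t := integral_sub_right_eq_self W (δ / 2)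
  have hI2 : ∫ t : ℝ, W (t + δ / 2) = ∫ t : ℝ, W t := integral_add_right_eq_self W (δ / 2)
  have hIs1 : Integrable (fun t : ℝ => W (t - δ / 2)) := hWint.comp_sub_right (δ / 2)
  have hIs2 : Integrable (fun t : ℝ => W (t + δ / 2)) := hWint.comp_add_right (δ / 2)
  have hIc : Integrable (fun t : ℝ => W t * Real.cos (x * (t - m))) := by
    refine hWint.mul_bdd (c := 1) (by fun_prop) ?_
    exact Eventually.of_forall fun t => by
      rw [Real.norm_eq_abs]; exact Real.abs_cos_le_one _
  have hmain : 1 / 2 * (∫ t : ℝ, W t) - 3 / 2 * (1 / 12 * ((∫ t : ℝ, W t) + ∫ t : ℝ, W t) + B) ≤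
      ∫ t : ℝ, W t * Real.cos (x * (t - m)) := by
    have i1 : Integrable (fun t : ℝ => W (t - δ / 2) + W (t + δ / 2)) := hIs1.add hIs2
    have i2 : Integrable (fun t : ℝ => 1 / 12 * (W (t - δ / 2) + W (t + δ / 2))) := i1.const_mul _
    have i3 : Integrable (fun t : ℝ => 1 / 12 * (W (t - δ / 2) + W (t + δ / 2)) + wk μ t) :=
      i2.add hBint
    have i4 : Integrable (fun t : ℝ => 3 / 2 * (1 / 12 * (W (t - δ / 2) + W (t + δ / 2)) +
      wk μ t)) := i3.const_mul _
    have i5 : Integrable (fun t : ℝ => 1 / 2 * W t) := hWint.const_mul _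
    have i6 : Integrable (fun t : ℝ => 1 / 2 * W t - 3 / 2 * (1 / 12 * (W (t - δ / 2) +
      W (t + δ / 2)) + wk μ t)) := i5.sub i4
    have e := integral_mono i6 hIc hpt
    rw [integral_sub i5 i4, integral_const_mul, integral_const_mul, integral_add i2 hBint,
      integral_const_mul, integral_add hIs1 hIs2, hI1, hI2] at e
    exact e
  have hpos : 0 < ∫ t : ℝ, W t * Real.cos (x * (t - m)) := by
    have := h3 y hy3
    simp only [← hW] at this
    linarith
  -- the Fourier transform
  intro hz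
  have hre : (∫ t : ℝ, W t * Real.cos (x * (t - m))) =
      (cexp (-(I * x * m)) * XiM μ (x - y * I)).re := by
    unfold XiM FT
    rw [← integral_const_mul]
    have hint : Integrable (fun t : ℝ => cexp (-(I * x * m)) *
        (((wk μ t : ℝ) : ℂ) * cexp (I * (x - y * I) * t))) := by
      obtain ⟨A, -, hup⟩ := wk_upper hμ
      exact (integrable_FT (continuous_wk μ) hup _).const_mul _
    have : (∫ t : ℝ, cexp (-(I * x * m)) *
        (((wk μ t : ℝ) : ℂ) * cexp (I * (x - y * I) * t))).re =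
        ∫ t : ℝ, (cexp (-(I * x * m)) *
        (((wk μ t : ℝ) : ℂ) * cexp (I * (x - y * I) * t))).re := by
      have := integral_re (𝕜 := ℂ) hint
      simpa using this.symm
    rw [this]
    refine integral_congr_ae (Eventually.of_forall fun t => ?_)
    simp only [hW]
    have e1 : cexp (-(I * x * m)) * (((wk μ t : ℝ) : ℂ) * cexp (I * (x - y * I) * t)) =
        ((wk μ t * Real.exp (y * t) : ℝ) : ℂ) * cexp ((x * (t - m) : ℝ) * I) := by
      push_cast
      have e2 : cexp (I * (x - y * I) * t) = cexp (y * t) * cexp (I * x * t) := by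
        rw [← Complex.exp_add]
        congr 1
        linear_combination (-(y : ℂ) * t) * I_mul_I
      have e3 : cexp (x * (t - m) * I) = cexp (I * x * t) * cexp (-(I * x * m)) := by
        rw [← Complex.exp_add]
        congr 1
        ring
      rw [e2, e3]
      ring
    rw [e1, Complex.re_ofReal_mul, Complex.exp_ofReal_mul_I_re]
  rw [hz, mul_zero] at hre
  simp only [Complex.zero_re] at hre
  linarith

/-- **The number of zeros in a vertical strip is finite.** -/
theorem zc_strip_lt_top {μ : ℝ} (hμ : 0 ≤ μ) (T : ℝ) : zc (XiM μ) {z | |z.re| ≤ T} < ⊤ := by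
  obtain ⟨Y, hY0, hY⟩ := fin_ne_zero hμ T
  have h1 : zc (XiM μ) {z | |z.re| ≤ T} ≤
      zc (XiM μ) (closedBall 0 (T + Y)) := by
    unfold zc
    have hsub : ∀ z ∈ {z : ℂ | |z.re| ≤ T}, analyticOrderAt (XiM μ) z ≠ 0 → z ∈ closedBall (0:ℂ) (T + Y) := by
      intro z hz h0
      rw [mem_closedBall, dist_zero_right]
      by_contra hcon
      have h2 : ‖z‖ ≤ |z.re| + |z.im| := Complex.norm_le_abs_re_add_abs_im z
      have h3 : Y ≤ |z.im| := by
        have : |z.re| ≤ T := hz
        linarith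
      apply h0
      have hd := (differentiable_XiM hμ).analyticAt z
      rw [hd.analyticOrderAt_eq_zero]
      rcases le_total 0 z.im with h4 | h4
      · rw [abs_of_nonneg h4] at h3
        have := hY (-z.re) z.im (by rw [abs_neg]; exact hz) h3
        rw [← XiM_neg]
        have e : -z = ((-z.re : ℝ) : ℂ) - z.im * I := by
          apply Complex.ext <;> simp
        rw [e]
        exact this
      · rw [abs_of_nonpos h4] at h3
        have := hY z.re (-z.im) hz h3
        have e : z = (z.re : ℂ) - ((-z.im : ℝ) : ℂ) * I := by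
          apply Complex.ext <;> simp
        rw [e]
        exact this
    rw [tsum_subtype {z : ℂ | |z.re| ≤ T} (fun z : ℂ => ((analyticOrderAt (XiM μ) z : ℕ∞) : ENNReal)),
      tsum_subtype (closedBall (0:ℂ) (T + Y)) (fun z : ℂ => ((analyticOrderAt (XiM μ) z : ℕ∞) : ENNReal))]
    refine ENNReal.tsum_le_tsum fun z => ?_
    by_cases hz : z ∈ {z : ℂ | |z.re| ≤ T}
    · rw [Set.indicator_of_mem hz]
      by_cases h0 : analyticOrderAt (XiM μ) z = 0
      · rw [h0]; simp
      · rw [Set.indicator_of_mem (hsub z hz h0)]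
    · rw [Set.indicator_of_notMem hz]
      exact zero_le
  exact h1.trans_lt (XiM_ball_lt_top hμ _)

end Pool.Agent.Y971.KK
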