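import Pool.Agent.Helper242.KK.Many

set_option autoImplicit false

/-!
# Many zeros in every large disc
-/

namespace Pool.Agent.Y971.KK

open Complex MeasureTheory Filter Topology Metric Pool.Agent.Helper242.KK

/-- the main inequality of `many_zeros`, for a single radius -/
theorem main_ineq {f : ℂ → ℂ} {C : ℝ} (hf : Differentiable ℂ f) (he : ∀ z, f (-z) = f z)
    (h0 : f 0 ≠ 0)
    (hup : ∀ z : ℂ, ‖f z‖ ≤ Real.exp (|z.im| / 2 * Real.log (2 + |z.im|) + C * (1 + |z.im|)))
    (hlow : ∀ y : ℝ, 1 ≤ y → Real.exp (y / 2 * Real.log y - C * y) ≤ ‖f (y * I)‖)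
    {R : ℝ} (hR16 : 16 ≤ R) :
    R * Real.log R / 32 - 3 * R / 32 - |C| * R / 16 ≤
        many_zeros_T f R + |Real.log ‖f 0‖| +
          2 / 255 * (R * Real.log R + 2 * R + 3 * |C| * R + |Real.log ‖f 0‖|) := by
  set A : ℝ := |Real.log ‖f 0‖| with hA
  have hA1 : Real.log ‖f 0‖ ≤ A := le_abs_self _
  have hA2 : -A ≤ Real.log ‖f 0‖ := neg_abs_le _
  have hlogR : 0 ≤ Real.log R := Real.log_nonneg (by linarith)
  set M : ℝ := R * Real.log (2 + 2 * R) + |C| * (1 + 2 * R) with hM
  have hb : ∀ w ∈ closedBall (0 : ℂ) (2 * R), ‖f w‖ ≤ Real.exp M := by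
    intro w hw
    refine (hup w).trans (Real.exp_le_exp.2 ?_)
    rw [mem_closedBall_zero_iff] at hw
    have him : |w.im| ≤ 2 * R := (Complex.abs_im_le_norm w).trans hw
    have h1 : |w.im| / 2 * Real.log (2 + |w.im|) ≤ R * Real.log (2 + 2 * R) := by
      apply mul_le_mul
      · linarith
      · exact Real.log_le_log (by positivity) (by linarith)
      · exact Real.log_nonneg (by have := abs_nonneg w.im; linarith)
      · linarith
    have h2 : C * (1 + |w.im|) ≤ |C| * (1 + 2 * R) := by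
      apply mul_le_mul (le_abs_self C) (by linarith) (by positivity) (abs_nonneg C)
    rw [hM]; linarith
  have hz : ‖((R / 16 : ℝ) : ℂ) * I‖ = R / 16 := by
    rw [norm_mul, Complex.norm_I, mul_one, Complex.norm_real, Real.norm_of_nonneg (by linarith)]
  have hU := log_norm_le_of_zeros_even hf he (R := R) (M := M) (by linarith) h0 hb
    (z := ((R / 16 : ℝ) : ℂ) * I) (by rw [hz]; linarith)
  rw [hz] at hU
  have hL := hlow (R / 16) (by linarith)
  have hLU := Real.exp_le_exp.1 (hL.trans hU)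
  -- the sum over the zeros
  have hS : (∑ᶠ u, (MeromorphicOn.divisor f (closedBall 0 R) u : ℝ) *
      Real.log (1 + (R / 16) ^ 2 / ‖u‖ ^ 2)) ≤ many_zeros_T f R := by
    classical
    set s := (many_zeros_fin f R).toFinset with hs
    have hs1 : Function.support (many_zeros_D f R) ⊆ s := by rw [hs]; simp
    have e1 := many_zeros_sum f R (fun u => Real.log (1 + (R / 16) ^ 2 / ‖u‖ ^ 2)) s hs1
    have e2 := many_zeros_sum f R (fun u => Real.log (1 + R ^ 2 / ‖u‖ ^ 2)) s hs1
    unfold many_zeros_T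
    rw [e2]
    refine le_trans (le_of_eq e1) ?_
    apply Finset.sum_le_sum
    intro u _
    apply mul_le_mul_of_nonneg_left _ (many_zeros_D_nonneg hf R u)
    apply Real.log_le_log (by positivity)
    have : (R / 16) ^ 2 / ‖u‖ ^ 2 ≤ R ^ 2 / ‖u‖ ^ 2 := by
      apply div_le_div_of_nonneg_right _ (by positivity)
      nlinarith
    linarith
  have hq : (R / 16) ^ 2 / (R ^ 2 - (R / 16) ^ 2) = 1 / 255 := by
    have : R ≠ 0 := by linarith
    have h2 : R ^ 2 - (R / 16) ^ 2 = 255 * (R / 16) ^ 2 := by ring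
    rw [h2]
    field_simp
  have hlast : 2 * (M - Real.log ‖f 0‖) * (R / 16) ^ 2 / (R ^ 2 - (R / 16) ^ 2) =
      2 / 255 * (M - Real.log ‖f 0‖) := by
    rw [mul_div_assoc, hq]; ring
  rw [hlast] at hLU
  have hlogdiv : Real.log (R / 16) = Real.log R - Real.log 16 :=
    Real.log_div (by linarith) (by norm_num)
  have hlog16 : Real.log 16 ≤ 3 := by
    have e : Real.log 16 = Real.log 4 + Real.log 4 := by
      rw [← Real.log_mul (by norm_num) (by norm_num)]; norm_num
    have := many_zeros_log4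
    linarith
  have hlogM : Real.log (2 + 2 * R) ≤ Real.log R + 2 := by
    have h1 : Real.log (2 + 2 * R) ≤ Real.log (4 * R) :=
      Real.log_le_log (by linarith) (by linarith)
    rw [Real.log_mul (by norm_num) (by linarith)] at h1
    have := many_zeros_log4
    linarith
  rw [hlogdiv] at hLU
  have hCa : C ≤ |C| := le_abs_self C
  have hC0 : 0 ≤ |C| := abs_nonneg C
  have hA0 : 0 ≤ A := abs_nonneg _
  have hRpos : 0 < R := by linarith
  have hMle : M ≤ R * Real.log R + 2 * R + 3 * |C| * R := by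
    rw [hM]
    have h1 : R * Real.log (2 + 2 * R) ≤ R * (Real.log R + 2) :=
      mul_le_mul_of_nonneg_left hlogM hRpos.le
    have h2 : |C| * (1 + 2 * R) ≤ |C| * (3 * R) :=
      mul_le_mul_of_nonneg_left (by linarith) hC0
    nlinarith
  have hleft : R * Real.log R / 32 - 3 * R / 32 - |C| * R / 16 ≤
      R / 16 / 2 * (Real.log R - Real.log 16) - C * (R / 16) := by
    have h1 : R * Real.log 16 ≤ R * 3 := mul_le_mul_of_nonneg_left hlog16 hRpos.le
    have h2 : C * R ≤ |C| * R := mul_le_mul_of_nonneg_right hCa hRpos.le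
    nlinarith
  clear_value A M
  linarith

/-- the counting function is monotone -/
theorem many_N_mono {f : ℂ → ℂ} (hf : Differentiable ℂ f) {R R' : ℝ} (h : R' ≤ R) :
    many_zeros_N f R' ≤ many_zeros_N f R := by
  classical
  set s := (many_zeros_fin f R).toFinset with hs
  have hs1 : Function.support (many_zeros_D f R) ⊆ s := by rw [hs]; simp
  have hs2 : Function.support (many_zeros_D f R') ⊆ s := by
    intro u hu
    apply hs1
    rw [Function.mem_support] at hu ⊢
    by_cases h2 : ‖u‖ ≤ R'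
    · rwa [← many_zeros_D_eq hf h h2]
    · exact absurd (many_zeros_D_out (not_le.1 h2)) hu
  unfold many_zeros_N
  rw [finsum_eq_sum_of_support_subset _ hs1, finsum_eq_sum_of_support_subset _ hs2]
  refine Finset.sum_le_sum fun u _ => ?_
  by_cases h2 : ‖u‖ ≤ R'
  · rw [many_zeros_D_eq hf h h2]
  · rw [many_zeros_D_out (not_le.1 h2)]
    exact many_zeros_D_nonneg hf R u

theorem many_T_mono {f : ℂ → ℂ} (hf : Differentiable ℂ f) {R R' : ℝ} (h0 : 0 ≤ R') (h : R' ≤ R) :
    many_zeros_T f R' ≤ many_zeros_T f R := by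
  classical
  set s := (many_zeros_fin f R).toFinset with hs
  have hs1 : Function.support (many_zeros_D f R) ⊆ s := by rw [hs]; simp
  have hs2 : Function.support (many_zeros_D f R') ⊆ s := by
    intro u hu
    apply hs1
    rw [Function.mem_support] at hu ⊢
    by_cases h2 : ‖u‖ ≤ R'
    · rwa [← many_zeros_D_eq hf h h2]
    · exact absurd (many_zeros_D_out (not_le.1 h2)) hu
  unfold many_zeros_T
  rw [many_zeros_sum f R _ s hs1, many_zeros_sum f R' _ s hs2]
  refine Finset.sum_le_sum fun u _ => ?_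
  by_cases h2 : ‖u‖ ≤ R'
  · rw [many_zeros_D_eq hf h h2]
    apply mul_le_mul_of_nonneg_left _ (many_zeros_D_nonneg hf R u)
    apply Real.log_le_log (by positivity)
    have : R' ^ 2 / ‖u‖ ^ 2 ≤ R ^ 2 / ‖u‖ ^ 2 :=
      div_le_div_of_nonneg_right (pow_le_pow_left₀ h0 h 2) (by positivity)
    linarith
  · rw [many_zeros_D_out (not_le.1 h2), zero_mul]
    apply mul_nonneg (many_zeros_D_nonneg hf R u)
    apply Real.log_nonneg
    have : 0 ≤ R ^ 2 / ‖u‖ ^ 2 := by positivity
    linarith

/-- the upper bound for the number of the zeros -/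
theorem many_N_upper {f : ℂ → ℂ} {C : ℝ} (hf : Differentiable ℂ f) (h0 : f 0 ≠ 0)
    (hup : ∀ z : ℂ, ‖f z‖ ≤ Real.exp (|z.im| / 2 * Real.log (2 + |z.im|) + C * (1 + |z.im|))) :
    ∃ r : ℝ, 16 ≤ r ∧ ∀ R : ℝ, r ≤ R → many_zeros_N f R ≤ 3 * R * Real.log R := by
  set A : ℝ := |Real.log ‖f 0‖| with hA
  have hA2 : -A ≤ Real.log ‖f 0‖ := neg_abs_le _
  have hA0 : 0 ≤ A := abs_nonneg _
  have hC0 : 0 ≤ |C| := abs_nonneg C
  refine ⟨max 16 (Real.exp (2 + 3 * |C| + A)), le_max_left _ _, fun R hR => ?_⟩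
  have hR16 : 16 ≤ R := (le_max_left _ _).trans hR
  have hR0 : 0 < R := by linarith
  have hlog := (Real.le_log_iff_exp_le hR0).2 ((le_max_right _ _).trans hR)
  have hlogM : Real.log (2 + 2 * R) ≤ Real.log R + 2 := by
    have h1 : Real.log (2 + 2 * R) ≤ Real.log (4 * R) :=
      Real.log_le_log (by linarith) (by linarith)
    rw [Real.log_mul (by norm_num) (by linarith)] at h1
    have := many_zeros_log4
    linarith
  set M : ℝ := R * Real.log (2 + 2 * R) + |C| * (1 + 2 * R) with hM
  have hlog2R : 0 ≤ Real.log (2 + 2 * R) := Real.log_nonneg (by linarith)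
  have hM0 : 0 ≤ M := by rw [hM]; positivity
  have hb : ∀ w ∈ sphere (0 : ℂ) (2 * R), ‖f w‖ ≤ Real.exp M := by
    intro w hw
    refine (hup w).trans (Real.exp_le_exp.2 ?_)
    rw [mem_sphere_zero_iff_norm] at hw
    have him : |w.im| ≤ 2 * R := (Complex.abs_im_le_norm w).trans hw.le
    have h1 : |w.im| / 2 * Real.log (2 + |w.im|) ≤ R * Real.log (2 + 2 * R) := by
      apply mul_le_mul
      · linarith
      · exact Real.log_le_log (by positivity) (by linarith)
      · exact Real.log_nonneg (by have := abs_nonneg w.im; linarith)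
      · linarith
    have h2 : C * (1 + |w.im|) ≤ |C| * (1 + 2 * R) := by
      apply mul_le_mul (le_abs_self C) (by linarith) (by positivity) (abs_nonneg C)
    rw [hM]; linarith
  have key := zc_ball_le hf hR0 (by linarith : R < 2 * R) (Real.one_le_exp hM0) h0 hb
  rw [zc_closedBall hf ⟨0, h0⟩ 0 hR0] at key
  have hnf : 0 < ‖f 0‖ := norm_pos_iff.2 h0
  rw [Real.log_div (Real.exp_pos _).ne' hnf.ne', Real.log_exp,
    show 2 * R / R = 2 by field_simp] at key
  have hMle : M ≤ R * Real.log R + 2 * R + 3 * |C| * R := by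
    rw [hM]
    have h1 : R * Real.log (2 + 2 * R) ≤ R * (Real.log R + 2) :=
      mul_le_mul_of_nonneg_left hlogM hR0.le
    have h2 : |C| * (1 + 2 * R) ≤ |C| * (3 * R) :=
      mul_le_mul_of_nonneg_left (by linarith) hC0
    nlinarith
  have h2R : M - Real.log ‖f 0‖ ≤ 2 * (R * Real.log R) := by
    have h1 : (2 + 3 * |C| + A) * R ≤ Real.log R * R := mul_le_mul_of_nonneg_right hlog hR0.le
    have h2 : A ≤ A * R := le_mul_of_one_le_right hA0 (by linarith)
    linarith
  have hl2 : (0.69 : ℝ) < Real.log 2 := by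
    have := Real.log_two_gt_d9
    linarith
  have hlR : 0 ≤ Real.log R := Real.log_nonneg (by linarith)
  have h3 : (M - Real.log ‖f 0‖) / Real.log 2 ≤ 3 * R * Real.log R := by
    rw [div_le_iff₀ (by linarith)]
    have h4 : 0 ≤ R * Real.log R := by positivity
    nlinarith
  have h5 := key.trans (ENNReal.ofReal_le_ofReal h3)
  rw [ENNReal.ofReal_le_ofReal_iff (by positivity)] at h5
  exact h5

/-- **Many zeros in every large disc.** -/
theorem many_zeros_all {f : ℂ → ℂ} {C : ℝ} (hf : Differentiable ℂ f) (he : ∀ z, f (-z) = f z)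
    (h0 : f 0 ≠ 0)
    (hup : ∀ z : ℂ, ‖f z‖ ≤ Real.exp (|z.im| / 2 * Real.log (2 + |z.im|) + C * (1 + |z.im|)))
    (hlow : ∀ y : ℝ, 1 ≤ y → Real.exp (y / 2 * Real.log y - C * y) ≤ ‖f (y * I)‖) :
    ∃ R₁ : ℝ, ∀ R : ℝ, R₁ ≤ R →
      ENNReal.ofReal (1 / 3600 * R * Real.log R) ≤ zc f (closedBall 0 R) := by
  obtain ⟨r, hr16, hN⟩ := many_N_upper hf h0 hup
  set T₀ := many_zeros_T f (2 * r) with hT₀
  -- the upper bound for `T`
  have hT : ∀ n : ℕ, ∀ R : ℝ, r ≤ R → R ≤ 2 ^ n * (2 * r) →
      many_zeros_T f R ≤ T₀ + 18 * R * Real.log R := by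
    intro n
    induction n with
    | zero =>
      intro R hR1 hR2
      rw [pow_zero, one_mul] at hR2
      have h1 := many_T_mono hf (by linarith : 0 ≤ R) hR2
      have h2 : 0 ≤ Real.log R := Real.log_nonneg (by linarith)
      have h3 : 0 ≤ 18 * R * Real.log R := mul_nonneg (by linarith) h2
      linarith
    | succ n ih =>
      intro R hR1 hR2
      rcases le_or_gt R (2 * r) with h | h
      · have h1 := many_T_mono hf (by linarith : 0 ≤ R) h
        have h2 : 0 ≤ Real.log R := Real.log_nonneg (by linarith)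
        have h3 : 0 ≤ 18 * R * Real.log R := mul_nonneg (by linarith) h2
        linarith
      · have h1 : r ≤ R / 2 := by linarith
        have h2 : R / 2 ≤ 2 ^ n * (2 * r) := by rw [pow_succ] at hR2; linarith
        have h3 := ih (R / 2) h1 h2
        have h4 := many_zeros_step hf (R := R / 2) (by linarith)
        rw [show 2 * (R / 2) = R by ring] at h4
        have h5 := hN R hR1
        have h6 : Real.log (R / 2) ≤ Real.log R := Real.log_le_log (by linarith) (by linarith)
        have h7 : 18 * (R / 2) * Real.log (R / 2) ≤ 18 * (R / 2) * Real.log R :=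
          mul_le_mul_of_nonneg_left h6 (by linarith)
        linarith
  have hT' : ∀ R : ℝ, r ≤ R → many_zeros_T f R ≤ T₀ + 18 * R * Real.log R := by
    intro R hR
    obtain ⟨n, hn⟩ := pow_unbounded_of_one_lt R (one_lt_two)
    apply hT n R hR
    have : (0:ℝ) < 2 ^ n := by positivity
    nlinarith
  -- going down `m` steps
  have hdown : ∀ m : ℕ, ∀ R : ℝ, 0 < R →
      many_zeros_T f R ≤ many_zeros_T f (R / 2 ^ m) + 3 * m * many_zeros_N f R := by
    intro m
    induction m with
    | zero => intro R _; simp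
    | succ m ih =>
      intro R hR
      have h1 := ih R hR
      have h2 := many_zeros_step hf (R := R / 2 ^ (m + 1)) (by positivity)
      have e : 2 * (R / 2 ^ (m + 1)) = R / 2 ^ m := by
        rw [pow_succ]; field_simp
      rw [e] at h2
      have h3 : many_zeros_N f (R / 2 ^ m) ≤ many_zeros_N f R := by
        apply many_N_mono hf
        exact div_le_self hR.le (one_le_pow₀ (by norm_num))
      push_cast
      linarith
  set A : ℝ := |Real.log ‖f 0‖| with hA
  have hA0 : 0 ≤ A := abs_nonneg _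
  have hC0 : 0 ≤ |C| := abs_nonneg C
  have hT₀a : T₀ ≤ |T₀| := le_abs_self _
  have hT₀0 : 0 ≤ |T₀| := abs_nonneg _
  refine ⟨max (4096 * r) (Real.exp (200 * (|T₀| + 2 * A + |C| + 1))), fun R hR => ?_⟩
  have hR1 : 4096 * r ≤ R := (le_max_left _ _).trans hR
  have hR0 : 0 < R := by linarith
  have hlog := (Real.le_log_iff_exp_le hR0).2 ((le_max_right _ _).trans hR)
  have hlR : 0 ≤ Real.log R := Real.log_nonneg (by linarith)
  have m1 := main_ineq hf he h0 hup hlow (R := R) (by linarith)
  have m2 := hdown 12 R hR0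
  have m3 := hT' (R / 2 ^ 12) (by rw [le_div_iff₀ (by norm_num)]; linarith)
  have m4 : Real.log (R / 2 ^ 12) ≤ Real.log R :=
    Real.log_le_log (by positivity) (div_le_self hR0.le (by norm_num))
  have m5 : 18 * (R / 2 ^ 12) * Real.log (R / 2 ^ 12) ≤ 18 * (R / 2 ^ 12) * Real.log R :=
    mul_le_mul_of_nonneg_left m4 (by positivity)
  rw [← hA] at m1
  set L := R * Real.log R with hL
  have m6 : 18 * (R / 2 ^ 12) * Real.log R = 18 / 4096 * L := by
    rw [hL]; ring
  rw [m6] at m5
  have m7 : 200 * (|T₀| + 2 * A + |C| + 1) * R ≤ L := by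
    rw [hL]
    have := mul_le_mul_of_nonneg_right hlog hR0.le
    linarith
  have m8 : |T₀| ≤ |T₀| * R := le_mul_of_one_le_right hT₀0 (by linarith)
  have m9 : A ≤ A * R := le_mul_of_one_le_right hA0 (by linarith)
  have m10 : 0 ≤ |C| * R := by positivity
  have hfin : 1 / 3600 * L ≤ many_zeros_N f R := by
    push_cast at m2
    linarith
  rw [zc_closedBall hf ⟨0, h0⟩ 0 hR0]
  apply ENNReal.ofReal_le_ofReal
  have : 1 / 3600 * R * Real.log R = 1 / 3600 * L := by rw [hL]; ring
  rw [this]
  exact hfin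

end Pool.Agent.Y971.KK
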