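import Pool.Agent.Y971.KK.RCore

set_option autoImplicit false

/-!
# Almost every window of length `ρ log T` contains a point where the sieved series is not small
-/

namespace Pool.Agent.Y971.KK

open Complex MeasureTheory Filter Topology Pool.Agent.Helper242.KK

theorem exists_kap_small {δ : ℝ} (hδ : 0 < δ) : ∃ P : ℕ, Odd P ∧ kap P ≤ δ := by
  classical
  have h1 := (not_summable_iff_tendsto_nat_atTop_of_nonneg
    (f := Set.indicator {p : ℕ | p.Prime} (fun n : ℕ => (1 : ℝ) / n))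
    (fun n => Set.indicator_nonneg (fun _ _ => by positivity) n)).1 not_summable_one_div_on_primes
  obtain ⟨n, hn⟩ := (h1.eventually_ge_atTop (1 + |Real.log δ|)).exists
  obtain ⟨s, hs⟩ : ∃ s, s = (Finset.range n).filter (fun p => p.Prime ∧ p ≠ 2) := ⟨_, rfl⟩
  have hsp : ∀ p ∈ s, p.Prime := by
    intro p hp
    rw [hs, Finset.mem_filter] at hp
    exact hp.2.1
  have hso : ∀ p ∈ s, Odd p := by
    intro p hp
    rw [hs, Finset.mem_filter] at hp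
    exact hp.2.1.odd_of_ne_two hp.2.2
  refine ⟨∏ p ∈ s, p, ?_, ?_⟩
  · refine Finset.prod_induction _ Odd (fun a b ha hb => ha.mul hb) odd_one hso
  · have hsum : |Real.log δ| ≤ ∑ p ∈ s, 1 / (p : ℝ) := by
      have e1 : ∑ i ∈ Finset.range n, Set.indicator {p : ℕ | p.Prime} (fun n : ℕ => (1 : ℝ) / n) i ≤
          ∑ p ∈ s, 1 / (p : ℝ) + 1 := by
        have e2 : ∑ i ∈ Finset.range n, Set.indicator {p : ℕ | p.Prime}
            (fun n : ℕ => (1 : ℝ) / n) i =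
            ∑ i ∈ (Finset.range n).filter (fun p => p.Prime), (1 : ℝ) / i := by
          rw [Finset.sum_filter]
          refine Finset.sum_congr rfl fun i _ => ?_
          simp only [Set.indicator_apply, Set.mem_ofPred_eq]
        rw [e2]
        have e3 : (Finset.range n).filter (fun p => p.Prime) ⊆ s ∪ {2} := by
          intro p hp
          rw [Finset.mem_filter] at hp
          rw [Finset.mem_union, Finset.mem_singleton, hs, Finset.mem_filter]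
          by_cases h : p = 2
          · right; exact h
          · left; exact ⟨hp.1, hp.2, h⟩
        refine (Finset.sum_le_sum_of_subset_of_nonneg e3 fun _ _ _ => by positivity).trans ?_
        have h7 := Finset.sum_union_inter (s₁ := s) (s₂ := {2}) (f := fun p : ℕ => (1 : ℝ) / p)
        have h8 : 0 ≤ ∑ p ∈ s ∩ {2}, (1 : ℝ) / (p : ℝ) :=
          Finset.sum_nonneg fun _ _ => by positivity
        have h9 : ∑ p ∈ ({2} : Finset ℕ), (1 : ℝ) / (p : ℝ) ≤ 1 := by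
          rw [Finset.sum_singleton]; norm_num
        linarith
      linarith
    have hP1 : 1 ≤ ∏ p ∈ s, p := Finset.one_le_prod' fun p hp => (hsp p hp).one_lt.le
    have h2 := Nat.totient_eq_mul_prod_factors (∏ p ∈ s, p)
    rw [Nat.primeFactors_prod hsp] at h2
    have h3 : (Nat.totient (∏ p ∈ s, p) : ℝ) = ((∏ p ∈ s, p : ℕ) : ℝ) * ∏ p ∈ s, (1 - (p : ℝ)⁻¹) := by
      have h4 := congrArg (fun q : ℚ => (q : ℝ)) h2
      simp only [Rat.cast_natCast, Rat.cast_mul, Rat.cast_prod, Rat.cast_sub, Rat.cast_one,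
        Rat.cast_inv] at h4
      exact h4
    have hP0 : (0 : ℝ) < ((∏ p ∈ s, p : ℕ) : ℝ) := by exact_mod_cast hP1
    unfold kap
    rw [h3, mul_comm, mul_div_assoc, div_self hP0.ne', mul_one]
    have h5 : ∏ p ∈ s, (1 - (p : ℝ)⁻¹) ≤ ∏ p ∈ s, Real.exp (-(1 / (p : ℝ))) := by
      refine Finset.prod_le_prod ?_ ?_
      · intro p hp
        have : (1 : ℝ) ≤ p := by exact_mod_cast (hsp p hp).one_lt.le
        have h6 : (p : ℝ)⁻¹ ≤ 1 := inv_le_one_of_one_le₀ this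
        linarith
      · intro p _
        have := Real.add_one_le_exp (-(1 / (p : ℝ)))
        rw [one_div] at this ⊢
        linarith
    refine h5.trans ?_
    rw [← Real.exp_sum, Finset.sum_neg_distrib]
    have h6 : -∑ p ∈ s, 1 / (p : ℝ) ≤ Real.log δ := by
      have := neg_abs_le (Real.log δ)
      linarith
    calc Real.exp (-∑ p ∈ s, 1 / (p : ℝ)) ≤ Real.exp (Real.log δ) := Real.exp_le_exp.2 h6
      _ = δ := Real.exp_log hδ

/-- the bounds in terms of `w = (log T)^(1/4)` -/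
theorem stat_w {ρ κ K C₁ C₃ Pr w : ℝ} {lB lA lN : ℝ} (hρ : 0 < ρ) (hκ : 0 < κ)
    (hw : 1 ≤ w) (hPr : κ ≤ Pr) (hC₁ : 0 ≤ C₁) (hC₃ : 0 ≤ C₃)
    (hlB0 : 0 ≤ lB) (hlB : 1 + lB ≤ C₁ * w) (hlA0 : 0 ≤ lA) (hlA : lA ≤ w ^ 4)
    (hlN : lN ≤ w ^ 4)
    (hNA : lN - lA ≤ C₃ * w ^ 2) (hNA0 : 0 ≤ lN - lA) (h5 : 5 * Pr ≤ κ * w ^ 4) :
    32 * ((8 / (ρ * w ^ 4) + 3 / (ρ * w ^ 4) ^ 2 * (1 + lB)) * (1 + lB)) +
      32 * ((16 * κ / (ρ * w ^ 4) + 3 / (ρ * w ^ 4) ^ 2 * (κ * (1 + lA) + 4 * Pr)) *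
        (κ * (1 + lA) + 4 * Pr)) +
      2 * K ^ 2 * ((8 / (ρ * w ^ 4) + 3 / (ρ * w ^ 4) ^ 2 * (1 + lN)) * (lN - lA)) ≤
    (32 * (8 * C₁ / ρ + 3 * C₁ ^ 2 / ρ ^ 2) + 2 * K ^ 2 * (8 / ρ + 6 / ρ ^ 2) * C₃) / w +
      32 * κ ^ 2 * (32 / ρ + 12 / ρ ^ 2) := by
  have hw0 : 0 < w := by linarith
  have hw4 : 1 ≤ w ^ 4 := one_le_pow₀ hw
  have p1 : (8 / (ρ * w ^ 4) + 3 / (ρ * w ^ 4) ^ 2 * (1 + lB)) * (1 + lB) ≤
      (8 * C₁ / ρ + 3 * C₁ ^ 2 / ρ ^ 2) / w := by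
    have e1 : (8 / (ρ * w ^ 4) + 3 / (ρ * w ^ 4) ^ 2 * (1 + lB)) * (1 + lB) ≤
        (8 / (ρ * w ^ 4) + 3 / (ρ * w ^ 4) ^ 2 * (C₁ * w)) * (C₁ * w) := by
      apply mul_le_mul _ hlB (by linarith) (by positivity)
      have := mul_le_mul_of_nonneg_left hlB (show 0 ≤ 3 / (ρ * w ^ 4) ^ 2 by positivity)
      linarith
    refine e1.trans ?_
    have e2 : (8 / (ρ * w ^ 4) + 3 / (ρ * w ^ 4) ^ 2 * (C₁ * w)) * (C₁ * w) =
        (8 * C₁ / ρ) / w * (1 / w ^ 2) + (3 * C₁ ^ 2 / ρ ^ 2) / w * (1 / w ^ 5) := by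
      field_simp
    rw [e2]
    have e3 : 1 / w ^ 2 ≤ 1 := by
      rw [div_le_one (by positivity)]; exact one_le_pow₀ hw
    have e4 : 1 / w ^ 5 ≤ 1 := by
      rw [div_le_one (by positivity)]; exact one_le_pow₀ hw
    have e5 := mul_le_mul_of_nonneg_left e3 (show 0 ≤ (8 * C₁ / ρ) / w by positivity)
    have e6 := mul_le_mul_of_nonneg_left e4 (show 0 ≤ (3 * C₁ ^ 2 / ρ ^ 2) / w by positivity)
    have e7 : (8 * C₁ / ρ + 3 * C₁ ^ 2 / ρ ^ 2) / w =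
        (8 * C₁ / ρ) / w + (3 * C₁ ^ 2 / ρ ^ 2) / w := by ring
    rw [e7]
    linarith
  have p2 : (16 * κ / (ρ * w ^ 4) + 3 / (ρ * w ^ 4) ^ 2 * (κ * (1 + lA) + 4 * Pr)) *
        (κ * (1 + lA) + 4 * Pr) ≤ κ ^ 2 * (32 / ρ + 12 / ρ ^ 2) := by
    have e0 : κ * (1 + lA) + 4 * Pr ≤ 2 * κ * w ^ 4 := by
      have := mul_le_mul_of_nonneg_left hlA hκ.le
      linarith
    obtain ⟨Y, hY⟩ : ∃ Y, Y = κ * (1 + lA) + 4 * Pr := ⟨_, rfl⟩
    have hPr0 : 0 ≤ Pr := hκ.le.trans hPr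
    have hY0 : 0 ≤ Y := by rw [hY]; positivity
    rw [← hY] at e0 ⊢
    have e1 : (16 * κ / (ρ * w ^ 4) + 3 / (ρ * w ^ 4) ^ 2 * Y) * Y ≤
        (16 * κ / (ρ * w ^ 4) + 3 / (ρ * w ^ 4) ^ 2 * (2 * κ * w ^ 4)) * (2 * κ * w ^ 4) := by
      apply mul_le_mul _ e0 hY0 (by positivity)
      have := mul_le_mul_of_nonneg_left e0 (show 0 ≤ 3 / (ρ * w ^ 4) ^ 2 by positivity)
      linarith
    refine e1.trans (le_of_eq ?_)
    field_simp
    ring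
  have p3 : (8 / (ρ * w ^ 4) + 3 / (ρ * w ^ 4) ^ 2 * (1 + lN)) * (lN - lA) ≤
      (8 / ρ + 6 / ρ ^ 2) * C₃ / w := by
    have e1 : (8 / (ρ * w ^ 4) + 3 / (ρ * w ^ 4) ^ 2 * (1 + lN)) * (lN - lA) ≤
        (8 / (ρ * w ^ 4) + 3 / (ρ * w ^ 4) ^ 2 * (2 * w ^ 4)) * (C₃ * w ^ 2) := by
      apply mul_le_mul _ hNA hNA0 (by positivity)
      have := mul_le_mul_of_nonneg_left (show 1 + lN ≤ 2 * w ^ 4 by linarith)
        (show 0 ≤ 3 / (ρ * w ^ 4) ^ 2 by positivity)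
      linarith
    refine e1.trans ?_
    have e2 : (8 / (ρ * w ^ 4) + 3 / (ρ * w ^ 4) ^ 2 * (2 * w ^ 4)) * (C₃ * w ^ 2) =
        (8 / ρ + 6 / ρ ^ 2) * C₃ / w * (1 / w) := by
      field_simp
      ring
    rw [e2]
    have e3 : 1 / w ≤ 1 := by
      rw [div_le_one (by positivity)]; exact hw
    have e5 := mul_le_mul_of_nonneg_left e3 (show 0 ≤ (8 / ρ + 6 / ρ ^ 2) * C₃ / w by positivity)
    linarith
  have q3 := mul_le_mul_of_nonneg_left p3 (show 0 ≤ 2 * K ^ 2 by positivity)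
  have q4 : (32 * (8 * C₁ / ρ + 3 * C₁ ^ 2 / ρ ^ 2) + 2 * K ^ 2 * (8 / ρ + 6 / ρ ^ 2) * C₃) / w =
      32 * ((8 * C₁ / ρ + 3 * C₁ ^ 2 / ρ ^ 2) / w) +
      2 * K ^ 2 * ((8 / ρ + 6 / ρ ^ 2) * C₃ / w) := by ring
  rw [q4]
  linarith

/-- the error term -/
theorem stat_e {K β μ' w : ℝ} {N : ℕ} (hK : 1 ≤ K) (hN0 : (0 : ℝ) < N) (hw : 1 ≤ w)
    (h1 : (8 * μ' + 1) ≤ (2 - 4 * β) * w) (h2 : 24 * (4 + |Real.log (16 * K ^ 2)|) ≤ w)
    (hβ : 0 ≤ 2 - 4 * β) (hN : (N : ℝ) ≤ Real.exp (β * w ^ 4 + 2 * μ' * w ^ 2)) :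
    16 * K ^ 2 * Real.exp (3 * w ^ 4) *
      Real.exp (-Real.exp (w ^ 4) ^ 2 / (4 * (N : ℝ) ^ 4)) ≤ 1 / w := by
  have hw0 : 0 < w := by linarith
  have hw2 : 1 ≤ w ^ 2 := one_le_pow₀ hw
  have hw4 : 1 ≤ w ^ 4 := one_le_pow₀ hw
  obtain ⟨L, hL⟩ : ∃ L, L = Real.log (16 * K ^ 2) := ⟨_, rfl⟩
  rw [← hL] at h2
  have e1 : (N : ℝ) ^ 4 ≤ Real.exp (4 * β * w ^ 4 + 8 * μ' * w ^ 2) := by
    calc (N : ℝ) ^ 4 ≤ Real.exp (β * w ^ 4 + 2 * μ' * w ^ 2) ^ 4 := pow_le_pow_left₀ hN0.le hN 4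
      _ = _ := by
        rw [← Real.exp_nat_mul]
        congr 1
        push_cast
        ring
  have e2 : Real.exp (w ^ 4) ^ 2 = Real.exp (2 * w ^ 4) := by
    rw [← Real.exp_nat_mul]
    congr 1
  have e3 : Real.exp (w ^ 2) / 4 ≤ Real.exp (w ^ 4) ^ 2 / (4 * (N : ℝ) ^ 4) := by
    rw [div_le_div_iff₀ (by norm_num) (by positivity), e2]
    have h3 : Real.exp (w ^ 2) * (N : ℝ) ^ 4 ≤
        Real.exp (w ^ 2) * Real.exp (4 * β * w ^ 4 + 8 * μ' * w ^ 2) :=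
      mul_le_mul_of_nonneg_left e1 (Real.exp_pos _).le
    have h4 : Real.exp (w ^ 2) * Real.exp (4 * β * w ^ 4 + 8 * μ' * w ^ 2) ≤
        Real.exp (2 * w ^ 4) := by
      rw [← Real.exp_add]
      apply Real.exp_le_exp.2
      have h5 : (8 * μ' + 1) * w ^ 2 ≤ (2 - 4 * β) * w * w ^ 2 :=
        mul_le_mul_of_nonneg_right h1 (by positivity)
      have h6 : (2 - 4 * β) * (w * w ^ 2) ≤ (2 - 4 * β) * w ^ 4 := by
        apply mul_le_mul_of_nonneg_left _ hβ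
        have : w * w ^ 2 * 1 ≤ w * w ^ 2 * w := mul_le_mul_of_nonneg_left hw (by positivity)
        calc w * w ^ 2 = w * w ^ 2 * 1 := by ring
          _ ≤ w * w ^ 2 * w := this
          _ = w ^ 4 := by ring
      linarith
    linarith
  have e4 : (4 + |L|) * w ^ 4 ≤ Real.exp (w ^ 2) / 4 := by
    have h3 := Real.pow_div_factorial_le_exp (w ^ 2) (by positivity) 3
    have h4 : (w ^ 2) ^ 3 / ((Nat.factorial 3 : ℕ) : ℝ) = w ^ 4 * w ^ 2 / 6 := by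
      rw [show Nat.factorial 3 = 6 by rfl]
      push_cast
      ring
    rw [h4] at h3
    have h5 : 24 * (4 + |L|) ≤ w ^ 2 := by
      refine h2.trans ?_
      nlinarith only [hw]
    have h6 := mul_le_mul_of_nonneg_left h5 (show 0 ≤ w ^ 4 by positivity)
    linarith
  have e5 : 3 * w ^ 4 + L + w ≤ (4 + |L|) * w ^ 4 := by
    have h3 : w ≤ w ^ 4 := by
      calc w = w ^ 1 := (pow_one w).symm
        _ ≤ w ^ 4 := pow_le_pow_right₀ hw (by norm_num)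
    have h4 : L ≤ |L| * w ^ 4 :=
      (le_abs_self L).trans (le_mul_of_one_le_right (abs_nonneg L) hw4)
    linarith
  have e6 : 16 * K ^ 2 = Real.exp L := by
    rw [hL, Real.exp_log (by positivity)]
  rw [e6, ← Real.exp_add, ← Real.exp_add]
  have e7 : L + 3 * w ^ 4 + -Real.exp (w ^ 4) ^ 2 / (4 * (N : ℝ) ^ 4) ≤ -w := by
    have : -Real.exp (w ^ 4) ^ 2 / (4 * (N : ℝ) ^ 4) =
        -(Real.exp (w ^ 4) ^ 2 / (4 * (N : ℝ) ^ 4)) := by ring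
    rw [this]
    linarith
  refine (Real.exp_le_exp.2 e7).trans ?_
  rw [Real.exp_neg, one_div]
  apply inv_anti₀ hw0
  have := Real.add_one_le_exp w
  linarith

/-- **The sieved statistical bound.** -/
theorem stat_rough {μ β ρ ε : ℝ} (hμ : 0 < μ) (hβ : 0 < β) (hβ2 : β < 1 / 2) (hρ : 0 < ρ)
    (hε : 0 < ε) : ∃ P : ℕ, Odd P ∧ ∃ T₀ : ℝ, ∀ T : ℝ, T₀ ≤ T →
      (volume {x : ℝ | x ∈ Set.Icc T (2 * T) ∧ ∀ r : ℝ, |r| ≤ ρ * Real.log T →
        ‖Rs P μ (β * Real.log T) (x + r)‖ ≤ (T ^ 2)⁻¹}).toReal ≤ ε * T := by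
  obtain ⟨Z, hZ⟩ : ∃ Z, Z = 2 * Real.exp 4 * Real.sqrt Real.pi := ⟨_, rfl⟩
  have hZ0 : 0 < Z := by rw [hZ]; positivity
  obtain ⟨P, hPo, hκs⟩ := exists_kap_small
    (show 0 < ε / (2 * Z * (32 * (32 / ρ + 12 / ρ ^ 2))) by positivity)
  refine ⟨P, hPo, ?_⟩
  have hP1 : 1 ≤ P := hPo.pos
  have hPr : (1 : ℝ) ≤ P := by exact_mod_cast hP1
  obtain ⟨K, b₀, hK1, hb₀, hW⟩ := rough_weights hμ hP1
  have hWB : WB P μ K b₀ := hW
  obtain ⟨κ, hκ⟩ : ∃ κ, κ = kap P := ⟨_, rfl⟩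
  have hκ0 : 0 < κ := by rw [hκ]; exact kap_pos hP1
  have hκ1 : κ ≤ 1 := by rw [hκ]; exact kap_le_one P
  rw [← hκ] at hκs
  have hK0 : 0 < K := by linarith
  obtain ⟨m, hm⟩ : ∃ m, m = 1 / Real.sqrt μ := ⟨_, rfl⟩
  have hsμ : 0 < Real.sqrt μ := Real.sqrt_pos.2 hμ
  have hm0 : 0 < m := by rw [hm]; positivity
  have hmμ : μ * m ^ 2 = 1 := by
    rw [hm, div_pow, Real.sq_sqrt hμ.le]
    field_simp
  obtain ⟨D, hD⟩ : ∃ D, D = 4 * P * ρ / κ + 1 := ⟨_, rfl⟩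
  have hD1 : 1 ≤ D := by
    rw [hD]
    have : 0 ≤ 4 * P * ρ / κ := by positivity
    linarith
  have hlD : 0 ≤ Real.log D := Real.log_nonneg hD1
  obtain ⟨C₁, hC₁⟩ : ∃ C₁, C₁ = 5 + Real.log D := ⟨_, rfl⟩
  have hC₁0 : 0 ≤ C₁ := by rw [hC₁]; linarith
  have hl2K : 0 ≤ Real.log (2 * K) := Real.log_nonneg (by linarith)
  obtain ⟨C₃, hC₃⟩ : ∃ C₃, C₃ = 2 * m + Real.log (2 * K) := ⟨_, rfl⟩
  have hC₃0 : 0 ≤ C₃ := by rw [hC₃]; positivity
  obtain ⟨CC, hCC⟩ : ∃ CC, CC = (32 * (8 * C₁ / ρ + 3 * C₁ ^ 2 / ρ ^ 2) +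
    2 * K ^ 2 * (8 / ρ + 6 / ρ ^ 2) * C₃) + 1 := ⟨_, rfl⟩
  have hCC0 : 0 < CC := by rw [hCC]; positivity
  obtain ⟨L, hL⟩ : ∃ L, L = |Real.log (16 * K ^ 2)| := ⟨_, rfl⟩
  have hL0 : 0 ≤ L := by rw [hL]; exact abs_nonneg _
  have hδ0 : 0 < 2 - 4 * β := by linarith
  obtain ⟨W, hWd⟩ : ∃ W, W = 1 + b₀ / β + 1 / ρ + 2 * K * (D + 1) / β ^ 2 + 4 * m + 1 / m +
    5 * P / κ + 16 * K + 24 * (4 + L) + 2 * Z * CC / ε + (8 * m + 1) / (2 - 4 * β) := ⟨_, rfl⟩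
  have t1 : 0 ≤ b₀ / β := by positivity
  have t2 : 0 ≤ 1 / ρ := by positivity
  have t3 : 0 ≤ 2 * K * (D + 1) / β ^ 2 := by positivity
  have t4 : 0 ≤ 4 * m := by positivity
  have t5 : 0 ≤ 1 / m := by positivity
  have t6 : 0 ≤ 5 * P / κ := by positivity
  have t7 : 0 ≤ 16 * K := by positivity
  have t8 : 0 ≤ 24 * (4 + L) := by positivity
  have t9 : 0 ≤ 2 * Z * CC / ε := by positivity
  have t10 : 0 ≤ (8 * m + 1) / (2 - 4 * β) := by positivity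
  refine ⟨Real.exp (W ^ 4), fun T hT => ?_⟩
  have hTpos : 0 < T := lt_of_lt_of_le (Real.exp_pos _) hT
  obtain ⟨l, hl⟩ : ∃ l, l = Real.log T := ⟨_, rfl⟩
  have hTl : T = Real.exp l := by rw [hl, Real.exp_log hTpos]
  have hlW : W ^ 4 ≤ l := by
    rw [hl, Real.le_log_iff_exp_le hTpos]; exact hT
  have hW0 : 1 ≤ W := by rw [hWd]; linarith
  have hl0 : 0 ≤ l := le_trans (by positivity) hlW
  obtain ⟨w, hw⟩ : ∃ w, w = Real.sqrt (Real.sqrt l) := ⟨_, rfl⟩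
  have hw4 : w ^ 4 = l := by
    have : w ^ 4 = (w ^ 2) ^ 2 := by ring
    rw [this, hw, Real.sq_sqrt (Real.sqrt_nonneg _), Real.sq_sqrt hl0]
  have hw0 : 0 ≤ w := by rw [hw]; exact Real.sqrt_nonneg _
  have hWw : W ≤ w := by
    rw [← hw4] at hlW
    exact le_of_pow_le_pow_left₀ (by norm_num) hw0 hlW
  have hw1 : 1 ≤ w := hW0.trans hWw
  have hwpos : 0 < w := by linarith
  have hw12 : w ≤ w ^ 2 := by nlinarith only [hw1]
  have hw14 : w ≤ w ^ 4 := by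
    calc w = w ^ 1 := (pow_one w).symm
      _ ≤ w ^ 4 := pow_le_pow_right₀ hw1 (by norm_num)
  have hw24 : w ^ 2 ≤ w ^ 4 := pow_le_pow_right₀ hw1 (by norm_num)
  have s1 : b₀ / β ≤ w := by rw [hWd] at hWw; linarith
  have s2 : 1 / ρ ≤ w := by rw [hWd] at hWw; linarith
  have s3 : 2 * K * (D + 1) / β ^ 2 ≤ w := by rw [hWd] at hWw; linarith
  have s4 : 4 * m ≤ w := by rw [hWd] at hWw; linarith
  have s5 : 1 / m ≤ w := by rw [hWd] at hWw; linarith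
  have s6 : 5 * P / κ ≤ w := by rw [hWd] at hWw; linarith
  have s7 : 16 * K ≤ w := by rw [hWd] at hWw; linarith
  have s8 : 24 * (4 + L) ≤ w := by rw [hWd] at hWw; linarith
  have s9 : 2 * Z * CC / ε ≤ w := by rw [hWd] at hWw; linarith
  have s10 : (8 * m + 1) / (2 - 4 * β) ≤ w := by rw [hWd] at hWw; linarith
  rw [div_le_iff₀ hβ] at s1
  rw [div_le_iff₀ hρ] at s2
  rw [div_le_iff₀ (by positivity)] at s3
  rw [div_le_iff₀ hm0] at s5
  rw [div_le_iff₀ hκ0] at s6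
  rw [div_le_iff₀ hε] at s9
  rw [div_le_iff₀ hδ0] at s10
  -- parameters
  obtain ⟨b, hb⟩ : ∃ b, b = β * w ^ 4 := ⟨_, rfl⟩
  obtain ⟨σ, hσ⟩ : ∃ σ, σ = 2 * m * w ^ 2 := ⟨_, rfl⟩
  obtain ⟨h, hh⟩ : ∃ h, h = ρ * w ^ 4 := ⟨_, rfl⟩
  have hb1 : b₀ ≤ b := by
    rw [hb]
    have := mul_le_mul_of_nonneg_left hw14 hβ.le
    linarith
  have hb0 : 0 < b := by rw [hb]; positivity
  have hbl : b ≤ l / 2 := by
    rw [hb, hw4]
    have := mul_le_mul_of_nonneg_right hβ2.le hl0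
    linarith
  have hσ8 : 2 * μ * σ ^ 2 = 8 * l := by
    rw [hσ, ← hw4]
    calc 2 * μ * (2 * m * w ^ 2) ^ 2 = 8 * (μ * m ^ 2) * w ^ 4 := by ring
      _ = _ := by rw [hmμ]; ring
  have hσ0 : 0 ≤ σ := by rw [hσ]; positivity
  have hσ2 : 2 ≤ σ := by
    rw [hσ]
    have : w * m ≤ w ^ 2 * m := mul_le_mul_of_nonneg_right hw12 hm0.le
    linarith
  have hσl : σ ≤ l / 2 := by
    rw [hσ, ← hw4]
    have h1 : 4 * m * w ^ 2 ≤ w * w ^ 2 := mul_le_mul_of_nonneg_right s4 (by positivity)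
    have h2 : w * w ^ 2 ≤ w ^ 2 * w ^ 2 := mul_le_mul_of_nonneg_right hw12 (by positivity)
    have h3 : w ^ 2 * w ^ 2 = w ^ 4 := by ring
    linarith
  have hh1 : 1 ≤ h := by
    rw [hh]
    have := mul_le_mul_of_nonneg_left hw14 hρ.le
    linarith
  obtain ⟨N, hN⟩ : ∃ N : ℕ, N = ⌊Real.exp (b + σ)⌋₊ := ⟨_, rfl⟩
  obtain ⟨A, hA⟩ : ∃ A : ℕ, A = ⌊Real.exp b / K⌋₊ := ⟨_, rfl⟩
  obtain ⟨B, hB⟩ : ∃ B : ℕ, B = ⌈4 * P * h / κ⌉₊ := ⟨_, rfl⟩
  have hNle : (N : ℝ) ≤ Real.exp (b + σ) := by rw [hN]; exact Nat.floor_le (Real.exp_pos _).le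
  have hNge : Real.exp (b + σ) ≤ N + 1 := by rw [hN]; exact (Nat.lt_floor_add_one _).le
  have hAle : (A : ℝ) ≤ Real.exp b / K := by rw [hA]; exact Nat.floor_le (by positivity)
  have hAge : Real.exp b / K ≤ A + 1 := by rw [hA]; exact (Nat.lt_floor_add_one _).le
  have hBge : 4 * P * h / κ ≤ B := by rw [hB]; exact Nat.le_ceil _
  have hBle : (B : ℝ) ≤ 4 * P * h / κ + 1 := by
    rw [hB]; exact (Nat.ceil_lt_add_one (by positivity)).le
  have hBpos : (0 : ℝ) < B := lt_of_lt_of_le (by positivity) hBge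
  have hB1 : 1 ≤ B := by exact_mod_cast hBpos
  have hBD : (B : ℝ) ≤ D * w ^ 4 := by
    refine hBle.trans ?_
    rw [hD, hh]
    have h1 : (1 : ℝ) ≤ w ^ 4 := by linarith
    have h2 : 4 * P * (ρ * w ^ 4) / κ = 4 * P * ρ / κ * w ^ 4 := by ring
    rw [h2]
    linarith
  have hexpb1 : 1 ≤ Real.exp b := Real.one_le_exp hb0.le
  have hexpb : K * (D * w ^ 4 + 1) ≤ Real.exp b := by
    have h1 := Real.quadratic_le_exp_of_nonneg hb0.le
    have h2 : 2 * K * (D + 1) * w ^ 4 ≤ b ^ 2 := by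
      rw [hb]
      have h3 : 2 * K * (D + 1) ≤ w ^ 4 * β ^ 2 := by
        have := mul_le_mul_of_nonneg_right hw14 (show 0 ≤ β ^ 2 by positivity)
        linarith
      have h4 := mul_le_mul_of_nonneg_right h3 (show 0 ≤ w ^ 4 by positivity)
      calc _ ≤ _ := h4
        _ = _ := by ring
    have h3 : K * (D * w ^ 4 + 1) ≤ K * (D + 1) * w ^ 4 := by
      have h4 : (1 : ℝ) ≤ w ^ 4 := by linarith
      have h5 := mul_le_mul_of_nonneg_left h4 hK0.le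
      calc K * (D * w ^ 4 + 1) = K * D * w ^ 4 + K * 1 := by ring
        _ ≤ K * D * w ^ 4 + K * w ^ 4 := by linarith
        _ = _ := by ring
    linarith
  have hexpbK : D * w ^ 4 + 1 ≤ Real.exp b / K := by
    rw [le_div_iff₀ hK0]
    linarith
  have hDw : 1 ≤ D * w ^ 4 := by
    calc (1 : ℝ) = 1 * 1 := (one_mul 1).symm
      _ ≤ D * w ^ 4 := mul_le_mul hD1 (by linarith) zero_le_one (by linarith)
  have hBA : B ≤ A := by
    have : (B : ℝ) ≤ A := by linarith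
    exact_mod_cast this
  have hAhalf : Real.exp b / (2 * K) ≤ A := by
    have h1 : Real.exp b / (2 * K) = (Real.exp b / K) / 2 := by field_simp
    rw [h1]; linarith
  have hAexp : (A : ℝ) ≤ Real.exp b := by
    refine hAle.trans ?_
    rw [div_le_iff₀ hK0]
    exact le_mul_of_one_le_right (Real.exp_pos b).le hK1
  have h2N : 2 * Real.exp b ≤ N := by
    have h1 : Real.exp (b + σ) = Real.exp b * Real.exp σ := Real.exp_add _ _
    have h2 := Real.add_one_le_exp σ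
    have h3 : Real.exp b * 3 ≤ Real.exp b * Real.exp σ :=
      mul_le_mul_of_nonneg_left (by linarith) (Real.exp_pos b).le
    linarith
  have hAN : A ≤ N := by
    have : (A : ℝ) ≤ N := by linarith
    exact_mod_cast this
  have hApos : (0 : ℝ) < A := lt_of_lt_of_le (by positivity) hAhalf
  have hNpos : (0 : ℝ) < N := by linarith
  have hAe : K * A ≤ Real.exp b := by
    rw [le_div_iff₀ hK0] at hAle
    linarith
  have hBh : 4 * P * h ≤ kap P * B := by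
    rw [← hκ]
    rw [div_le_iff₀ hκ0] at hBge
    linarith
  have hKl : 16 * K ≤ Real.exp l := by
    have := Real.add_one_le_exp l
    rw [← hw4] at this ⊢
    linarith
  have hl1 : 1 ≤ l := by rw [← hw4]; linarith
  have core := stat_core hμ hP1 hK1 hWB hTl hl1 hb1 hbl hσ8 hσ0 hNge h2N hh1 hB1 hBA hAN hAe hBh hKl
  have hset : {x : ℝ | x ∈ Set.Icc T (2 * T) ∧ ∀ r : ℝ, |r| ≤ ρ * Real.log T →
        ‖Rs P μ (β * Real.log T) (x + r)‖ ≤ (T ^ 2)⁻¹} =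
      {x : ℝ | x ∈ Set.Icc T (2 * T) ∧ ∀ r : ℝ, |r| ≤ h → ‖Rs P μ b (x + r)‖ ≤ (T ^ 2)⁻¹} := by
    rw [hh, hb, hw4, hl]
  rw [hset]
  refine core.trans ?_
  -- the logarithms
  have hlogw : Real.log w ≤ w := by
    have := Real.log_le_sub_one_of_pos hwpos
    linarith
  have hlB0 : 0 ≤ Real.log B := Real.log_nonneg (by exact_mod_cast hB1)
  have hlB : 1 + Real.log B ≤ C₁ * w := by
    have h1 : Real.log B ≤ Real.log (D * w ^ 4) := Real.log_le_log hBpos hBD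
    rw [Real.log_mul (by linarith) (by positivity), Real.log_pow] at h1
    push_cast at h1
    rw [hC₁]
    have h2 : Real.log D ≤ Real.log D * w := le_mul_of_one_le_right hlD hw1
    linarith
  have hlA0 : 0 ≤ Real.log A := Real.log_nonneg (by exact_mod_cast hB1.trans hBA)
  have hlA : Real.log A ≤ w ^ 4 := by
    have h1 : Real.log A ≤ b := by
      rw [Real.log_le_iff_le_exp hApos]; exact hAexp
    rw [hw4]
    linarith
  have hlN' : Real.log N ≤ b + σ := by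
    rw [Real.log_le_iff_le_exp hNpos]; exact hNle
  have hlN : Real.log N ≤ w ^ 4 := by
    rw [hw4]; linarith
  have hNA0 : 0 ≤ Real.log N - Real.log A := by
    have := Real.log_le_log hApos (by exact_mod_cast hAN : (A : ℝ) ≤ N)
    linarith
  have hNA : Real.log N - Real.log A ≤ C₃ * w ^ 2 := by
    have h1 : b - Real.log (2 * K) ≤ Real.log A := by
      have h2 := Real.log_le_log (by positivity) hAhalf
      rw [Real.log_div (Real.exp_pos b).ne' (by positivity), Real.log_exp] at h2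
      exact h2
    have h2 : Real.log (2 * K) ≤ Real.log (2 * K) * w ^ 2 :=
      le_mul_of_one_le_right hl2K (by linarith)
    rw [hC₃]
    rw [hσ] at hlN'
    linarith
  have hsw := stat_w (K := K) hρ hκ0 hw1 (Pr := (P : ℝ)) (by linarith) hC₁0 hC₃0 hlB0 hlB hlA0
    hlA hlN hNA hNA0 (by
      have := mul_le_mul_of_nonneg_right hw14 hκ0.le
      linarith)
  have hse := stat_e (β := β) (μ' := m) hK1 hNpos hw1 (by linarith) (by rw [← hL]; exact s8) hδ0.le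
    (by rw [hb, hσ] at hNle; exact hNle)
  rw [← hκ, hh]
  have hTw : T = Real.exp (w ^ 4) := by rw [hw4]; exact hTl
  have hZT : 2 * Real.exp 4 * Real.sqrt Real.pi * T = Z * T := by rw [hZ]
  rw [hZT]
  have hlw : (3 : ℝ) * l = 3 * w ^ 4 := by rw [hw4]
  have hsum : 32 * ((8 / (ρ * w ^ 4) + 3 / (ρ * w ^ 4) ^ 2 * (1 + Real.log B)) * (1 + Real.log B)) +
      32 * ((16 * κ / (ρ * w ^ 4) + 3 / (ρ * w ^ 4) ^ 2 * (κ * (1 + Real.log A) + 4 * P)) *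
        (κ * (1 + Real.log A) + 4 * P)) +
      2 * K ^ 2 * ((8 / (ρ * w ^ 4) + 3 / (ρ * w ^ 4) ^ 2 * (1 + Real.log N)) *
        (Real.log N - Real.log A)) +
      16 * K ^ 2 * Real.exp (3 * l) * Real.exp (-T ^ 2 / (4 * (N : ℝ) ^ 4)) ≤
      CC / w + 32 * κ ^ 2 * (32 / ρ + 12 / ρ ^ 2) := by
    rw [hlw, hTw, hCC]
    have : (32 * (8 * C₁ / ρ + 3 * C₁ ^ 2 / ρ ^ 2) + 2 * K ^ 2 * (8 / ρ + 6 / ρ ^ 2) * C₃ + 1) / w =
      (32 * (8 * C₁ / ρ + 3 * C₁ ^ 2 / ρ ^ 2) + 2 * K ^ 2 * (8 / ρ + 6 / ρ ^ 2) * C₃) / w +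
        1 / w := by ring
    rw [this]
    linarith only [hsw, hse]
  have hCw : Z * (CC / w) ≤ ε / 2 := by
    rw [← mul_div_assoc, div_le_iff₀ hwpos]
    linarith only [s9]
  have hκf : Z * (32 * κ ^ 2 * (32 / ρ + 12 / ρ ^ 2)) ≤ ε / 2 := by
    have h1 : κ ^ 2 ≤ κ := by nlinarith only [hκ0, hκ1]
    rw [le_div_iff₀ (by positivity)] at hκs
    have h2 := mul_le_mul_of_nonneg_right h1 (show 0 ≤ Z * (32 * (32 / ρ + 12 / ρ ^ 2)) by positivity)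
    calc Z * (32 * κ ^ 2 * (32 / ρ + 12 / ρ ^ 2)) = κ ^ 2 * (Z * (32 * (32 / ρ + 12 / ρ ^ 2))) := by
          ring
      _ ≤ κ * (Z * (32 * (32 / ρ + 12 / ρ ^ 2))) := h2
      _ ≤ ε / 2 := by linarith only [hκs]
  calc Z * T * _ ≤ Z * T * (CC / w + 32 * κ ^ 2 * (32 / ρ + 12 / ρ ^ 2)) :=
        mul_le_mul_of_nonneg_left hsum (by positivity)
    _ = (Z * (CC / w) + Z * (32 * κ ^ 2 * (32 / ρ + 12 / ρ ^ 2))) * T := by ring
    _ ≤ (ε / 2 + ε / 2) * T := mul_le_mul_of_nonneg_right (add_le_add hCw hκf) hTpos.le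
    _ = ε * T := by ring

end Pool.Agent.Y971.KK
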