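import Pool.Agent.Helper242.KK.Main
import Pool.Agent.Y971.KK.RStat
import Pool.Agent.Y971.KK.RAsym
import Pool.Agent.Y971.KK.RCount
import Pool.Agent.Y971.KK.RMany

set_option autoImplicit false

/-!
# Almost all zeros of `Ξ_{-μ}` are not real, for every `μ > 0`
-/

namespace Pool.Agent.Y971.KK

open Complex MeasureTheory Filter Topology Metric Pool.Agent.Helper242.KK

/-- few real zeros in dyadic intervals, for every `μ > 0` -/
theorem few_dyadic {μ : ℝ} (hμ : 0 < μ) {q : ℝ} (hq : 0 < q) (hq1 : q ≤ 1 / 40) :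
    ∃ T₀ : ℝ, ∀ T : ℝ, T₀ ≤ T →
      zc (XiM μ) (rseg T (2 * T)) ≤ ENNReal.ofReal (48 * q * T * Real.log T) := by
  have hf := differentiable_XiM hμ.le
  obtain ⟨C, X, hC, hX, hD⟩ := Dser_window hμ
  obtain ⟨Cs, hCs, hstrip⟩ := XiM_strip hμ
  obtain ⟨C', hC', hJ⟩ := zc_real_centre hf hμ hstrip
  have h1 := exists_good_universal' hμ hC hX (fun x => Dser_zero_lower hμ.le x) hD
  obtain ⟨P, hPo, T₁, hst⟩ := stat_rough (μ := μ) (β := 1 / 2 - q) (ρ := 5 / 2 * q * μ)
    (ε := q ^ 2 / 10) hμ (by linarith) (by linarith) (by positivity) (by positivity)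
  have hP1 : (1 : ℝ) ≤ P := by exact_mod_cast hPo.pos
  obtain ⟨T₂, hsm⟩ := small_of_bad' (K₀ := Real.log P) hμ hq hq1 (Real.log_nonneg hP1) hC hX hD
  have ev1 : ∀ᶠ T : ℝ in atTop, 5 / 2 * q * μ * Real.log T ≤ T := by
    have hc0 : 0 < 5 / 2 * q * μ := by positivity
    have h := Real.isLittleO_log_id_atTop.bound (c := 1 / (5 / 2 * q * μ)) (by positivity)
    filter_upwards [h, eventually_ge_atTop 1] with T hT hT1
    have hl : 0 ≤ Real.log T := Real.log_nonneg hT1
    simp only [id] at hT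
    rw [Real.norm_eq_abs, Real.norm_eq_abs, abs_of_nonneg hl, abs_of_nonneg (by linarith)] at hT
    calc 5 / 2 * q * μ * Real.log T ≤ 5 / 2 * q * μ * (1 / (5 / 2 * q * μ) * T) :=
          mul_le_mul_of_nonneg_left hT hc0.le
      _ = T := by field_simp
  have ev := ev1.and ((eventually_ge_atTop T₁).and ((eventually_ge_atTop T₂).and
    ((eventually_ge_atTop (1 : ℝ)).and (eventually_ge_atTop (P : ℝ)))))
  obtain ⟨T₃, hT₃⟩ := eventually_atTop.1 ev
  refine count_dyadic' (f := XiM μ) hq hq1 hμ hC' hJ h1 ⟨T₃, fun T hT => ?_⟩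
  obtain ⟨e1, e2, e3, e4, e5⟩ := hT₃ T hT
  refine le_trans ?_ (hst T e2)
  have hT0 : 0 < T := by linarith
  have hfin : (volume {x : ℝ | x ∈ Set.Icc T (2 * T) ∧ ∀ r : ℝ, |r| ≤ 5 / 2 * q * μ * Real.log T →
        ‖Rs P μ ((1 / 2 - q) * Real.log T) (x + r)‖ ≤ (T ^ 2)⁻¹}) ≠ ⊤ := by
    refine ne_top_of_le_ne_top ?_ (measure_mono (fun x hx => hx.1) : _ ≤ volume (Set.Icc T (2 * T)))
    rw [Real.volume_Icc]
    exact ENNReal.ofReal_ne_top
  refine ENNReal.toReal_mono hfin (measure_mono ?_)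
  rintro x ⟨hx, hx2, hx3⟩
  refine ⟨hx, fun r hr => ?_⟩
  have hr' := abs_le.1 hr
  have hbound : ∀ δ : ℝ, 0 ≤ δ → δ ≤ Real.log P →
      ‖Dser μ ((1 / 2 - q) * Real.log T - δ) (x + r)‖ ≤ (T ^ 3)⁻¹ := by
    refine hsm T (x + r) e3 (by linarith) (by linarith [hx.2]) ?_
    intro y hy
    apply hx3
    have h2 : |y - x| ≤ |y - (x + r)| + |r| := by
      have : y - x = (y - (x + r)) + r := by ring
      rw [this]
      exact abs_add_le _ _
    have h3 : 5 * q * μ * Real.log T + 5 / 2 * q * μ * Real.log T = 15 / 2 * q * μ * Real.log T := by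
      ring
    linarith
  refine (norm_Rs_le hμ.le hPo hbound).trans ?_
  rw [← div_eq_mul_inv, div_le_iff₀ (by positivity), inv_mul_eq_div, le_div_iff₀ (by positivity)]
  calc (P : ℝ) * T ^ 2 ≤ T * T ^ 2 := mul_le_mul_of_nonneg_right e5 (by positivity)
    _ = T ^ 3 := by ring

/-- almost no zero is real -/
theorem few_real {μ : ℝ} (hμ : 0 < μ) {ε : ℝ} (hε : 0 < ε) : ∃ R₀ : ℝ, ∀ R : ℝ, R₀ ≤ R →
    zc (XiM μ) {z | z.im = 0 ∧ ‖z‖ ≤ R} ≤ ENNReal.ofReal ε * zc (XiM μ) (closedBall 0 R) := by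
  have hf := differentiable_XiM hμ.le
  have he := XiM_neg μ
  have h0 := XiM_zero_ne hμ.le
  obtain ⟨Cu, hCu, hup⟩ := XiM_upper hμ.le
  obtain ⟨Cl, hCl, hlow⟩ := XiM_lower hμ.le
  obtain ⟨R₁, hmany⟩ := many_zeros_all (C := max Cu Cl) hf (XiM_neg μ) (XiM_zero_ne hμ.le)
    (fun z => (hup z).trans (Real.exp_le_exp.2 (by
      have : Cu * (1 + |z.im|) ≤ max Cu Cl * (1 + |z.im|) :=
        mul_le_mul_of_nonneg_right (le_max_left _ _) (by positivity)
      linarith)))
    (fun y hy => le_trans (Real.exp_le_exp.2 (by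
      have : Cl * y ≤ max Cu Cl * y :=
        mul_le_mul_of_nonneg_right (le_max_right _ _) (by linarith)
      linarith)) (hlow y hy))
  obtain ⟨q, hq⟩ : ∃ q : ℝ, q = min (1 / 40) (ε / 400000) := ⟨_, rfl⟩
  have hq0 : 0 < q := by rw [hq]; positivity
  have hq1 : q ≤ 1 / 40 := by rw [hq]; exact min_le_left _ _
  have hq2 : q ≤ ε / 400000 := by rw [hq]; exact min_le_right _ _
  obtain ⟨T₀, hT₀⟩ := few_dyadic hμ hq0 hq1
  set f := XiM μ with hfdef
  set T1 : ℝ := max T₀ 3 with hT1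
  have hT1a : T₀ ≤ T1 := le_max_left _ _
  have hT1b : 3 ≤ T1 := le_max_right _ _
  have hseg : ∀ R : ℝ, T1 ≤ R →
      zc f (rseg 0 R) ≤ zc f (rseg 0 (2 * T1)) + ENNReal.ofReal (48 * q * R * Real.log R) := by
    intro R hR
    obtain ⟨n, hn⟩ := pow_unbounded_of_one_lt R (one_lt_two)
    apply not_tendsto_one_half hq0 hT1b (fun T hT => hT₀ T (hT1a.trans hT)) n R hR
    have : (0:ℝ) < 2 ^ n := by positivity
    nlinarith
  set N1 := zc f (rseg 0 (2 * T1)) with hN1
  have hN1t : N1 ≠ ⊤ := by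
    have h1 : N1 ≤ zc f (closedBall 0 (2 * T1)) := by
      apply zc_mono
      rintro z ⟨h1, h2, h3⟩
      rw [mem_closedBall, dist_zero_right]
      have : ‖z‖ = |z.re| := by
        rw [Complex.norm_eq_sqrt_sq_add_sq, h1]
        simp [Real.sqrt_sq_eq_abs]
      rw [this, abs_of_nonneg h2]
      exact h3
    rw [zc_closedBall hf ⟨0, h0⟩ 0 (by linarith : (0:ℝ) < 2 * T1)] at h1
    exact ne_top_of_le_ne_top ENNReal.ofReal_ne_top h1
  have hA : ∀ R : ℝ, T1 ≤ R → zc f {z | z.im = 0 ∧ ‖z‖ ≤ R} ≤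
      2 * (N1 + ENNReal.ofReal (48 * q * R * Real.log R)) := by
    intro R hR
    calc zc f {z | z.im = 0 ∧ ‖z‖ ≤ R} ≤ zc f (rseg 0 R ∪ (fun z => -z) '' (rseg 0 R)) := by
          apply zc_mono
          rintro z ⟨h1, h2⟩
          have h3 : |z.re| ≤ R := (Complex.abs_re_le_norm z).trans h2
          rw [abs_le] at h3
          rcases le_total 0 z.re with h5 | h5
          · exact Or.inl ⟨h1, h5, h3.2⟩
          · refine Or.inr ⟨-z, ⟨?_, ?_, ?_⟩, neg_neg z⟩
            · simp [h1]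
            · simpa using h5
            · simp only [Complex.neg_re]; linarith
      _ ≤ zc f (rseg 0 R) + zc f ((fun z => -z) '' (rseg 0 R)) := zc_union_le _ _ _
      _ = 2 * zc f (rseg 0 R) := by rw [zc_neg he, two_mul]
      _ ≤ _ := by
          gcongr
          exact hseg R hR
  refine ⟨max (max T1 R₁) (1 / q * N1.toReal), fun R hR => ?_⟩
  have hRb : T1 ≤ R := (le_max_left _ _).trans ((le_max_left _ _).trans hR)
  have hRa : R₁ ≤ R := (le_max_right _ _).trans ((le_max_left _ _).trans hR)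
  have hRc : 1 / q * N1.toReal ≤ R := (le_max_right _ _).trans hR
  have hlog : 1 ≤ Real.log R := by
    rw [Real.le_log_iff_exp_le (by linarith)]
    have := Real.exp_one_lt_d9
    linarith
  have hR0 : 0 < R := by linarith
  have hN1r : N1 = ENNReal.ofReal N1.toReal := (ENNReal.ofReal_toReal hN1t).symm
  have hNn : 0 ≤ N1.toReal := ENNReal.toReal_nonneg
  have hnn : 0 ≤ 48 * q * R * Real.log R := by positivity
  have h1 : zc f {z | z.im = 0 ∧ ‖z‖ ≤ R} ≤
      ENNReal.ofReal (ε * (1 / 3600 * R * Real.log R)) := by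
    calc zc f {z | z.im = 0 ∧ ‖z‖ ≤ R} ≤ 2 * (N1 + ENNReal.ofReal (48 * q * R * Real.log R)) :=
          hA R hRb
      _ = ENNReal.ofReal (2 * (N1.toReal + 48 * q * R * Real.log R)) := by
          conv_lhs => rw [hN1r]
          rw [← ENNReal.ofReal_add hNn hnn]
          rw [ENNReal.ofReal_mul (by norm_num)]
          simp
      _ ≤ _ := by
          apply ENNReal.ofReal_le_ofReal
          have e1 : q * (R * Real.log R) ≤ ε / 400000 * (R * Real.log R) := by
            apply mul_le_mul_of_nonneg_right hq2 (by positivity)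
          have e2 : R ≤ R * Real.log R := by nlinarith
          have e3 : N1.toReal ≤ q * R := by
            have := mul_le_mul_of_nonneg_left hRc hq0.le
            have e4 : q * (1 / q * N1.toReal) = N1.toReal := by field_simp
            rwa [e4] at this
          have e5 : q * R ≤ q * (R * Real.log R) := mul_le_mul_of_nonneg_left e2 hq0.le
          have e6 : 0 ≤ ε * (R * Real.log R) := by positivity
          linarith
  refine h1.trans ?_
  rw [ENNReal.ofReal_mul hε.le]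
  gcongr
  exact hmany R hRa

/-- the proportion of the real zeros tends to zero -/
theorem tendsto_ratio {μ : ℝ} (hμ : 0 < μ) :
    Tendsto (fun T : ℝ => zc (XiM μ) {z | z.im = 0 ∧ ‖z‖ ≤ T} / zc (XiM μ) {z | |z.re| ≤ T})
      atTop (𝓝 0) := by
  rw [ENNReal.tendsto_nhds_zero]
  intro ε hε
  obtain ⟨δ, hδ0, hδ⟩ : ∃ δ : ℝ, 0 < δ ∧ ENNReal.ofReal δ ≤ ε := by
    rcases eq_or_ne ε ⊤ with h | h
    · exact ⟨1, one_pos, by rw [h]; exact le_top⟩
    · exact ⟨ε.toReal, ENNReal.toReal_pos hε.ne' h, (ENNReal.ofReal_toReal h).le⟩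
  obtain ⟨R₀, hR₀⟩ := few_real hμ hδ0
  filter_upwards [eventually_ge_atTop R₀] with R hR
  have h1 := hR₀ R hR
  have h3 : zc (XiM μ) (closedBall 0 R) ≤ zc (XiM μ) {z | |z.re| ≤ R} := by
    apply zc_mono
    intro z hz
    rw [mem_closedBall, dist_zero_right] at hz
    exact (Complex.abs_re_le_norm z).trans hz
  refine ENNReal.div_le_of_le_mul ?_
  exact h1.trans (mul_le_mul' hδ h3)

end Pool.Agent.Y971.KK
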