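import Pool.Agent.Y971.KK.RWeights
import Pool.Agent.Helper242.KK.Stat

set_option autoImplicit false

/-!
# The Gaussian Dirichlet series over the integers prime to an odd modulus
-/

namespace Pool.Agent.Y971.KK

open Complex Finset Pool.Agent.Helper242.KK

/-- the `n`-th term of the alternating Dirichlet series with Gaussian weights -/
noncomputable def FF (μ b x : ℝ) (n : ℕ) : ℂ :=
  if n = 0 then 0 else (((-1) ^ (n + 1) * vw μ b n : ℝ) : ℂ) * cexp (-(I * x * Real.log n))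

/-- the series over the integers prime to `P` -/
noncomputable def Rs (P : ℕ) (μ b x : ℝ) : ℂ := ∑' n : ℕ, (chi P n : ℂ) * FF μ b x n

theorem FF_zero (μ b x : ℝ) : FF μ b x 0 = 0 := by simp [FF]

theorem norm_FF {μ b x : ℝ} {n : ℕ} (hn : n ≠ 0) : ‖FF μ b x n‖ = vw μ b n := by
  unfold FF
  rw [if_neg hn, norm_mul, Complex.norm_real, Real.norm_eq_abs, abs_mul, abs_pow, abs_neg, abs_one,
    one_pow, one_mul, abs_of_pos (show 0 < vw μ b n from Real.exp_pos _)]
  rw [show (-(I * (x : ℂ) * ((Real.log (n : ℝ) : ℝ) : ℂ))) =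
    ((-(x * Real.log (n : ℝ)) : ℝ) : ℂ) * I by push_cast; ring]
  rw [Complex.norm_exp_ofReal_mul_I, mul_one]

theorem vw_le {μ : ℝ} (hμ : 0 ≤ μ) (b : ℝ) {n : ℕ} (hn : 1 ≤ n) : vw μ b n ≤ 1 / (n : ℝ) ^ 2 := by
  have h1 : (0 : ℝ) < (n : ℝ) := by exact_mod_cast hn
  have : (1 : ℝ) / (n : ℝ) ^ 2 = Real.exp (-2 * Real.log n) := by
    rw [show -2 * Real.log (n : ℝ) = -(Real.log n + Real.log n) by ring,
      Real.exp_neg, Real.exp_add, Real.exp_log h1]
    field_simp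
  rw [this]
  unfold vw
  apply Real.exp_le_exp.2
  have : 0 ≤ 2 * μ * (Real.log n - b) ^ 2 := by positivity
  linarith

theorem vw_le_tail {μ : ℝ} (hμ : 0 ≤ μ) {b σ : ℝ} (hσ : 0 ≤ σ) {n : ℕ} (hn : 1 ≤ n)
    (h : b + σ ≤ Real.log n) : vw μ b n ≤ Real.exp (-(2 * μ * σ ^ 2)) * (1 / (n : ℝ) ^ 2) := by
  have h1 : (0 : ℝ) < (n : ℝ) := by exact_mod_cast hn
  have : (1 : ℝ) / (n : ℝ) ^ 2 = Real.exp (-2 * Real.log n) := by
    rw [show -2 * Real.log (n : ℝ) = -(Real.log n + Real.log n) by ring,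
      Real.exp_neg, Real.exp_add, Real.exp_log h1]
    field_simp
  rw [this, ← Real.exp_add]
  unfold vw
  apply Real.exp_le_exp.2
  have h2 : σ ≤ Real.log n - b := by linarith
  have h3 : σ ^ 2 ≤ (Real.log n - b) ^ 2 := pow_le_pow_left₀ hσ h2 2
  have h4 := mul_le_mul_of_nonneg_left h3 (show 0 ≤ 2 * μ by linarith)
  linarith

theorem summable_inv_sq' : Summable (fun n : ℕ => (1 / (n : ℝ) ^ 2)) := by
  exact (Real.summable_one_div_nat_pow (p := 2)).2 one_lt_two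

theorem norm_FF_le {μ : ℝ} (hμ : 0 ≤ μ) (b x : ℝ) (n : ℕ) : ‖FF μ b x n‖ ≤ 1 / (n : ℝ) ^ 2 := by
  rcases Nat.eq_zero_or_pos n with h | h
  · subst h; simp [FF_zero]
  · rw [norm_FF (by omega)]
    exact vw_le hμ b h

theorem summable_FF {μ : ℝ} (hμ : 0 ≤ μ) (b x : ℝ) : Summable (FF μ b x) :=
  Summable.of_norm_bounded summable_inv_sq' (norm_FF_le hμ b x)

theorem summable_chi_FF {μ : ℝ} (hμ : 0 ≤ μ) (P : ℕ) (b x : ℝ) :
    Summable (fun n : ℕ => (chi P n : ℂ) * FF μ b x n) := by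
  refine Summable.of_norm_bounded summable_inv_sq' fun n => ?_
  rw [norm_mul, Complex.norm_real, Real.norm_of_nonneg (chi_nonneg P n)]
  calc chi P n * ‖FF μ b x n‖ ≤ 1 * (1 / (n : ℝ) ^ 2) :=
        mul_le_mul (chi_le_one P n) (norm_FF_le hμ b x n) (norm_nonneg _) zero_le_one
    _ = _ := one_mul _

theorem Dser_eq_tsum {μ : ℝ} (hμ : 0 ≤ μ) (b x : ℝ) : Dser μ b x = ∑' n : ℕ, FF μ b x n := by
  rw [(summable_FF hμ b x).tsum_eq_zero_add, FF_zero, zero_add]
  unfold Dser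
  refine tsum_congr fun n => ?_
  unfold FF
  rw [if_neg (by omega), vw_succ]
  push_cast
  ring_nf

/-- the terms at the multiples of an odd `d` -/
theorem FF_mul {μ b x : ℝ} {d : ℕ} (hd : Odd d) (m : ℕ) :
    FF μ b x (d * m) = cexp (-((2 + I * x) * Real.log d)) * FF μ (b - Real.log d) x m := by
  have hd0 : d ≠ 0 := by
    rintro rfl
    exact absurd hd (by decide)
  have hdr : (0 : ℝ) < d := by exact_mod_cast Nat.pos_of_ne_zero hd0
  rcases Nat.eq_zero_or_pos m with hm | hm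
  · subst hm; simp [FF_zero]
  · have hmr : (0 : ℝ) < m := by exact_mod_cast hm
    unfold FF
    rw [if_neg (Nat.mul_ne_zero hd0 (by omega)), if_neg (by omega)]
    have hlog : Real.log ((d * m : ℕ) : ℝ) = Real.log d + Real.log m := by
      push_cast
      exact Real.log_mul hdr.ne' hmr.ne'
    have hsign : ((-1 : ℝ)) ^ (d * m + 1) = (-1) ^ (m + 1) := by
      rw [pow_succ, pow_succ, pow_mul, hd.neg_one_pow]
    have hvw : vw μ b (d * m) = Real.exp (-2 * Real.log d) * vw μ (b - Real.log d) m := by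
      unfold vw
      rw [hlog, ← Real.exp_add]
      congr 1
      ring
    rw [hlog, hsign, hvw]
    have e1 : cexp (-((2 + I * x) * Real.log d)) =
        ((Real.exp (-2 * Real.log d) : ℝ) : ℂ) * cexp (-(I * x * Real.log d)) := by
      rw [Complex.ofReal_exp, ← Complex.exp_add]
      congr 1
      push_cast
      ring
    have e2 : cexp (-(I * x * ((Real.log d + Real.log m : ℝ) : ℂ))) =
        cexp (-(I * x * Real.log d)) * cexp (-(I * x * Real.log m)) := by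
      rw [← Complex.exp_add]
      congr 1
      push_cast
      ring
    rw [e1, e2]
    push_cast
    ring

theorem chi_eq_sum {P : ℕ} (hP : 1 ≤ P) (n : ℕ) :
    (chi P n : ℂ) = ∑ d ∈ P.divisors, if d ∣ n then ((ArithmeticFunction.moebius d : ℤ) : ℂ) else 0 := by
  rw [← sum_filter]
  have h1 : P.divisors.filter (fun d => d ∣ n) = (Nat.gcd n P).divisors := by
    ext d
    rw [mem_filter, Nat.mem_divisors, Nat.mem_divisors, Nat.dvd_gcd_iff]
    constructor
    · rintro ⟨⟨h1, h2⟩, h3⟩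
      exact ⟨⟨h3, h1⟩, Nat.gcd_ne_zero_right h2⟩
    · rintro ⟨⟨h1, h2⟩, h3⟩
      exact ⟨⟨h2, by omega⟩, h1⟩
  rw [h1]
  have h2 : ∑ d ∈ (Nat.gcd n P).divisors, ArithmeticFunction.moebius d =
      if Nat.gcd n P = 1 then 1 else 0 := by
    have h3 := ArithmeticFunction.coe_mul_zeta_apply (f := ArithmeticFunction.moebius)
      (x := Nat.gcd n P)
    rw [ArithmeticFunction.moebius_mul_coe_zeta] at h3
    rw [← h3, ArithmeticFunction.one_apply]
  have h4 : ((∑ d ∈ (Nat.gcd n P).divisors, ArithmeticFunction.moebius d : ℤ) : ℂ) =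
      ∑ d ∈ (Nat.gcd n P).divisors, ((ArithmeticFunction.moebius d : ℤ) : ℂ) := by
    push_cast; rfl
  rw [← h4, h2]
  unfold chi Nat.Coprime
  split_ifs <;> simp

theorem tsum_multiples {d : ℕ} (hd : d ≠ 0) (F : ℕ → ℂ) :
    ∑' n : ℕ, (if d ∣ n then F n else 0) = ∑' m : ℕ, F (d * m) := by
  have hinj : Function.Injective (fun m : ℕ => d * m) := fun a b h =>
    Nat.eq_of_mul_eq_mul_left (Nat.pos_of_ne_zero hd) h
  have hsup : Function.support (fun n : ℕ => if d ∣ n then F n else 0) ⊆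
      Set.range (fun m : ℕ => d * m) := by
    intro n hn
    rw [Function.mem_support] at hn
    by_cases h : d ∣ n
    · obtain ⟨m, hm⟩ := h
      exact ⟨m, hm.symm⟩
    · simp [h] at hn
  have h := hinj.tsum_eq hsup
  rw [← h]
  refine tsum_congr fun m => ?_
  simp

theorem Rs_eq {μ : ℝ} (hμ : 0 ≤ μ) {P : ℕ} (hP : Odd P) (b x : ℝ) :
    Rs P μ b x = ∑ d ∈ P.divisors, ((ArithmeticFunction.moebius d : ℤ) : ℂ) *
      (cexp (-((2 + I * x) * Real.log d)) * Dser μ (b - Real.log d) x) := by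
  have hP1 : 1 ≤ P := hP.pos
  unfold Rs
  have h1 : ∀ n : ℕ, (chi P n : ℂ) * FF μ b x n =
      ∑ d ∈ P.divisors, (((ArithmeticFunction.moebius d : ℤ) : ℂ) *
        (if d ∣ n then FF μ b x n else 0)) := by
    intro n
    rcases Nat.eq_zero_or_pos n with hn | hn
    · subst hn
      simp [FF_zero]
    · rw [chi_eq_sum hP1, sum_mul]
      refine sum_congr rfl fun d _ => ?_
      split_ifs <;> simp
  simp_rw [h1]
  rw [Summable.tsum_finsetSum]
  · refine sum_congr rfl fun d hd => ?_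
    have hdP : d ∣ P := Nat.dvd_of_mem_divisors hd
    have hdo : Odd d := Odd.of_dvd_nat hP hdP
    have hd0 : d ≠ 0 := by
      rintro rfl
      exact absurd hdo (by decide)
    rw [tsum_mul_left, tsum_multiples hd0]
    congr 1
    simp_rw [FF_mul hdo]
    rw [tsum_mul_left, ← Dser_eq_tsum hμ]
  · intro d _
    apply Summable.mul_left
    refine Summable.of_norm_bounded summable_inv_sq' fun n => ?_
    split_ifs
    · exact norm_FF_le hμ b x n
    · rw [norm_zero]; positivity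

theorem norm_Rs_le {μ : ℝ} (hμ : 0 ≤ μ) {P : ℕ} (hP : Odd P) {b x m : ℝ}
    (h : ∀ δ : ℝ, 0 ≤ δ → δ ≤ Real.log P → ‖Dser μ (b - δ) x‖ ≤ m) :
    ‖Rs P μ b x‖ ≤ P * m := by
  have hP1 : 1 ≤ P := hP.pos
  have hm : 0 ≤ m := (norm_nonneg _).trans (h 0 le_rfl (Real.log_nonneg (by exact_mod_cast hP1)))
  rw [Rs_eq hμ hP]
  refine (norm_sum_le _ _).trans ?_
  have h1 : ∀ d ∈ P.divisors, ‖((ArithmeticFunction.moebius d : ℤ) : ℂ) *
      (cexp (-((2 + I * x) * Real.log d)) * Dser μ (b - Real.log d) x)‖ ≤ m := by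
    intro d hd
    have hdP : d ∣ P := Nat.dvd_of_mem_divisors hd
    have hd1 : 1 ≤ d := Nat.pos_of_mem_divisors hd
    have hdr : (1 : ℝ) ≤ d := by exact_mod_cast hd1
    have hl0 : 0 ≤ Real.log d := Real.log_nonneg hdr
    have hl1 : Real.log d ≤ Real.log P :=
      Real.log_le_log (by linarith) (by exact_mod_cast Nat.le_of_dvd hP1 hdP)
    rw [norm_mul, norm_mul]
    have e1 : ‖((ArithmeticFunction.moebius d : ℤ) : ℂ)‖ ≤ 1 := by
      rw [Complex.norm_intCast]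
      have := ArithmeticFunction.abs_moebius_le_one (n := d)
      exact_mod_cast this
    have e2 : ‖cexp (-((2 + I * x) * Real.log d))‖ ≤ 1 := by
      rw [Complex.norm_exp]
      apply Real.exp_le_one_iff.2
      have : (-((2 + I * (x : ℂ)) * ((Real.log d : ℝ) : ℂ))) =
          ((-(2 * Real.log d) : ℝ) : ℂ) + ((-(x * Real.log d) : ℝ) : ℂ) * I := by
        push_cast; ring
      rw [this, Complex.add_re, Complex.ofReal_re, Complex.re_ofReal_mul, Complex.I_re, mul_zero,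
        add_zero]
      linarith
    have e3 := h (Real.log d) hl0 hl1
    calc _ ≤ 1 * (1 * m) := by
          apply mul_le_mul e1 _ (by positivity) zero_le_one
          exact mul_le_mul e2 e3 (norm_nonneg _) zero_le_one
      _ = m := by ring
  refine (sum_le_sum h1).trans ?_
  rw [sum_const, nsmul_eq_mul]
  apply mul_le_mul_of_nonneg_right _ hm
  exact_mod_cast Nat.card_divisors_le_self P

/-- the coefficients of the Dirichlet polynomial -/
noncomputable def rc (P : ℕ) (μ b : ℝ) (n : ℕ) : ℝ := (-1) ^ (n + 1) * rv P μ b n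

theorem abs_rc (P : ℕ) (μ b : ℝ) (n : ℕ) : |rc P μ b n| = rv P μ b n := by
  unfold rc
  rw [abs_mul, abs_pow, abs_neg, abs_one, one_pow, one_mul, abs_of_nonneg (rv_nonneg P μ b n)]

theorem sq_rc (P : ℕ) (μ b : ℝ) (n : ℕ) : rc P μ b n ^ 2 = rv P μ b n ^ 2 := by
  rw [← sq_abs, abs_rc]

theorem Psum_rc (P : ℕ) (μ b x : ℝ) (N : ℕ) :
    Psum (rc P μ b) N x = ∑ n ∈ range (N + 1), (chi P n : ℂ) * FF μ b x n := by
  unfold Psum
  rw [sum_range_succ', FF_zero, mul_zero, add_zero]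
  induction N with
  | zero => simp
  | succ N ih =>
    rw [sum_Icc_succ_top (by omega), sum_range_succ, ih]
    congr 1
    unfold FF rc rv
    rw [if_neg (by omega)]
    push_cast
    ring

theorem rv_le {μ : ℝ} (hμ : 0 ≤ μ) (P : ℕ) (b : ℝ) {n : ℕ} (hn : 1 ≤ n) :
    rv P μ b n ≤ 1 / (n : ℝ) ^ 2 := by
  unfold rv
  calc chi P n * vw μ b n ≤ 1 * (1 / (n : ℝ) ^ 2) :=
        mul_le_mul (chi_le_one P n) (vw_le hμ b hn) (Real.exp_pos _).le zero_le_one
    _ = _ := one_mul _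

theorem sum_abs_rc {μ : ℝ} (hμ : 0 ≤ μ) (P : ℕ) (b : ℝ) (N : ℕ) :
    ∑ n ∈ Icc 1 N, |rc P μ b n| ≤ 2 := by
  refine le_trans ?_ (sum_inv_sq N)
  rw [sum_Icc_shift (fun n => |rc P μ b n|)]
  refine sum_le_sum fun i _ => ?_
  rw [abs_rc]
  have := rv_le hμ P b (n := i + 1) (by omega)
  push_cast at this
  exact this

theorem Rs_tail {μ : ℝ} (hμ : 0 ≤ μ) (P : ℕ) (b x : ℝ) {σ : ℝ} (hσ : 0 ≤ σ) (N : ℕ)
    (hN : Real.exp (b + σ) ≤ N + 1) :
    ‖Rs P μ b x - Psum (rc P μ b) N x‖ ≤ 2 * Real.exp (-(2 * μ * σ ^ 2)) := by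
  have h2 := (summable_chi_FF hμ P b x).sum_add_tsum_nat_add (N + 1)
  have h0 : Rs P μ b x = ∑' n : ℕ, (chi P n : ℂ) * FF μ b x n := rfl
  rw [h0, ← h2, Psum_rc, add_sub_cancel_left]
  have hb : ∀ i : ℕ, ‖(chi P (i + (N + 1)) : ℂ) * FF μ b x (i + (N + 1))‖ ≤
      Real.exp (-(2 * μ * σ ^ 2)) * (1 / ((i : ℝ) + 1) ^ 2) := by
    intro i
    rw [norm_mul, Complex.norm_real, Real.norm_of_nonneg (chi_nonneg _ _), norm_FF (by omega)]
    have hN0 : (0 : ℝ) ≤ N := Nat.cast_nonneg N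
    have hi0 : (0 : ℝ) ≤ i := Nat.cast_nonneg i
    have hcast : (((i + (N + 1) : ℕ)) : ℝ) = i + (N + 1) := by push_cast; ring
    have hl : b + σ ≤ Real.log ((i + (N + 1) : ℕ) : ℝ) := by
      rw [Real.le_log_iff_exp_le (by rw [hcast]; positivity), hcast]
      linarith
    have h3 := vw_le_tail hμ hσ (n := i + (N + 1)) (by omega) hl
    have h4 : (1 : ℝ) / ((i + (N + 1) : ℕ) : ℝ) ^ 2 ≤ 1 / ((i : ℝ) + 1) ^ 2 := by
      apply one_div_le_one_div_of_le (by positivity)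
      apply pow_le_pow_left₀ (by positivity)
      rw [hcast]
      linarith
    have h5 : 0 ≤ vw μ b (i + (N + 1)) := (Real.exp_pos _).le
    calc chi P (i + (N + 1)) * vw μ b (i + (N + 1)) ≤ 1 * vw μ b (i + (N + 1)) :=
          mul_le_mul_of_nonneg_right (chi_le_one _ _) h5
      _ = vw μ b (i + (N + 1)) := one_mul _
      _ ≤ _ := h3
      _ ≤ _ := mul_le_mul_of_nonneg_left h4 (Real.exp_pos _).le
  have hsum : Summable (fun i : ℕ => Real.exp (-(2 * μ * σ ^ 2)) * (1 / ((i : ℝ) + 1) ^ 2)) :=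
    summable_inv_sq.mul_left _
  calc ‖∑' i : ℕ, (chi P (i + (N + 1)) : ℂ) * FF μ b x (i + (N + 1))‖
      ≤ ∑' i : ℕ, Real.exp (-(2 * μ * σ ^ 2)) * (1 / ((i : ℝ) + 1) ^ 2) :=
        tsum_of_norm_bounded hsum.hasSum hb
    _ = Real.exp (-(2 * μ * σ ^ 2)) * ∑' i : ℕ, (1 / ((i : ℝ) + 1) ^ 2) := tsum_mul_left
    _ ≤ Real.exp (-(2 * μ * σ ^ 2)) * 2 := mul_le_mul_of_nonneg_left tsum_inv_sq (Real.exp_pos _).le
    _ = 2 * Real.exp (-(2 * μ * σ ^ 2)) := by ring

end Pool.Agent.Y971.KK
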