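import Pool.Agent.Y971.KK.RMain
import Pool.Agent.Y971.KK.RFin

set_option autoImplicit false

/-!
# Summary: zeros of `Ξ_{-μ}`, `μ > 0`
-/

namespace Pool.Agent.Y971.KK

open Complex MeasureTheory Filter Topology Metric Pool.Agent.Helper242.KK

/-- there are at least `T log T / 3600` zeros of `Ξ_{-μ}` with `|Re z| ≤ T` -/
theorem many_XiM {μ : ℝ} (hμ : 0 ≤ μ) : ∃ T₀ : ℝ, ∀ T : ℝ, T₀ ≤ T →
    ENNReal.ofReal (T * Real.log T / 3600) ≤ zc (XiM μ) {z | |z.re| ≤ T} := by
  obtain ⟨Cu, hCu, hup⟩ := XiM_upper hμ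
  obtain ⟨Cl, hCl, hlow⟩ := XiM_lower hμ
  obtain ⟨R₁, hmany⟩ := many_zeros_all (C := max Cu Cl) (differentiable_XiM hμ) (XiM_neg μ)
    (XiM_zero_ne hμ)
    (fun z => (hup z).trans (Real.exp_le_exp.2 (by
      have : Cu * (1 + |z.im|) ≤ max Cu Cl * (1 + |z.im|) :=
        mul_le_mul_of_nonneg_right (le_max_left _ _) (by positivity)
      linarith)))
    (fun y hy => le_trans (Real.exp_le_exp.2 (by
      have : Cl * y ≤ max Cu Cl * y :=
        mul_le_mul_of_nonneg_right (le_max_right _ _) (by linarith)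
      linarith)) (hlow y hy))
  refine ⟨R₁, fun T hT => ?_⟩
  have h := hmany T hT
  rw [show 1 / 3600 * T * Real.log T = T * Real.log T / 3600 by ring] at h
  refine h.trans (zc_mono _ ?_)
  intro z hz
  rw [mem_closedBall, dist_zero_right] at hz
  exact (Complex.abs_re_le_norm z).trans hz

end Pool.Agent.Y971.KK
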