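import Pool.Agent.Y971.KK.Rough
import Pool.Agent.Helper242.KK.Weights

set_option autoImplicit false

/-!
# The Gaussian weights on the integers prime to a modulus
-/

namespace Pool.Agent.Y971.KK

open Finset Pool.Agent.Helper242.KK

/-- the squares of the Gaussian weights -/
noncomputable def ph (μ b : ℝ) (n : ℕ) : ℝ :=
  Real.exp (-4 * Real.log n - 4 * μ * (Real.log n - b) ^ 2)

/-- the Gaussian weights at the integers prime to `P` -/
noncomputable def rv (P : ℕ) (μ b : ℝ) (n : ℕ) : ℝ := chi P n * vw μ b n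

theorem vw_sq (μ b : ℝ) (n : ℕ) : vw μ b n ^ 2 = ph μ b n := by
  unfold vw ph
  rw [← Real.exp_nat_mul]
  congr 1
  push_cast
  ring

theorem chi_sq (P n : ℕ) : chi P n ^ 2 = chi P n := by
  unfold chi; split_ifs <;> norm_num

theorem rv_sq (P : ℕ) (μ b : ℝ) (n : ℕ) : rv P μ b n ^ 2 = chi P n * ph μ b n := by
  unfold rv
  rw [mul_pow, chi_sq, vw_sq]

theorem rv_nonneg (P : ℕ) (μ b : ℝ) (n : ℕ) : 0 ≤ rv P μ b n :=
  mul_nonneg (chi_nonneg P n) (Real.exp_pos _).le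

theorem chi_mul (P m n : ℕ) : chi P (m * n) = chi P m * chi P n := by
  unfold chi
  by_cases h1 : Nat.Coprime m P
  · by_cases h2 : Nat.Coprime n P
    · rw [if_pos h1, if_pos h2, if_pos (Nat.Coprime.mul_left h1 h2), one_mul]
    · rw [if_pos h1, if_neg h2, if_neg (fun h => h2 (Nat.Coprime.coprime_mul_left h)), mul_zero]
  · rw [if_neg h1, if_neg (fun h => h1 (Nat.Coprime.coprime_mul_right h)), zero_mul]

theorem ph_pos (μ b : ℝ) (n : ℕ) : 0 < ph μ b n := Real.exp_pos _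

theorem ph_fac (μ b s t : ℝ) : (-4 * t - 4 * μ * (t - b) ^ 2) - (-4 * s - 4 * μ * (s - b) ^ 2) =
    (t - s) * (-4 - 4 * μ * (t + s - 2 * b)) := by ring

theorem ph_up {μ b : ℝ} (hμ : 0 < μ) {m n : ℕ} (hm : 1 ≤ m) (hmn : m ≤ n)
    (hn : (n : ℝ) ≤ Real.exp (b - 1 / (2 * μ))) : ph μ b m ≤ ph μ b n := by
  have hm0 : (0 : ℝ) < m := by exact_mod_cast hm
  have hn0 : (0 : ℝ) < n := lt_of_lt_of_le hm0 (by exact_mod_cast hmn)
  have hl1 : Real.log m ≤ Real.log n := Real.log_le_log hm0 (by exact_mod_cast hmn)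
  have hl2 : Real.log n ≤ b - 1 / (2 * μ) := by
    rw [Real.log_le_iff_le_exp hn0]; exact hn
  unfold ph
  apply Real.exp_le_exp.2
  have h1 := ph_fac μ b (Real.log m) (Real.log n)
  have h2 : 0 ≤ -4 - 4 * μ * (Real.log n + Real.log m - 2 * b) := by
    have h3 : Real.log n + Real.log m - 2 * b ≤ -(1 / μ) := by
      have h4 : 1 / μ = 2 * (1 / (2 * μ)) := by field_simp
      linarith
    have h5 : μ * (Real.log n + Real.log m - 2 * b) ≤ μ * -(1 / μ) :=
      mul_le_mul_of_nonneg_left h3 hμ.le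
    have h6 : μ * -(1 / μ) = -1 := by field_simp
    rw [h6] at h5
    linarith
  have h3 : 0 ≤ (Real.log n - Real.log m) * (-4 - 4 * μ * (Real.log n + Real.log m - 2 * b)) :=
    mul_nonneg (by linarith) h2
  linarith

theorem ph_down {μ b : ℝ} (hμ : 0 < μ) {m n : ℕ} (hm : Real.exp (b - 1 / (2 * μ)) ≤ m)
    (hmn : m ≤ n) : ph μ b n ≤ ph μ b m := by
  have hm0 : (0 : ℝ) < m := (Real.exp_pos _).trans_le hm
  have hl1 : Real.log m ≤ Real.log n := Real.log_le_log hm0 (by exact_mod_cast hmn)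
  have hl2 : b - 1 / (2 * μ) ≤ Real.log m := by
    rw [Real.le_log_iff_exp_le hm0]; exact hm
  unfold ph
  apply Real.exp_le_exp.2
  have h1 := ph_fac μ b (Real.log m) (Real.log n)
  have h2 : -4 - 4 * μ * (Real.log n + Real.log m - 2 * b) ≤ 0 := by
    have h3 : -(1 / μ) ≤ Real.log n + Real.log m - 2 * b := by
      have h4 : 1 / μ = 2 * (1 / (2 * μ)) := by field_simp
      linarith
    have h5 : μ * -(1 / μ) ≤ μ * (Real.log n + Real.log m - 2 * b) :=
      mul_le_mul_of_nonneg_left h3 hμ.le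
    have h6 : μ * -(1 / μ) = -1 := by field_simp
    rw [h6] at h5
    linarith
  have h3 : (Real.log n - Real.log m) * (-4 - 4 * μ * (Real.log n + Real.log m - 2 * b)) ≤ 0 :=
    mul_nonpos_of_nonneg_of_nonpos (by linarith) h2
  linarith

theorem ph_max {μ : ℝ} (hμ : 0 < μ) (b : ℝ) (n : ℕ) : ph μ b n ≤ Real.exp (1 / μ - 4 * b) := by
  unfold ph
  apply Real.exp_le_exp.2
  have h1 : 0 ≤ 4 * μ * (Real.log n - b + 1 / (2 * μ)) ^ 2 := by positivity
  have h2 : 4 * μ * (Real.log n - b + 1 / (2 * μ)) ^ 2 =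
      4 * μ * (Real.log n - b) ^ 2 + 4 * (Real.log n - b) + 1 / μ := by
    field_simp
    ring
  linarith

theorem ph_low {μ : ℝ} (hμ : 0 < μ) {b : ℝ} (hb : 1 ≤ b) {N : ℕ} (hN : 2 * Real.exp b ≤ N) :
    Real.exp (-3 * b) ≤ 2 * Real.exp (4 + 4 * μ) * ∑ n ∈ Icc 1 N, ph μ b n := by
  have heb : 2 < Real.exp b := by
    have := Real.add_one_lt_exp (show b ≠ 0 by linarith)
    linarith
  obtain ⟨m, hm⟩ : ∃ m : ℕ, m = ⌈Real.exp b⌉₊ := ⟨_, rfl⟩
  have hm1 : Real.exp b ≤ m := by rw [hm]; exact Nat.le_ceil _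
  have hm2 : (m : ℝ) < Real.exp b + 1 := by
    rw [hm]; exact Nat.ceil_lt_add_one (Real.exp_pos b).le
  obtain ⟨k, hk⟩ : ∃ k : ℕ, k = ⌊2 * Real.exp b⌋₊ := ⟨_, rfl⟩
  have hk1 : (k : ℝ) ≤ 2 * Real.exp b := by
    rw [hk]; exact Nat.floor_le (by positivity)
  have hk2 : 2 * Real.exp b < k + 1 := by rw [hk]; exact Nat.lt_floor_add_one _
  have hsub : Icc m k ⊆ Icc 1 N := by
    intro n hn
    rw [mem_Icc] at hn ⊢
    have hm0 : (0 : ℝ) < m := by linarith
    have hm0' : 0 < m := by exact_mod_cast hm0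
    have hkN : k ≤ N := by
      have : (k : ℝ) ≤ N := hk1.trans hN
      exact_mod_cast this
    omega
  have hlow : ∀ n ∈ Icc m k, Real.exp (-4 * b - 4 - 4 * μ) ≤ ph μ b n := by
    intro n hn
    rw [mem_Icc] at hn
    have hn1 : Real.exp b ≤ n := hm1.trans (by exact_mod_cast hn.1)
    have hn2 : (n : ℝ) ≤ 2 * Real.exp b := le_trans (by exact_mod_cast hn.2) hk1
    have hn0 : (0 : ℝ) < n := (Real.exp_pos b).trans_le hn1
    have hl1 : b ≤ Real.log n := by
      rw [Real.le_log_iff_exp_le hn0]; exact hn1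
    have hl2 : Real.log n ≤ b + 1 := by
      rw [Real.log_le_iff_le_exp hn0, Real.exp_add]
      refine hn2.trans ?_
      rw [mul_comm]
      apply mul_le_mul_of_nonneg_left _ (Real.exp_pos b).le
      have := Real.add_one_le_exp (1:ℝ)
      linarith
    unfold ph
    apply Real.exp_le_exp.2
    have h1 : (Real.log n - b) ^ 2 ≤ 1 := by
      have h2 : 0 ≤ Real.log n - b := by linarith
      have h3 : Real.log n - b ≤ 1 := by linarith
      nlinarith
    have h2 := mul_le_mul_of_nonneg_left h1 hμ.le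
    linarith
  have hcard : Real.exp b / 2 ≤ ((Icc m k).card : ℝ) := by
    rw [Nat.card_Icc]
    have hmk : m ≤ k + 1 := by
      have : (m : ℝ) ≤ k + 1 := by linarith
      exact_mod_cast this
    rw [Nat.cast_sub hmk]
    push_cast
    linarith
  have h1 : ((Icc m k).card : ℝ) * Real.exp (-4 * b - 4 - 4 * μ) ≤ ∑ n ∈ Icc 1 N, ph μ b n := by
    have h2 := card_nsmul_le_sum _ (ph μ b) _ hlow
    rw [nsmul_eq_mul] at h2
    refine h2.trans ?_
    exact sum_le_sum_of_subset_of_nonneg hsub fun n _ _ => (ph_pos μ b n).le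
  have h3 : Real.exp b / 2 * Real.exp (-4 * b - 4 - 4 * μ) ≤ ∑ n ∈ Icc 1 N, ph μ b n :=
    (mul_le_mul_of_nonneg_right hcard (Real.exp_pos _).le).trans h1
  have h4 : 2 * Real.exp (4 + 4 * μ) * (Real.exp b / 2 * Real.exp (-4 * b - 4 - 4 * μ)) =
      Real.exp (-3 * b) := by
    have e1 : 2 * Real.exp (4 + 4 * μ) * (Real.exp b / 2 * Real.exp (-4 * b - 4 - 4 * μ)) =
        Real.exp (4 + 4 * μ) * Real.exp b * Real.exp (-4 * b - 4 - 4 * μ) := by ring
    rw [e1, ← Real.exp_add, ← Real.exp_add]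
    congr 1
    ring
  rw [← h4]
  exact mul_le_mul_of_nonneg_left h3 (by positivity)

/-- the sums of the squares of the weights over the multiples of `a` -/
theorem ph_mul_sum {μ : ℝ} (hμ : 0 < μ) {b : ℝ} {N : ℕ} (hN : 2 * Real.exp b ≤ N) {a : ℕ}
    (ha : 1 ≤ a) : (a : ℝ) * ∑ j ∈ Icc 1 (N / a), ph μ b (j * a) ≤
      ∑ n ∈ Icc 1 N, ph μ b n + 3 * a * Real.exp (1 / μ - 4 * b) := by
  refine unimodal_sum (τ := Real.exp (b - 1 / (2 * μ))) ha (fun n => (ph_pos μ b n).le) ?_ ?_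
    (fun n _ => ph_max hμ b n) ?_
  · intro m n hm hmn hn
    exact ph_up hμ hm hmn hn
  · intro m n hm hmn
    exact ph_down hμ hm hmn
  · have h1 : Real.exp (b - 1 / (2 * μ)) ≤ Real.exp b := by
      apply Real.exp_le_exp.2
      have : 0 < 1 / (2 * μ) := by positivity
      linarith
    have := Real.exp_pos b
    linarith

/-- sums over the `j` prime to `P` of the squares of the weights at `j a` -/
theorem ph_rough_sum {μ : ℝ} (hμ : 0 < μ) (b : ℝ) {P : ℕ} (hP : 1 ≤ P) {a : ℕ} (ha : 1 ≤ a)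
    (N : ℕ) : |∑ j ∈ Icc 1 N, chi P j * ph μ b (j * a) - kap P * ∑ j ∈ Icc 1 N, ph μ b (j * a)| ≤
      4 * P * Real.exp (1 / μ - 4 * b) := by
  have ha0 : (0 : ℝ) < a := by exact_mod_cast ha
  refine rough_sum hP (τ := Real.exp (b - 1 / (2 * μ)) / a) (fun n _ => (ph_pos μ b _).le) ?_ ?_
    (fun n _ => ph_max hμ b _) N
  · intro m n hm hmn hn
    rw [le_div_iff₀ ha0] at hn
    exact ph_up hμ (Nat.mul_pos hm ha) (Nat.mul_le_mul_right a hmn) (by push_cast; exact hn)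
  · intro m n _ hm hmn
    rw [div_le_iff₀ ha0] at hm
    exact ph_down hμ (by push_cast; exact hm) (Nat.mul_le_mul_right a hmn)

theorem Smul_rv (P : ℕ) (μ b : ℝ) (N a : ℕ) : Smul (rv P μ b) N a =
    chi P a * ∑ j ∈ Icc 1 (N / a), chi P j * ph μ b (j * a) := by
  unfold Smul
  rw [mul_sum]
  refine sum_congr rfl fun j _ => ?_
  rw [rv_sq, chi_mul]
  ring

/-- bounds for the weights -/
theorem rough_weights {μ : ℝ} (hμ : 0 < μ) {P : ℕ} (hP : 1 ≤ P) :
    ∃ K b₀ : ℝ, 1 ≤ K ∧ 1 ≤ b₀ ∧ ∀ b : ℝ, b₀ ≤ b → ∀ N : ℕ, 2 * Real.exp b ≤ N →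
    Real.exp (-3 * b) ≤ K * ∑ n ∈ Icc 1 N, rv P μ b n ^ 2 ∧
    (∀ a ∈ Icc 1 N, Smul (rv P μ b) N a * a ≤ K * ∑ n ∈ Icc 1 N, rv P μ b n ^ 2) ∧
    (∀ a ∈ Icc 1 N, K * a ≤ Real.exp b →
      Smul (rv P μ b) N a * a ≤ 4 * ∑ n ∈ Icc 1 N, rv P μ b n ^ 2) := by
  obtain ⟨K₁, hK₁⟩ : ∃ K₁, K₁ = 2 * Real.exp (4 + 4 * μ) := ⟨_, rfl⟩
  have hK₁1 : 1 ≤ K₁ := by
    have := Real.add_one_le_exp (4 + 4 * μ)
    rw [hK₁]; linarith
  obtain ⟨κ, hκ⟩ : ∃ κ, κ = kap P := ⟨_, rfl⟩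
  have hκ0 : 0 < κ := by rw [hκ]; exact kap_pos hP
  have hκ1 : κ ≤ 1 := by rw [hκ]; exact kap_le_one P
  have hP0 : (0 : ℝ) < P := by exact_mod_cast hP
  have hP1 : (1 : ℝ) ≤ P := by exact_mod_cast hP
  obtain ⟨G, hG⟩ : ∃ G, G = Real.exp (1 / μ) := ⟨_, rfl⟩
  have hG1 : 1 ≤ G := by rw [hG]; exact Real.one_le_exp (by positivity)
  obtain ⟨K₂, hK₂⟩ : ∃ K₂, K₂ = 8 * P * G * K₁ / κ := ⟨_, rfl⟩
  have hK₂0 : 0 < K₂ := by rw [hK₂]; positivity
  obtain ⟨K₃, hK₃⟩ : ∃ K₃, K₃ = 1 + 3 * G * K₁ + 2 * K₁ := ⟨_, rfl⟩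
  have hK₃0 : 0 < K₃ := by rw [hK₃]; positivity
  refine ⟨1 + K₂ + 2 * K₁ / κ + 2 * K₃ / κ, 1 + K₂, ?_, by linarith, ?_⟩
  · have : 0 < 2 * K₁ / κ := by positivity
    have : 0 < 2 * K₃ / κ := by positivity
    linarith
  intro b hb N hN
  have hb1 : 1 ≤ b := by linarith
  obtain ⟨V, hV⟩ : ∃ V, V = ∑ n ∈ Icc 1 N, ph μ b n := ⟨_, rfl⟩
  have hV0 : 0 ≤ V := by rw [hV]; exact sum_nonneg fun n _ => (ph_pos μ b n).le
  obtain ⟨W, hW⟩ : ∃ W, W = ∑ n ∈ Icc 1 N, rv P μ b n ^ 2 := ⟨_, rfl⟩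
  rw [← hW]
  have hWe : W = ∑ n ∈ Icc 1 N, chi P n * ph μ b n := by
    rw [hW]; exact sum_congr rfl fun n _ => rv_sq P μ b n
  have hW0 : 0 ≤ W := by rw [hW]; exact sum_nonneg fun n _ => sq_nonneg _
  have hlow := ph_low hμ hb1 hN
  rw [← hK₁, ← hV] at hlow
  -- `M = G e^{-4b}`
  have hMe : Real.exp (1 / μ - 4 * b) = G * Real.exp (-3 * b) * Real.exp (-b) := by
    rw [hG, ← Real.exp_add, ← Real.exp_add]
    congr 1
    ring
  have hMb : ∀ a : ℝ, 0 ≤ a → K₂ * a ≤ Real.exp b → 8 * P * a * Real.exp (1 / μ - 4 * b) ≤ κ * V := by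
    intro a ha hab
    rw [hMe]
    have h1 : K₂ * a * Real.exp (-b) ≤ 1 := by
      rw [Real.exp_neg, ← div_eq_mul_inv, div_le_one (Real.exp_pos _)]
      exact hab
    have h2 : 8 * P * a * (G * Real.exp (-3 * b) * Real.exp (-b)) =
        (κ / K₁) * Real.exp (-3 * b) * (K₂ * a * Real.exp (-b)) := by
      rw [hK₂]; field_simp
    rw [h2]
    have h3 : (κ / K₁) * Real.exp (-3 * b) * (K₂ * a * Real.exp (-b)) ≤
        (κ / K₁) * Real.exp (-3 * b) * 1 := by
      apply mul_le_mul_of_nonneg_left h1 (by positivity)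
    have h4 : (κ / K₁) * Real.exp (-3 * b) ≤ (κ / K₁) * (K₁ * V) :=
      mul_le_mul_of_nonneg_left hlow (by positivity)
    have h5 : (κ / K₁) * (K₁ * V) = κ * V := by field_simp
    linarith
  have hK₂b : K₂ ≤ Real.exp b := by
    have := Real.add_one_le_exp b
    linarith
  have hWV : κ * V / 2 ≤ W := by
    have h1 := ph_rough_sum hμ b hP (a := 1) le_rfl N
    simp only [mul_one] at h1
    rw [← hWe, ← hκ, ← hV] at h1
    have h2 := hMb 1 zero_le_one (by linarith)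
    rw [abs_le] at h1
    linarith [h1.1]
  have hVW : V ≤ 2 / κ * W := by
    have h1 : 2 / κ * (κ * V / 2) ≤ 2 / κ * W := mul_le_mul_of_nonneg_left hWV (by positivity)
    have h2 : 2 / κ * (κ * V / 2) = V := by field_simp
    linarith
  have hA1 : 0 ≤ K₂ * W := by positivity
  have hA2 : 0 ≤ 2 * K₁ / κ * W := by positivity
  have hA3 : 0 ≤ 2 * K₃ / κ * W := by positivity
  have hsmul_le : ∀ a ∈ Icc 1 N, Smul (rv P μ b) N a * a ≤
      (a : ℝ) * ∑ j ∈ Icc 1 (N / a), ph μ b (j * a) := by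
    intro a _
    rw [Smul_rv]
    have ha0 : (0 : ℝ) ≤ a := Nat.cast_nonneg a
    have h1 : ∑ j ∈ Icc 1 (N / a), chi P j * ph μ b (j * a) ≤ ∑ j ∈ Icc 1 (N / a), ph μ b (j * a) := by
      refine sum_le_sum fun j _ => ?_
      have := mul_le_mul_of_nonneg_right (chi_le_one P j) (ph_pos μ b (j * a)).le
      linarith
    have h2 : 0 ≤ ∑ j ∈ Icc 1 (N / a), ph μ b (j * a) := sum_nonneg fun j _ => (ph_pos μ b _).le
    have h3 : chi P a * ∑ j ∈ Icc 1 (N / a), chi P j * ph μ b (j * a) ≤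
        1 * ∑ j ∈ Icc 1 (N / a), ph μ b (j * a) :=
      mul_le_mul (chi_le_one P a) h1
        (sum_nonneg fun j _ => mul_nonneg (chi_nonneg _ _) (ph_pos μ b _).le) zero_le_one
    calc _ ≤ (1 * ∑ j ∈ Icc 1 (N / a), ph μ b (j * a)) * a := mul_le_mul_of_nonneg_right h3 ha0
      _ = _ := by ring
  refine ⟨?_, ?_, ?_⟩
  · have h1 : K₁ * V ≤ K₁ * (2 / κ * W) := mul_le_mul_of_nonneg_left hVW (by linarith)
    have h2 : K₁ * (2 / κ * W) = 2 * K₁ / κ * W := by ring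
    linarith
  · intro a ha
    have hle := hsmul_le a ha
    rw [mem_Icc] at ha
    have ha0 : (0 : ℝ) < a := by exact_mod_cast ha.1
    have key : (a : ℝ) * ∑ j ∈ Icc 1 (N / a), ph μ b (j * a) ≤ K₃ * V := by
      by_cases hab : (a : ℝ) ≤ Real.exp b
      · refine (ph_mul_sum hμ hN ha.1).trans ?_
        rw [← hV, hMe]
        have h1 : (a : ℝ) * Real.exp (-b) ≤ 1 := by
          rw [Real.exp_neg, ← div_eq_mul_inv, div_le_one (Real.exp_pos _)]
          exact hab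
        have h2 : 3 * a * (G * Real.exp (-3 * b) * Real.exp (-b)) =
            3 * G * Real.exp (-3 * b) * (a * Real.exp (-b)) := by ring
        rw [h2]
        have h3 : 3 * G * Real.exp (-3 * b) * (a * Real.exp (-b)) ≤
            3 * G * Real.exp (-3 * b) * 1 := mul_le_mul_of_nonneg_left h1 (by positivity)
        have h4 : 3 * G * Real.exp (-3 * b) ≤ 3 * G * (K₁ * V) :=
          mul_le_mul_of_nonneg_left hlow (by positivity)
        have h5 : 0 ≤ 2 * K₁ * V := by positivity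
        rw [hK₃]
        linarith
      · push Not at hab
        have h1 : ∀ j, 1 ≤ j → ph μ b (j * a) ≤ ((j : ℝ) ^ 4)⁻¹ * ((a : ℝ) ^ 4)⁻¹ := by
          intro j hj
          have hj0 : (0 : ℝ) < j := by exact_mod_cast hj
          have hja : (0 : ℝ) < ((j * a : ℕ) : ℝ) := by push_cast; positivity
          have h2 : ((j : ℝ) ^ 4)⁻¹ * ((a : ℝ) ^ 4)⁻¹ =
              Real.exp (-4 * Real.log ((j * a : ℕ) : ℝ)) := by
            have h3 : -4 * Real.log ((j * a : ℕ) : ℝ) =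
                -(((4 : ℕ) : ℝ) * Real.log ((j * a : ℕ) : ℝ)) := by
              push_cast; ring
            rw [h3, Real.exp_neg, Real.exp_nat_mul, Real.exp_log hja, ← mul_inv, ← mul_pow]
            push_cast
            rfl
          rw [h2]
          unfold ph
          apply Real.exp_le_exp.2
          have : 0 ≤ 4 * μ * (Real.log ((j * a : ℕ) : ℝ) - b) ^ 2 := by positivity
          linarith
        have h2 : ∑ j ∈ Icc 1 (N / a), ph μ b (j * a) ≤ 2 * ((a : ℝ) ^ 4)⁻¹ := by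
          rw [sum_Icc_shift (fun j => ph μ b (j * a))]
          calc ∑ i ∈ range (N / a), ph μ b ((i + 1) * a)
              ≤ ∑ i ∈ range (N / a), (((i : ℝ) + 1) ^ 4)⁻¹ * ((a : ℝ) ^ 4)⁻¹ := by
                refine sum_le_sum fun i _ => ?_
                have := h1 (i + 1) (by omega)
                push_cast at this
                exact this
            _ = (∑ i ∈ range (N / a), (((i : ℝ) + 1) ^ 4)⁻¹) * ((a : ℝ) ^ 4)⁻¹ :=
                (sum_mul _ _ _).symm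
            _ ≤ 2 * ((a : ℝ) ^ 4)⁻¹ := by
                apply mul_le_mul_of_nonneg_right _ (by positivity)
                refine (sum_inv_four _).trans ?_
                have : 0 ≤ 2 / (((N / a : ℕ) : ℝ) + 1) := by positivity
                linarith
        have h3 : (a : ℝ) * (2 * ((a : ℝ) ^ 4)⁻¹) = 2 * ((a : ℝ) ^ 3)⁻¹ := by
          field_simp
        have h4 : ((a : ℝ) ^ 3)⁻¹ ≤ Real.exp (-3 * b) := by
          have h5 : Real.exp (-3 * b) = (Real.exp b ^ 3)⁻¹ := by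
            rw [← Real.exp_nat_mul, ← Real.exp_neg]
            congr 1
            push_cast
            ring
          rw [h5]
          apply inv_anti₀ (by positivity)
          exact pow_le_pow_left₀ (Real.exp_pos b).le hab.le 3
        have h6 : 0 ≤ 3 * G * K₁ * V := by positivity
        calc (a : ℝ) * ∑ j ∈ Icc 1 (N / a), ph μ b (j * a) ≤ (a : ℝ) * (2 * ((a : ℝ) ^ 4)⁻¹) :=
              mul_le_mul_of_nonneg_left h2 ha0.le
          _ = 2 * ((a : ℝ) ^ 3)⁻¹ := h3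
          _ ≤ 2 * (K₁ * V) := by linarith [h4.trans hlow]
          _ ≤ K₃ * V := by rw [hK₃]; linarith
    have h1 : K₃ * V ≤ K₃ * (2 / κ * W) := mul_le_mul_of_nonneg_left hVW hK₃0.le
    have h2 : K₃ * (2 / κ * W) = 2 * K₃ / κ * W := by ring
    linarith
  · intro a ha hKa
    rw [mem_Icc] at ha
    have ha0 : (0 : ℝ) < a := by exact_mod_cast ha.1
    have hK₂a : K₂ * a ≤ Real.exp b := by
      refine le_trans ?_ hKa
      apply mul_le_mul_of_nonneg_right _ ha0.le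
      have : 0 < 2 * K₁ / κ := by positivity
      have : 0 < 2 * K₃ / κ := by positivity
      linarith
    have h1 := hMb a ha0.le hK₂a
    have h2 := ph_mul_sum hμ hN ha.1
    rw [← hV] at h2
    have h3 := (abs_le.1 (ph_rough_sum hμ b hP ha.1 (N / a))).2
    rw [← hκ] at h3
    obtain ⟨S, hS⟩ : ∃ S, S = ∑ j ∈ Icc 1 (N / a), ph μ b (j * a) := ⟨_, rfl⟩
    obtain ⟨R, hR⟩ : ∃ R, R = ∑ j ∈ Icc 1 (N / a), chi P j * ph μ b (j * a) := ⟨_, rfl⟩
    obtain ⟨M, hM⟩ : ∃ M, M = Real.exp (1 / μ - 4 * b) := ⟨_, rfl⟩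
    rw [Smul_rv]
    rw [← hS] at h2 h3
    rw [← hR] at h3 ⊢
    rw [← hM] at h1 h2 h3
    have hM0 : 0 ≤ M := by rw [hM]; exact (Real.exp_pos _).le
    have hR0 : 0 ≤ R := by
      rw [hR]; exact sum_nonneg fun j _ => mul_nonneg (chi_nonneg _ _) (ph_pos μ b _).le
    have h4 : chi P a * R * a ≤ R * a := by
      have := mul_le_mul_of_nonneg_right (chi_le_one P a) (mul_nonneg hR0 ha0.le)
      calc chi P a * R * a = chi P a * (R * a) := by ring
        _ ≤ 1 * (R * a) := this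
        _ = _ := one_mul _
    have h5 : R * a ≤ κ * (a * S) + 4 * P * M * a := by
      have h6 : R ≤ κ * S + 4 * P * M := by linarith
      calc R * a ≤ (κ * S + 4 * P * M) * a := mul_le_mul_of_nonneg_right h6 ha0.le
        _ = _ := by ring
    have h6 : κ * (a * S) ≤ κ * (V + 3 * a * M) := mul_le_mul_of_nonneg_left h2 hκ0.le
    have h7 : κ * (3 * a * M) ≤ P * (3 * a * M) :=
      mul_le_mul_of_nonneg_right (by linarith) (by positivity)
    linarith

end Pool.Agent.Y971.KK
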