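import Pool.Agent.Helper242.KK.Defs

set_option autoImplicit false

/-!
# Sums of unimodal functions over the integers prime to a modulus
-/

namespace Pool.Agent.Y971.KK

open Finset

/-- the proportion of the residues prime to `P` -/
noncomputable def kap (P : ℕ) : ℝ := (Nat.totient P : ℝ) / P

/-- the indicator of the integers prime to `P` -/
noncomputable def chi (P n : ℕ) : ℝ := if Nat.Coprime n P then 1 else 0

theorem chi_nonneg (P n : ℕ) : 0 ≤ chi P n := by
  unfold chi; split_ifs <;> norm_num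

theorem chi_le_one (P n : ℕ) : chi P n ≤ 1 := by
  unfold chi; split_ifs <;> norm_num

theorem kap_nonneg (P : ℕ) : 0 ≤ kap P := by
  unfold kap; positivity

theorem kap_le_one (P : ℕ) : kap P ≤ 1 := by
  unfold kap
  rcases Nat.eq_zero_or_pos P with h | h
  · subst h; simp
  · rw [div_le_one (by exact_mod_cast h)]
    exact_mod_cast Nat.totient_le P

theorem kap_pos {P : ℕ} (hP : 1 ≤ P) : 0 < kap P := by
  unfold kap
  have h1 : 0 < Nat.totient P := Nat.totient_pos.2 hP
  positivity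

/-- the discrepancy of the integers prime to `P` -/
noncomputable def dis (P n : ℕ) : ℝ := ∑ m ∈ Icc 1 n, (chi P m - kap P)

theorem dis_zero (P : ℕ) : dis P 0 = 0 := by simp [dis]

theorem dis_succ (P n : ℕ) : dis P (n + 1) = dis P n + (chi P (n + 1) - kap P) := by
  unfold dis
  rw [sum_Icc_succ_top (by omega)]

theorem dis_add {P : ℕ} (hP : 1 ≤ P) (n : ℕ) : dis P (n + P) = dis P n := by
  unfold dis
  have h1 : Icc 1 (n + P) = Icc 1 n ∪ Ico (n + 1) (n + 1 + P) := by
    ext x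
    rw [mem_union, mem_Icc, mem_Icc, mem_Ico]
    omega
  have h2 : Disjoint (Icc 1 n) (Ico (n + 1) (n + 1 + P)) := by
    rw [disjoint_left]
    intro x hx hx2
    rw [mem_Icc] at hx
    rw [mem_Ico] at hx2
    omega
  rw [h1, sum_union h2]
  have h3 : ∑ m ∈ Ico (n + 1) (n + 1 + P), (chi P m - kap P) = 0 := by
    rw [sum_sub_distrib, sum_const, nsmul_eq_mul, Nat.card_Ico]
    have h4 : ∑ m ∈ Ico (n + 1) (n + 1 + P), chi P m = (Nat.totient P : ℝ) := by
      have h5 := Nat.filter_coprime_Ico_eq_totient P (n + 1)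
      unfold chi
      rw [← sum_filter, sum_const, nsmul_eq_mul, mul_one, ← h5]
      congr 2
      ext x
      simp [Nat.coprime_comm]
    rw [h4]
    unfold kap
    have h6 : (P : ℝ) ≠ 0 := by positivity
    rw [show n + 1 + P - (n + 1) = P by omega]
    field_simp
    ring
  rw [h3, add_zero]

theorem abs_dis_le {P : ℕ} (hP : 1 ≤ P) (n : ℕ) : |dis P n| ≤ P := by
  induction n using Nat.strong_induction_on with
  | _ n ih =>
    by_cases h : n < P
    · unfold dis
      refine (abs_sum_le_sum_abs _ _).trans ?_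
      have h1 : ∀ m ∈ Icc 1 n, |chi P m - kap P| ≤ 1 := by
        intro m _
        rw [abs_le]
        constructor
        · linarith [chi_nonneg P m, kap_le_one P]
        · linarith [chi_le_one P m, kap_nonneg P]
      refine (sum_le_sum h1).trans ?_
      rw [sum_const, nsmul_eq_mul, mul_one, Nat.card_Icc]
      have h2 : n + 1 - 1 ≤ P := by omega
      exact_mod_cast h2
    · have h1 : n = (n - P) + P := by omega
      rw [h1, dis_add hP]
      exact ih (n - P) (by omega)

theorem abel (P : ℕ) (g : ℕ → ℝ) (N : ℕ) :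
    ∑ n ∈ Icc 1 (N + 1), (chi P n - kap P) * g n =
      dis P (N + 1) * g (N + 1) - ∑ n ∈ Ico 1 (N + 1), dis P n * (g (n + 1) - g n) := by
  induction N with
  | zero =>
    have := dis_succ P 0
    rw [dis_zero, zero_add] at this
    simp [this]
  | succ N ih =>
    have e1 : ∑ n ∈ Ico 1 (N + 1 + 1), dis P n * (g (n + 1) - g n) =
        ∑ n ∈ Ico 1 (N + 1), dis P n * (g (n + 1) - g n) +
          dis P (N + 1) * (g (N + 1 + 1) - g (N + 1)) := sum_Ico_succ_top (by omega) _
    rw [sum_Icc_succ_top (by omega), ih, e1, dis_succ P (N + 1)]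
    ring

theorem rough_sum_aux {P : ℕ} (hP : 1 ≤ P) (g : ℕ → ℝ) (N : ℕ) {M V : ℝ}
    (hM : ∀ n, 1 ≤ n → |g n| ≤ M) (hM0 : 0 ≤ M) (hV : ∑ n ∈ Ico 1 N, |g (n + 1) - g n| ≤ V) :
    |∑ n ∈ Icc 1 N, chi P n * g n - kap P * ∑ n ∈ Icc 1 N, g n| ≤ P * (M + V) := by
  have h0 : ∑ n ∈ Icc 1 N, chi P n * g n - kap P * ∑ n ∈ Icc 1 N, g n =
      ∑ n ∈ Icc 1 N, (chi P n - kap P) * g n := by
    rw [mul_sum, ← sum_sub_distrib]
    exact sum_congr rfl fun n _ => by ring
  rw [h0]
  have hP0 : (0 : ℝ) ≤ P := Nat.cast_nonneg P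
  have hV0 : 0 ≤ V := le_trans (sum_nonneg fun _ _ => abs_nonneg _) hV
  cases N with
  | zero =>
    simp only [Nat.lt_one_iff, pos_of_gt, Icc_eq_empty_of_lt, sum_empty, abs_zero]
    positivity
  | succ N =>
    rw [abel]
    refine (abs_sub _ _).trans ?_
    rw [mul_add]
    refine add_le_add ?_ ?_
    · rw [abs_mul]
      exact mul_le_mul (abs_dis_le hP _) (hM _ (by omega)) (abs_nonneg _) hP0
    · refine (abs_sum_le_sum_abs _ _).trans ?_
      calc ∑ n ∈ Ico 1 (N + 1), |dis P n * (g (n + 1) - g n)|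
          ≤ ∑ n ∈ Ico 1 (N + 1), (P : ℝ) * |g (n + 1) - g n| := by
            refine sum_le_sum fun n _ => ?_
            rw [abs_mul]
            exact mul_le_mul_of_nonneg_right (abs_dis_le hP _) (abs_nonneg _)
        _ = (P : ℝ) * ∑ n ∈ Ico 1 (N + 1), |g (n + 1) - g n| := by rw [mul_sum]
        _ ≤ _ := mul_le_mul_of_nonneg_left hV hP0

/-- the total variation of a unimodal sequence with values in `[0, M]` -/
theorem tv_unimodal {g : ℕ → ℝ} {τ M : ℝ} (h0 : ∀ n, 1 ≤ n → 0 ≤ g n)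
    (hup : ∀ m n : ℕ, 1 ≤ m → m ≤ n → (n : ℝ) ≤ τ → g m ≤ g n)
    (hdown : ∀ m n : ℕ, 1 ≤ m → τ ≤ m → m ≤ n → g n ≤ g m) (hM : ∀ n, 1 ≤ n → g n ≤ M) (N : ℕ) :
    ∑ n ∈ Ico 1 (N + 1), |g (n + 1) - g n| ≤ 3 * M := by
  have hM0 : 0 ≤ M := (h0 1 le_rfl).trans (hM 1 le_rfl)
  have key : ∀ N : ℕ, ((((N + 1 : ℕ) : ℝ) ≤ τ → ∑ n ∈ Ico 1 (N + 1), |g (n + 1) - g n| ≤ g (N + 1)) ∧
      (τ < ((N + 1 : ℕ) : ℝ) → ∑ n ∈ Ico 1 (N + 1), |g (n + 1) - g n| ≤ 3 * M - g (N + 1))) := by
    intro N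
    induction N with
    | zero =>
      constructor
      · intro _
        simpa using h0 1 le_rfl
      · intro _
        have := hM 1 le_rfl
        simp only [zero_add, Ico_self, sum_empty]
        linarith
    | succ N ih =>
      rw [sum_Ico_succ_top (by omega)]
      have b1 := h0 (N + 1) (by omega)
      have b2 := h0 (N + 1 + 1) (by omega)
      have b3 := hM (N + 1) (by omega)
      have b4 := hM (N + 1 + 1) (by omega)
      have hlt : ((N + 1 : ℕ) : ℝ) ≤ ((N + 1 + 1 : ℕ) : ℝ) := by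
        exact_mod_cast (by omega : N + 1 ≤ N + 1 + 1)
      constructor
      · intro h
        have h1 := ih.1 (hlt.trans h)
        have h2 := hup (N + 1) (N + 1 + 1) (by omega) (by omega) h
        rw [abs_of_nonneg (by linarith)]
        linarith
      · intro h
        rcases le_or_gt ((N + 1 : ℕ) : ℝ) τ with h3 | h3
        · have h1 := ih.1 h3
          rcases le_total (g (N + 1)) (g (N + 1 + 1)) with h4 | h4
          · rw [abs_of_nonneg (by linarith)]
            linarith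
          · rw [abs_of_nonpos (by linarith)]
            linarith
        · have h1 := ih.2 h3
          have h2 := hdown (N + 1) (N + 1 + 1) (by omega) h3.le (by omega)
          rw [abs_of_nonpos (by linarith)]
          linarith
  rcases le_or_gt ((N + 1 : ℕ) : ℝ) τ with h | h
  · have h1 := (key N).1 h
    have h2 := hM (N + 1) (by omega)
    linarith
  · have h1 := (key N).2 h
    have h2 := h0 (N + 1) (by omega)
    linarith

/-- unimodal sums over the integers prime to `P` -/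
theorem rough_sum {P : ℕ} (hP : 1 ≤ P) {g : ℕ → ℝ} {τ M : ℝ} (h0 : ∀ n, 1 ≤ n → 0 ≤ g n)
    (hup : ∀ m n : ℕ, 1 ≤ m → m ≤ n → (n : ℝ) ≤ τ → g m ≤ g n)
    (hdown : ∀ m n : ℕ, 1 ≤ m → τ ≤ m → m ≤ n → g n ≤ g m) (hM : ∀ n, 1 ≤ n → g n ≤ M) (N : ℕ) :
    |∑ n ∈ Icc 1 N, chi P n * g n - kap P * ∑ n ∈ Icc 1 N, g n| ≤ 4 * P * M := by
  have hM0 : 0 ≤ M := (h0 1 le_rfl).trans (hM 1 le_rfl)
  have h1 : ∑ n ∈ Ico 1 N, |g (n + 1) - g n| ≤ 3 * M := by
    cases N with
    | zero => simpa using hM0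
    | succ N => exact tv_unimodal h0 hup hdown hM N
  have h2 := rough_sum_aux hP g N (M := M) (V := 3 * M)
    (fun n hn => by rw [abs_of_nonneg (h0 n hn)]; exact hM n hn) hM0 h1
  refine h2.trans (le_of_eq ?_)
  ring

end Pool.Agent.Y971.KK
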